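import Pool.Agent.R311.BS.WF

set_option autoImplicit false

/-! Gaussian averages of products of Dirichlet polynomials supported off a finite set of primes and of
trigonometric polynomials. The library `Pool.Agent.R311.BS` is used throughout. -/

namespace Pool.Agent.W5h32.KS

open Finset MeasureTheory Filter Topology
open Pool.Agent.H306R2 Pool.Agent.R311.BS

noncomputable section

/-- the number `x` is not the logarithm of a rational number in which a prime outside `S` occurs -/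
def Allowed (S : Finset ℕ) (x : ℝ) : Prop :=
  ∀ a b : ℕ, 1 ≤ a → 1 ≤ b → a.Coprime b → x = Real.log a - Real.log b →
    ∀ p : ℕ, p.Prime → p ∣ a * b → p ∈ S

lemma log_eq {a b : ℕ} (ha : 1 ≤ a) (hb : 1 ≤ b) (h : Real.log a - Real.log b = 0) : a = b := by
  have c1 : (0:ℝ) < a := by exact_mod_cast ha
  have c2 : (0:ℝ) < b := by exact_mod_cast hb
  have h2 := Real.log_injOn_pos (Set.mem_Ioi.mpr c1) (Set.mem_Ioi.mpr c2) (by linarith)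
  exact_mod_cast h2

lemma allowed_zero (S : Finset ℕ) : Allowed S 0 := by
  intro a b ha hb hab h p hp hpd
  have h1 := log_eq ha hb h.symm
  subst h1
  rw [Nat.coprime_self] at hab
  subst hab
  rw [mul_one, Nat.dvd_one] at hpd
  exact absurd hpd hp.ne_one

lemma cop_one {S : Finset ℕ} {a : ℕ} (h : a.Coprime (∏ p ∈ S, p))
    (hs : ∀ p : ℕ, p.Prime → p ∣ a → p ∈ S) : a = 1 := by
  by_contra h1
  obtain ⟨p, hp, hpa⟩ := Nat.exists_prime_and_dvd h1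
  have h2 : p ∣ ∏ p ∈ S, p := dvd_prod_of_mem _ (hs p hp hpa)
  exact Nat.not_coprime_of_dvd_of_dvd hp.one_lt hpa h2 h

/-- near coincidences have large height -/
theorem near_F {κ : ℝ} (hκ : 0 ≤ κ) (S : Finset ℕ) (F : Finset ℝ) (hF : ∀ x ∈ F, Allowed S x)
    (ε : ℝ) (hε : 0 < ε) :
    ∀ᶠ ρ : ℝ in 𝓝[>] 0, ∀ x ∈ F, x ≠ 0 → ∀ a b : ℕ, 1 ≤ a → 1 ≤ b → a.Coprime b →
      a.Coprime (∏ p ∈ S, p) → b.Coprime (∏ p ∈ S, p) → |x - Real.log a + Real.log b| < ρ →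
      dv κ a * dv κ b * (Real.sqrt a)⁻¹ * (Real.sqrt b)⁻¹ ≤ ε := by
  obtain ⟨K, hK, hK1, hK2⟩ := dv_decay hκ
  obtain ⟨B, hB⟩ := hK2 (ε / K) (by positivity)
  have key : ∀ x ∈ F, x ≠ 0 → ∀ a ∈ range B, ∀ b ∈ range B, ∀ᶠ ρ : ℝ in 𝓝[>] 0,
      1 ≤ a → 1 ≤ b → a.Coprime b → a.Coprime (∏ p ∈ S, p) → b.Coprime (∏ p ∈ S, p) →
      ρ ≤ |x - Real.log a + Real.log b| := by
    intro x hx hx0 a _ b _
    by_cases h : 1 ≤ a ∧ 1 ≤ b ∧ a.Coprime b ∧ a.Coprime (∏ p ∈ S, p) ∧ b.Coprime (∏ p ∈ S, p)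
    · have hpos : 0 < |x - Real.log a + Real.log b| := by
        rw [abs_pos]
        intro h0
        obtain ⟨h1, h2, h3, h4, h5⟩ := h
        have h6 := hF x hx a b h1 h2 h3 (by linarith)
        have ha := cop_one h4 fun p hp hpa => h6 p hp (hpa.mul_right _)
        have hb := cop_one h5 fun p hp hpb => h6 p hp (hpb.mul_left _)
        rw [ha, hb] at h0
        apply hx0
        simpa using h0
      have := Ioo_mem_nhdsGT hpos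
      filter_upwards [this] with ρ hρ _ _ _ _ _
      exact hρ.2.le
    · refine Eventually.of_forall fun ρ h1 h2 h3 h4 h5 => absurd ⟨h1, h2, h3, h4, h5⟩ h
  have key2 : ∀ᶠ ρ : ℝ in 𝓝[>] 0, ∀ x ∈ F.erase 0, ∀ a ∈ range B, ∀ b ∈ range B,
      1 ≤ a → 1 ≤ b → a.Coprime b → a.Coprime (∏ p ∈ S, p) → b.Coprime (∏ p ∈ S, p) →
      ρ ≤ |x - Real.log a + Real.log b| := by
    rw [eventually_all_finset]
    intro x hx
    rw [mem_erase] at hx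
    rw [eventually_all_finset]
    intro a ha
    rw [eventually_all_finset]
    intro b hb
    exact key x hx.2 hx.1 a ha b hb
  filter_upwards [key2] with ρ hρ x hx hx0 a b ha hb hab haP hbP hlt
  have hnn : ∀ n : ℕ, 0 ≤ dv κ n * (Real.sqrt n)⁻¹ := fun n => mul_nonneg (dv_nonneg hκ n) (by positivity)
  have e1 : dv κ a * dv κ b * (Real.sqrt a)⁻¹ * (Real.sqrt b)⁻¹ =
      (dv κ a * (Real.sqrt a)⁻¹) * (dv κ b * (Real.sqrt b)⁻¹) := by ring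
  rw [e1]
  have hK0 : 0 < K := by linarith
  by_cases haB : B ≤ a
  · calc _ ≤ (ε / K) * K := mul_le_mul (hB a haB) (hK1 b) (hnn b) (by positivity)
      _ = ε := by field_simp
  · by_cases hbB : B ≤ b
    · calc _ ≤ K * (ε / K) := mul_le_mul (hK1 a) (hB b hbB) (hnn b) (by positivity)
        _ = ε := by field_simp
    · exfalso
      have := hρ x (mem_erase.mpr ⟨hx0, hx⟩) a (mem_range.mpr (by omega)) b
        (mem_range.mpr (by omega)) ha hb hab haP hbP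
      linarith

/-- the mean value with a trigonometric polynomial -/
theorem mean_F (F : Finset ℝ) (h0 : (0:ℝ) ∈ F) (c : ℝ → ℂ) (K B : ℝ) (hK : ∑ x ∈ F, ‖c x‖ ≤ K)
    (hB : ∀ x ∈ F, |x| ≤ B)
    {κ : ℝ} (hκ : 1 ≤ κ) (P : ℕ) (f g : ℕ → ℝ) (X Y Z ρ τ H Γ : ℝ) (hH : 0 < H) (hY : 1 ≤ Y)
    (hYX : Y ≤ X) (hρ : 0 ≤ ρ) (hρ1 : ρ ≤ 1)
    (hZ : Y * Real.exp (B + 1) ≤ Z) (hρ2 : 2 * ρ ≤ 1 / (Z * Y))
    (hf : ∀ n : ℕ, (n:ℝ) ≤ Z → |f n| ≤ dv κ n ∧ (f n ≠ 0 → n.Coprime P))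
    (hg : ∀ l : ℕ, |g l| ≤ dv κ l ∧ (g l ≠ 0 → l.Coprime P))
    (hΓ0 : 0 ≤ Γ)
    (hΓ : ∀ x ∈ F, x ≠ 0 → ∀ a b : ℕ, 1 ≤ a → 1 ≤ b → a.Coprime b → a.Coprime P → b.Coprime P →
      |x - Real.log a + Real.log b| < ρ →
      dv κ a * dv κ b * (Real.sqrt a)⁻¹ * (Real.sqrt b)⁻¹ ≤ Γ) :
    Integrable (fun t : ℝ => ((∑ x ∈ F, c x * ex x t) * Dp f X (1 / 2 + t * Complex.I) *
      (starRingEnd ℂ) (Dp g Y (1 / 2 + t * Complex.I))) * (gw τ H t : ℂ)) ∧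
    ‖(∫ t : ℝ, ((∑ x ∈ F, c x * ex x t) * Dp f X (1 / 2 + t * Complex.I) *
      (starRingEnd ℂ) (Dp g Y (1 / 2 + t * Complex.I))) * (gw τ H t : ℂ)) -
      c 0 * ((∑ n ∈ Icc 1 ⌊Y⌋₊, f n * g n / n : ℝ) : ℂ)‖ ≤
      K * (Γ * (∑ v ∈ Icc 1 ⌊Y⌋₊, dv κ v ^ 2 / v) + l1 f X * l1 g Y * gq H ρ) := by
  classical
  have hκ0 : 0 ≤ κ := by linarith
  have hB0 : 0 ≤ B := by
    have := hB 0 h0
    simpa using this
  have hZpos : 0 < Z := lt_of_lt_of_le (by positivity) hZ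
  obtain ⟨hI, hE⟩ := expansion F c (fun x => x) f g X Y τ H hH
  refine ⟨hI, ?_⟩
  rw [hE]
  have e1 : ∑ x ∈ F, ∑ n ∈ Icc 1 ⌊X⌋₊, ∑ l ∈ Icc 1 ⌊Y⌋₊,
      (c x * ((f n * (Real.sqrt n)⁻¹ : ℝ) : ℂ) * ((g l * (Real.sqrt l)⁻¹ : ℝ) : ℂ)) *
        (ex (x - Real.log n + Real.log l) τ * (gq H (x - Real.log n + Real.log l) : ℝ)) =
      ∑ x ∈ F, c x * TT f g X Y τ H x := by
    refine sum_congr rfl fun m _ => ?_
    unfold TT
    rw [mul_sum]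
    refine sum_congr rfl fun n _ => ?_
    rw [mul_sum]
    refine sum_congr rfl fun l _ => ?_
    ring
  rw [e1]
  have hA : 0 ≤ l1 f X * l1 g Y * gq H ρ :=
    mul_nonneg (mul_nonneg (l1_nonneg _ _) (l1_nonneg _ _)) (gq_nonneg _ _)
  have hU : 0 ≤ ∑ v ∈ Icc 1 ⌊Y⌋₊, dv κ v ^ 2 / (v:ℝ) := sum_nonneg fun v _ => by positivity
  have hexp1 : 1 ≤ Real.exp (B + 1) := Real.one_le_exp (by positivity)
  have hY1 : 1 ≤ Z := by nlinarith
  have hz := zero_freq f g X Y Z ρ τ H hY hYX hρ hρ1 (by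
    refine le_trans ?_ hZ
    gcongr
    linarith) (by
    have h1 : 1 / (Z * Y) ≤ 1 / Z := one_div_le_one_div_of_le hZpos (by nlinarith)
    linarith)
  have e2 : ∑ x ∈ F, c x * TT f g X Y τ H x -
      c 0 * ((∑ n ∈ Icc 1 ⌊Y⌋₊, f n * g n / n : ℝ) : ℂ) =
      ∑ x ∈ F, c x * (TT f g X Y τ H x -
        if x = 0 then ((∑ n ∈ Icc 1 ⌊Y⌋₊, f n * g n / n : ℝ) : ℂ) else 0) := by
    simp only [mul_sub, sum_sub_distrib]
    congr 1
    simp only [mul_ite, mul_zero]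
    rw [sum_ite_eq' F 0 (fun x => c x * ((∑ n ∈ Icc 1 ⌊Y⌋₊, f n * g n / n : ℝ) : ℂ)), if_pos h0]
  rw [e2]
  have h1 : ∀ x ∈ F, ‖c x * (TT f g X Y τ H x -
        if x = 0 then ((∑ n ∈ Icc 1 ⌊Y⌋₊, f n * g n / n : ℝ) : ℂ) else 0)‖ ≤
      ‖c x‖ * (Γ * (∑ v ∈ Icc 1 ⌊Y⌋₊, dv κ v ^ 2 / v) + l1 f X * l1 g Y * gq H ρ) := by
    intro x hx
    rw [norm_mul]
    refine mul_le_mul_of_nonneg_left ?_ (norm_nonneg _)
    by_cases h : x = 0
    · rw [if_pos h, h]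
      refine hz.trans ?_
      have : 0 ≤ Γ * (∑ v ∈ Icc 1 ⌊Y⌋₊, dv κ v ^ 2 / (v:ℝ)) := mul_nonneg hΓ0 hU
      linarith
    · rw [if_neg h, sub_zero]
      have h2 := TT_le f g X Y τ H ρ x hρ
      have h3 := near_bound κ hκ0 (dv_submul hκ) P f g X Y Z ρ x Γ hY hρ1 (by
        refine le_trans ?_ hZ
        gcongr
        exact hB x hx) hρ2 hf hg hΓ0 (hΓ x hx h)
      linarith
  refine (norm_sum_le_of_le _ h1).trans ?_
  rw [← sum_mul]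
  exact mul_le_mul_of_nonneg_right hK (add_nonneg (mul_nonneg hΓ0 hU) hA)

end

end Pool.Agent.W5h32.KS
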