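import Pool.Agent.W5h32.KS.A

set_option autoImplicit false

/-! The averages in one Gaussian window. -/

namespace Pool.Agent.W5h32.KS

open Finset MeasureTheory Filter Topology
open Pool.Agent.H306R2 Pool.Agent.R311.BS

noncomputable section

/-- the short polynomial on the line -/
def AL (P : ℕ) (N t : ℝ) : ℂ := Dp (cA P N (1 / 2)) N (1 / 2 + t * Complex.I)

/-- the inverse of the local factor on the line -/
def ES (P : ℕ) (t : ℝ) : ℂ := Dp (muP P) P (1 / 2 + t * Complex.I)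

/-- the power of the short polynomial -/
def Gq (q P : ℕ) (N : ℝ) : ArithmeticFunction ℝ := cA P N (1 / 2) ^ q

/-- mixed diagonal sum -/
def Dm (q P : ℕ) (N X : ℝ) : ℝ := ∑ n ∈ Icc 1 ⌊N ^ q⌋₊, Bf q P N X n * Gq q P N n / n

/-- diagonal sum -/
def Dd (q P : ℕ) (N : ℝ) : ℝ := ∑ n ∈ Icc 1 ⌊N ^ q⌋₊, Gq q P N n * Gq q P N n / n

/-- upper bound of the diagonal sums -/
def Uq (q : ℕ) (N : ℝ) : ℝ := ∑ v ∈ Icc 1 ⌊N ^ q⌋₊, dv ((q:ℝ) / 2) v ^ 2 / v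

/-- trigonometric polynomial -/
def VF (F : Finset ℝ) (c : ℝ → ℂ) (t : ℝ) : ℂ := ∑ x ∈ F, c x * ex x t

lemma VF_cont (F : Finset ℝ) (c : ℝ → ℂ) : Continuous (VF F c) := by
  unfold VF
  exact continuous_finsetSum _ fun m _ => (ex_cont _).const_mul _ |>.congr fun _ => rfl

lemma VF_norm (F : Finset ℝ) (c : ℝ → ℂ) (K : ℝ) (hK : ∑ x ∈ F, ‖c x‖ ≤ K) (t : ℝ) : ‖VF F c t‖ ≤ K := by
  unfold VF
  refine (norm_sum_le _ _).trans (le_trans (sum_le_sum fun m _ => ?_) hK)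
  rw [norm_mul, ex_norm, mul_one]

lemma AL_cont (P : ℕ) (N : ℝ) : Continuous (AL P N) := Dp_cont _ _

lemma ES_cont (P : ℕ) : Continuous (ES P) := Dp_cont _ _

lemma AL_norm (P : ℕ) (N : ℝ) (hN : 1 ≤ N) (t : ℝ) : ‖AL P N t‖ ≤ N := by
  have h := l1_PB (PB_cA_one P N (α := 1 / 2) (by norm_num) (by norm_num)) hN
  rw [zero_add, pow_one] at h
  exact (Dp_line_norm _ _ _).trans h

lemma ES_norm (P : ℕ) (hP : 1 ≤ P) (t : ℝ) : ‖ES P t‖ ≤ P := by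
  have hPr : (1:ℝ) ≤ P := by exact_mod_cast hP
  have h := l1_PB (PB_muP P) hPr
  rw [zero_add, pow_one] at h
  exact (Dp_line_norm _ _ _).trans h

lemma Gq_nonneg (q P : ℕ) (N : ℝ) (n : ℕ) : 0 ≤ Gq q P N n :=
  (cA_pow_le P N (α := 1 / 2) (by norm_num) q n).1

lemma Gq_le (q P : ℕ) (N : ℝ) (n : ℕ) : |Gq q P N n| ≤ dv ((q:ℝ) / 2) n ∧ (Gq q P N n ≠ 0 → n.Coprime P) := by
  have h1 := cA_pow_le P N (α := 1 / 2) (by norm_num) q n
  have e : (q:ℝ) * (1 / 2) = (q:ℝ) / 2 := by ring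
  rw [e] at h1
  refine ⟨?_, fun h => ?_⟩
  · rw [abs_of_nonneg (Gq_nonneg q P N n)]
    exact h1.2.trans (xA_le P (by positivity) n)
  · apply xA_coprime (P := P) (α := (q:ℝ) / 2)
    intro h0
    rw [h0] at h1
    exact h (le_antisymm h1.2 h1.1)

lemma Gq_Dp (q P : ℕ) (N : ℝ) (hN : 1 ≤ N) (t : ℝ) :
    Dp (Gq q P N) (N ^ q) (1 / 2 + t * Complex.I) = AL P N t ^ q :=
  (Dp_pow (cA P N (1 / 2)) N hN (cA_supp P N (1 / 2)) (1 / 2 + t * Complex.I) q).2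

lemma Bf_Dp' (q P : ℕ) (hP : 1 ≤ P) (N X : ℝ) (hN : 1 ≤ N) (hX : 0 ≤ X) (t : ℝ) :
    Dp (Bf q P N X) (N ^ (q - 2) * (P * X)) (1 / 2 + t * Complex.I) =
      AL P N t ^ (q - 2) * (ES P t * zX X t) := Bf_Dp q P hP N X hN hX _

/-- comparison of the diagonal sums -/
lemma Dd_le_Dm (q P : ℕ) (hq : 2 ≤ q) (N X : ℝ) (hNX : N ^ q ≤ X) : Dd q P N ≤ Dm q P N X := by
  unfold Dd Dm
  refine sum_le_sum fun n hn => ?_
  rw [mem_Icc] at hn
  have hnX : (n:ℝ) ≤ X := by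
    refine le_trans ?_ hNX
    have h0 : 0 < ⌊N ^ q⌋₊ := by omega
    exact (Nat.cast_le.mpr hn.2).trans (Nat.floor_le ((Nat.floor_pos.mp h0).trans' zero_le_one))
  have h1 := mul_mono_le X (f := cA P N (1 / 2) ^ (q - 2)) (f' := cA P N (1 / 2) ^ (q - 2))
    (g := cA P N (1 / 2) ^ 2) (g' := zP P X)
    (fun m _ => ⟨(cA_pow_le P N (α := 1 / 2) (by norm_num) (q - 2) m).1, le_refl _⟩)
    (fun m hm => by
      have h2 := cA_pow_le P N (α := 1 / 2) (by norm_num) 2 m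
      refine ⟨h2.1, h2.2.trans (le_of_eq ?_)⟩
      rw [zP_eq P X m hm]
      norm_num) n hnX
  have e : Gq q P N = cA P N (1 / 2) ^ (q - 2) * cA P N (1 / 2) ^ 2 := by
    unfold Gq
    rw [← pow_add]
    congr 1
    omega
  have h3 : Gq q P N n ≤ Bf q P N X n := by
    rw [e]
    exact h1.2
  have h4 := Gq_nonneg q P N n
  gcongr

lemma Dd_nonneg (q P : ℕ) (N : ℝ) : 0 ≤ Dd q P N := by
  unfold Dd
  refine sum_nonneg fun n _ => ?_
  have := Gq_nonneg q P N n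
  positivity

lemma Dd_le (q P : ℕ) (N : ℝ) : Dd q P N ≤ Uq q N := by
  unfold Dd Uq
  refine sum_le_sum fun n _ => ?_
  have h1 := Gq_nonneg q P N n
  have h2 := (Gq_le q P N n).1
  rw [abs_of_nonneg h1] at h2
  have h3 := h1.trans h2
  rw [sq]
  gcongr

/-- the twisted first moment in one window -/
theorem win1 (q : ℕ) (hq : 2 ≤ q) (F : Finset ℝ) (h0 : (0:ℝ) ∈ F) (c : ℝ → ℂ) (K B : ℝ)
    (hK : ∑ x ∈ F, ‖c x‖ ≤ K) (hB : ∀ x ∈ F, |x| ≤ B) (P : ℕ) (hP : 1 ≤ P)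
    (N X Z ρ τ H R Γ e₁ L : ℝ) (hN : 1 ≤ N) (hNX : N ^ q ≤ X) (hZX : Z ≤ X)
    (hρ : 0 ≤ ρ) (hρ1 : ρ ≤ 1) (hH : 0 < H) (hR : 0 ≤ R) (he₁ : 0 ≤ e₁)
    (hZ : N ^ q * Real.exp (B + 1) ≤ Z) (hρ2 : 2 * ρ ≤ 1 / (Z * N ^ q))
    (hΓ0 : 0 ≤ Γ)
    (hΓ : ∀ x ∈ F, x ≠ 0 → ∀ a b : ℕ, 1 ≤ a → 1 ≤ b → a.Coprime b → a.Coprime P → b.Coprime P →
      |x - Real.log a + Real.log b| < ρ →
      dv ((q:ℝ) / 2) a * dv ((q:ℝ) / 2) b * (Real.sqrt a)⁻¹ * (Real.sqrt b)⁻¹ ≤ Γ)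
    (hL : l1 (Bf q P N X) (N ^ (q - 2) * (P * X)) * l1 (Gq q P N) (N ^ q) ≤ L)
    (happ : ∀ t ∈ Set.Ioc (τ - R) (τ + R), ‖zl t - zX X t‖ ≤ e₁) :
    ‖(∫ t in Set.Ioc (τ - R) (τ + R), (VF F c t *
        (AL P N t ^ (q - 2) * (ES P t * zl t)) * (starRingEnd ℂ) (AL P N t ^ q)) * (gw τ H t : ℂ)) -
      c 0 * ((Dm q P N X : ℝ) : ℂ)‖ ≤
    K * (Γ * Uq q N + L * gq H ρ + L * (2 * Real.exp (-(R ^ 2 / (2 * H ^ 2)))) +
      e₁ * (P * N ^ (2 * q - 2))) := by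
  have hqr : (2:ℝ) ≤ q := by exact_mod_cast hq
  have hY1 : 1 ≤ N ^ q := one_le_pow₀ hN
  have hX1 : 1 ≤ X := hY1.trans hNX
  have hX0 : 0 ≤ X := by linarith
  have hPr : (1:ℝ) ≤ P := by exact_mod_cast hP
  have hK0 : 0 ≤ K := (sum_nonneg fun _ _ => norm_nonneg _).trans hK
  have hL0 : 0 ≤ L := (mul_nonneg (l1_nonneg _ _) (l1_nonneg _ _)).trans hL
  obtain ⟨Xf, hXf⟩ : ∃ Xf : ℝ, Xf = N ^ (q - 2) * (P * X) := ⟨_, rfl⟩
  have hXXf : X ≤ Xf := by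
    rw [hXf]
    have h1 : 1 ≤ N ^ (q - 2) := one_le_pow₀ hN
    have h2 : X ≤ (P:ℝ) * X := by nlinarith
    calc X ≤ (P:ℝ) * X := h2
      _ ≤ N ^ (q - 2) * (P * X) := by
          have : 0 ≤ (P:ℝ) * X := by positivity
          nlinarith
  rw [← hXf] at hL
  set Y := N ^ q with hY
  have hm := mean_F F h0 c K B hK hB (κ := (q:ℝ) / 2) (by linarith) P (Bf q P N X) (Gq q P N) Xf Y Z ρ τ H Γ
    hH hY1 (hNX.trans hXXf) hρ hρ1 hZ hρ2 (fun n hn => Bf_le q hq P N X n (hn.trans hZX))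
    (fun n => Gq_le q P N n) hΓ0 hΓ
  obtain ⟨hGint, hmain⟩ := hm
  set G : ℝ → ℂ := fun t => ((∑ x ∈ F, c x * ex x t) * Dp (Bf q P N X) Xf (1 / 2 + t * Complex.I) *
      (starRingEnd ℂ) (Dp (Gq q P N) Y (1 / 2 + t * Complex.I))) * (gw τ H t : ℂ) with hG
  set I := Set.Ioc (τ - R) (τ + R) with hI
  have hImeas : MeasurableSet I := measurableSet_Ioc
  have hgwI := gw_integrable τ H hH
  have hVn : ∀ t : ℝ, ‖∑ x ∈ F, c x * ex x t‖ ≤ K := VF_norm F c K hK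
  have hout : ‖∫ t in Iᶜ, G t‖ ≤ K * (L * (2 * Real.exp (-(R ^ 2 / (2 * H ^ 2))))) := by
    calc ‖∫ t in Iᶜ, G t‖ ≤ ∫ t in Iᶜ, ‖G t‖ := norm_integral_le_integral_norm _
      _ ≤ ∫ t in Iᶜ, K * L * gw τ H t := by
          refine setIntegral_mono_on hGint.norm.integrableOn (hgwI.const_mul _).integrableOn
            hImeas.compl fun t _ => ?_
          rw [hG]
          simp only
          have hg := gw_nonneg τ H t hH
          rw [norm_mul, norm_mul, norm_mul, RCLike.norm_conj, Complex.norm_real,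
            Real.norm_of_nonneg hg]
          have a1 := hVn t
          have a2 : ‖Dp (Bf q P N X) Xf (1 / 2 + t * Complex.I)‖ ≤ l1 (Bf q P N X) Xf := Dp_line_norm _ _ _
          have a3 : ‖Dp (Gq q P N) Y (1 / 2 + t * Complex.I)‖ ≤ l1 (Gq q P N) Y := Dp_line_norm _ _ _
          have a4 : ‖Dp (Bf q P N X) Xf (1 / 2 + t * Complex.I)‖ * ‖Dp (Gq q P N) Y (1 / 2 + t * Complex.I)‖ ≤ L :=
            (mul_le_mul a2 a3 (norm_nonneg _) (l1_nonneg _ _)).trans hL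
          calc _ = ‖∑ x ∈ F, c x * ex x t‖ * (‖Dp (Bf q P N X) Xf (1 / 2 + t * Complex.I)‖ *
                ‖Dp (Gq q P N) Y (1 / 2 + t * Complex.I)‖) * gw τ H t := by ring
            _ ≤ K * L * gw τ H t := by gcongr
      _ = K * L * ∫ t in Iᶜ, gw τ H t := integral_const_mul _ _
      _ ≤ K * L * (2 * Real.exp (-(R ^ 2 / (2 * H ^ 2)))) := by
          gcongr
          exact gw_tail τ H R hH hR
      _ = _ := by ring
  set G' : ℝ → ℂ := fun t => (VF F c t *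
        (AL P N t ^ (q - 2) * (ES P t * zl t)) * (starRingEnd ℂ) (AL P N t ^ q)) * (gw τ H t : ℂ) with hG'
  have hG'c : Continuous G' := by
    rw [hG']
    have c1 := AL_cont P N
    have c2 := ES_cont P
    have c4 := zl_cont
    have c5 : Continuous fun t : ℝ => (starRingEnd ℂ) (AL P N t ^ q) :=
      Complex.continuous_conj.comp (c1.pow q)
    have c6 := VF_cont F c
    have c7 : Continuous fun t : ℝ => (gw τ H t : ℂ) := Complex.continuous_ofReal.comp (gw_continuous τ H)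
    fun_prop
  have hG'I : IntegrableOn G' I := (hG'c.integrableOn_Icc (a := τ - R) (b := τ + R)).mono_set
    Set.Ioc_subset_Icc_self
  have happx : ‖(∫ t in I, G' t) - ∫ t in I, G t‖ ≤ K * (e₁ * (P * N ^ (2 * q - 2))) := by
    rw [← integral_sub hG'I hGint.integrableOn]
    calc ‖∫ t in I, (G' t - G t)‖ ≤ ∫ t in I, ‖G' t - G t‖ := norm_integral_le_integral_norm _
      _ ≤ ∫ t in I, K * (e₁ * (P * N ^ (2 * q - 2))) * gw τ H t := by
          refine setIntegral_mono_on (hG'I.sub hGint.integrableOn).norm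
            (hgwI.const_mul _).integrableOn hImeas fun t ht => ?_
          have e1 : G' t - G t = (VF F c t *
              (AL P N t ^ (q - 2) * (ES P t * (zl t - zX X t))) * (starRingEnd ℂ) (AL P N t ^ q)) *
              (gw τ H t : ℂ) := by
            rw [hG, hG']
            simp only
            rw [hXf, Bf_Dp' q P hP N X hN hX0, hY, Gq_Dp q P N hN]
            unfold VF
            ring
          have hg := gw_nonneg τ H t hH
          rw [e1, norm_mul, norm_mul, norm_mul, norm_mul, norm_mul, RCLike.norm_conj, norm_pow, norm_pow,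
            Complex.norm_real, Real.norm_of_nonneg hg]
          have b1 := happ t ht
          have a1 := VF_norm F c K hK t
          have a3 := AL_norm P N hN t
          have a4 := ES_norm P hP t
          have e2 : N ^ (2 * q - 2) = N ^ (q - 2) * N ^ q := by
            rw [← pow_add]; congr 1; omega
          calc _ ≤ K * (N ^ (q - 2) * (P * e₁)) * N ^ q * gw τ H t := by gcongr
            _ = _ := by rw [e2]; ring
      _ ≤ ∫ t, K * (e₁ * (P * N ^ (2 * q - 2))) * gw τ H t := by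
          refine setIntegral_le_integral (hgwI.const_mul _) (Eventually.of_forall fun t => ?_)
          have := gw_nonneg τ H t hH
          simp only [Pi.zero_apply]
          positivity
      _ = K * (e₁ * (P * N ^ (2 * q - 2))) := by
          rw [integral_const_mul, gw_integral τ H hH, mul_one]
  have hsplit := integral_add_compl hImeas hGint
  have hmain' : ‖(∫ t, G t) - c 0 * ((Dm q P N X : ℝ) : ℂ)‖ ≤ K * (Γ * Uq q N + L * gq H ρ) := by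
    refine hmain.trans ?_
    have hg := gq_nonneg H ρ
    have : Uq q N = ∑ v ∈ Icc 1 ⌊Y⌋₊, dv ((q:ℝ) / 2) v ^ 2 / (v:ℝ) := rfl
    rw [this]
    gcongr
  have e2 : (∫ t in I, G' t) - c 0 * ((Dm q P N X : ℝ) : ℂ) =
      ((∫ t in I, G' t) - ∫ t in I, G t) + ((∫ t, G t) - c 0 * ((Dm q P N X : ℝ) : ℂ)) -
        ∫ t in Iᶜ, G t := by
    rw [← hsplit]; ring
  rw [e2]
  refine (norm_sub_le _ _).trans ?_
  have h5 := norm_add_le ((∫ t in I, G' t) - ∫ t in I, G t) ((∫ t, G t) - c 0 * ((Dm q P N X : ℝ) : ℂ))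
  have e3 : K * (Γ * Uq q N + L * gq H ρ + L * (2 * Real.exp (-(R ^ 2 / (2 * H ^ 2)))) +
      e₁ * (P * N ^ (2 * q - 2))) = K * (Γ * Uq q N + L * gq H ρ) +
      K * (L * (2 * Real.exp (-(R ^ 2 / (2 * H ^ 2))))) + K * (e₁ * (P * N ^ (2 * q - 2))) := by ring
  rw [e3]
  linarith

/-- the weighted mean square of the power of the short polynomial -/
theorem win2 (q : ℕ) (hq : 2 ≤ q) (F : Finset ℝ) (h0 : (0:ℝ) ∈ F) (c : ℝ → ℂ) (K B : ℝ)
    (hK : ∑ x ∈ F, ‖c x‖ ≤ K) (hB : ∀ x ∈ F, |x| ≤ B) (P : ℕ)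
    (N Z ρ τ H Γ L : ℝ) (hN : 1 ≤ N)
    (hρ : 0 ≤ ρ) (hρ1 : ρ ≤ 1) (hH : 0 < H)
    (hZ : N ^ q * Real.exp (B + 1) ≤ Z) (hρ2 : 2 * ρ ≤ 1 / (Z * N ^ q))
    (hΓ0 : 0 ≤ Γ)
    (hΓ : ∀ x ∈ F, x ≠ 0 → ∀ a b : ℕ, 1 ≤ a → 1 ≤ b → a.Coprime b → a.Coprime P → b.Coprime P →
      |x - Real.log a + Real.log b| < ρ →
      dv ((q:ℝ) / 2) a * dv ((q:ℝ) / 2) b * (Real.sqrt a)⁻¹ * (Real.sqrt b)⁻¹ ≤ Γ)
    (hL : l1 (Gq q P N) (N ^ q) * l1 (Gq q P N) (N ^ q) ≤ L) :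
    Integrable (fun t : ℝ => (VF F c t).re * ‖AL P N t‖ ^ (2 * q) * gw τ H t) ∧
    (∫ t : ℝ, (VF F c t).re * ‖AL P N t‖ ^ (2 * q) * gw τ H t) ≤
      (c 0).re * Dd q P N + K * (Γ * Uq q N + L * gq H ρ) := by
  have hqr : (2:ℝ) ≤ q := by exact_mod_cast hq
  have hY1 : 1 ≤ N ^ q := one_le_pow₀ hN
  have hK0 : 0 ≤ K := (sum_nonneg fun _ _ => norm_nonneg _).trans hK
  obtain ⟨hGint, hmain⟩ := mean_F F h0 c K B hK hB (κ := (q:ℝ) / 2) (by linarith) P (Gq q P N) (Gq q P N)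
    (N ^ q) (N ^ q) Z ρ τ H Γ hH hY1 le_rfl hρ hρ1 hZ hρ2 (fun n _ => Gq_le q P N n)
    (fun n => Gq_le q P N n) hΓ0 hΓ
  have e1 : ∀ t : ℝ, ((∑ x ∈ F, c x * ex x t) * Dp (Gq q P N) (N ^ q) (1 / 2 + t * Complex.I) *
      (starRingEnd ℂ) (Dp (Gq q P N) (N ^ q) (1 / 2 + t * Complex.I))) * (gw τ H t : ℂ) =
      VF F c t * ((‖AL P N t‖ ^ (2 * q) * gw τ H t : ℝ) : ℂ) := by
    intro t
    rw [mul_assoc (∑ x ∈ F, c x * ex x t), Complex.mul_conj, Complex.normSq_eq_norm_sq,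
      Gq_Dp q P N hN, norm_pow, ← pow_mul, mul_comm q 2]
    unfold VF
    push_cast
    ring
  simp only [e1] at hGint hmain
  have e2 : ∀ t : ℝ, (VF F c t * ((‖AL P N t‖ ^ (2 * q) * gw τ H t : ℝ) : ℂ)).re =
      (VF F c t).re * ‖AL P N t‖ ^ (2 * q) * gw τ H t := by
    intro t
    rw [Complex.re_mul_ofReal]
    ring
  have hint : Integrable (fun t : ℝ => (VF F c t).re * ‖AL P N t‖ ^ (2 * q) * gw τ H t) := by
    refine hGint.re.congr (Eventually.of_forall fun t => ?_)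
    exact e2 t
  refine ⟨hint, ?_⟩
  have h3 : (∫ t : ℝ, VF F c t * ((‖AL P N t‖ ^ (2 * q) * gw τ H t : ℝ) : ℂ)).re =
      ∫ t : ℝ, (VF F c t).re * ‖AL P N t‖ ^ (2 * q) * gw τ H t := by
    have h4 := integral_re hGint
    have h5 : ∀ z : ℂ, RCLike.re z = z.re := fun z => rfl
    simp only [h5] at h4
    rw [← h4]
    exact integral_congr_ae (Eventually.of_forall e2)
  have h6 : ((∫ t : ℝ, VF F c t * ((‖AL P N t‖ ^ (2 * q) * gw τ H t : ℝ) : ℂ)) -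
      c 0 * ((Dd q P N : ℝ) : ℂ)).re ≤ K * (Γ * Uq q N + L * gq H ρ) := by
    refine (Complex.re_le_norm _).trans (hmain.trans ?_)
    have hg := gq_nonneg H ρ
    have : Uq q N = ∑ v ∈ Icc 1 ⌊N ^ q⌋₊, dv ((q:ℝ) / 2) v ^ 2 / (v:ℝ) := rfl
    rw [this]
    gcongr
  rw [Complex.sub_re, h3, Complex.re_mul_ofReal] at h6
  linarith

/-- the pointwise inequality -/
lemma point (q : ℕ) (hq : 2 ≤ q) {x u : ℝ} (hx : 0 ≤ x) (hu : 0 ≤ u) :
    x * u ^ (q - 1) ≤ 1 / 2 * u ^ q + 2 ^ (q - 1) * x ^ q := by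
  have e : q = (q - 1) + 1 := by omega
  rcases le_or_gt x (1 / 2 * u) with h | h
  · have h1 : x * u ^ (q - 1) ≤ 1 / 2 * u ^ q := by
      calc x * u ^ (q - 1) ≤ (1 / 2 * u) * u ^ (q - 1) := by gcongr
        _ = 1 / 2 * u ^ q := by
            conv_rhs => rw [e, pow_succ]
            ring
    have h2 : 0 ≤ 2 ^ (q - 1) * x ^ q := by positivity
    linarith
  · have h3 : u ≤ 2 * x := by linarith
    have h1 : x * u ^ (q - 1) ≤ 2 ^ (q - 1) * x ^ q := by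
      calc x * u ^ (q - 1) ≤ x * (2 * x) ^ (q - 1) := by gcongr
        _ = 2 ^ (q - 1) * x ^ q := by
            conv_rhs => rw [e, pow_succ]
            rw [mul_pow, show q - 1 + 1 - 1 = q - 1 by omega]
            ring
    have h2 : 0 ≤ 1 / 2 * u ^ q := by positivity
    linarith

end

end Pool.Agent.W5h32.KS
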