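import Pool.Agent.W5h32.KS.B

set_option autoImplicit false

/-! The core inequality in one Gaussian window. -/

namespace Pool.Agent.W5h32.KS

open Finset MeasureTheory Filter Topology
open Pool.Agent.H306R2 Pool.Agent.R311.BS

noncomputable section

theorem core (q : ℕ) (hq : 2 ≤ q) (F : Finset ℝ) (h0 : (0:ℝ) ∈ F) (c : ℝ → ℂ) (K B : ℝ)
    (hK : ∑ x ∈ F, ‖c x‖ ≤ K) (hB : ∀ x ∈ F, |x| ≤ B) (P : ℕ) (hP : 1 ≤ P)
    (N X Z ρ τ H R Γ e₁ L ε : ℝ) (hN : 1 ≤ N) (hNX : N ^ q ≤ X) (hZX : Z ≤ X)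
    (hρ : 0 ≤ ρ) (hρ1 : ρ ≤ 1) (hH : 0 < H) (hR : 0 ≤ R) (he₁ : 0 ≤ e₁)
    (hZ : N ^ q * Real.exp (B + 1) ≤ Z) (hρ2 : 2 * ρ ≤ 1 / (Z * N ^ q))
    (hΓ0 : 0 ≤ Γ)
    (hΓ : ∀ x ∈ F, x ≠ 0 → ∀ a b : ℕ, 1 ≤ a → 1 ≤ b → a.Coprime b → a.Coprime P → b.Coprime P →
      |x - Real.log a + Real.log b| < ρ →
      dv ((q:ℝ) / 2) a * dv ((q:ℝ) / 2) b * (Real.sqrt a)⁻¹ * (Real.sqrt b)⁻¹ ≤ Γ)
    (hL : l1 (Bf q P N X) (N ^ (q - 2) * (P * X)) * l1 (Gq q P N) (N ^ q) ≤ L)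
    (hL' : l1 (Gq q P N) (N ^ q) * l1 (Gq q P N) (N ^ q) ≤ L)
    (happ : ∀ t ∈ Set.Ioc (τ - R) (τ + R), ‖zl t - zX X t‖ ≤ e₁)
    (w zs : ℝ → ℝ) (hwc : Continuous w) (hw0 : ∀ t, 0 ≤ w t) (hzc : Continuous zs) (hz0 : ∀ t, 0 ≤ zs t)
    (hz1 : ∀ t, ‖ES P t‖ * zs t = 1) (hε : 0 ≤ ε)
    (hV : ∀ t, ‖((w t * zs t ^ q : ℝ) : ℂ) - VF F c t‖ ≤ ε) (hc0 : 0 ≤ (c 0).re) :
    1 / 2 * (c 0).re * Dd q P N ≤
      2 ^ (q - 1) * (∫ t in Set.Ioc (τ - R) (τ + R), w t * ‖zl t‖ ^ q * gw τ H t) +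
      ε * P * (∫ t in Set.Ioc (τ - R) (τ + R), ‖zl t‖ * ‖AL P N t‖ ^ (2 * q - 2) * gw τ H t) +
      (1 / 2 * (K * (Γ * Uq q N + L * gq H ρ) + ε * (Uq q N + L * gq H ρ)) +
      K * (Γ * Uq q N + L * gq H ρ + L * (2 * Real.exp (-(R ^ 2 / (2 * H ^ 2)))) +
      e₁ * (P * N ^ (2 * q - 2)))) := by
  have h1 := win1 q hq F h0 c K B hK hB P hP N X Z ρ τ H R Γ e₁ L hN hNX hZX hρ hρ1 hH hR he₁ hZ hρ2 hΓ0 hΓ
    hL happ
  obtain ⟨h2i, h2⟩ := win2 q hq F h0 c K B hK hB P N Z ρ τ H Γ L hN hρ hρ1 hH hZ hρ2 hΓ0 hΓ hL'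
  have hB0 : 0 ≤ B := by
    have := hB 0 h0
    simpa using this
  obtain ⟨h3i, h3⟩ := win2 q hq {0} (mem_singleton_self _) (fun _ => (1:ℂ)) 1 B (by simp)
    (fun x hx => by rw [mem_singleton] at hx; rw [hx]; simpa using hB0) P N Z ρ τ H 0 L hN hρ hρ1 hH hZ hρ2
    le_rfl (fun x hx hx0 => by rw [mem_singleton] at hx; exact absurd hx hx0) hL'
  have e0 : ∀ t : ℝ, (VF {0} (fun _ => (1:ℂ)) t).re = 1 := by
    intro t
    unfold VF ex
    simp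
  simp only [e0, one_mul] at h3i h3
  rw [Complex.one_re, one_mul, zero_mul, zero_add] at h3
  obtain ⟨E1, hE1⟩ : ∃ E1 : ℝ, E1 = K * (Γ * Uq q N + L * gq H ρ +
      L * (2 * Real.exp (-(R ^ 2 / (2 * H ^ 2)))) + e₁ * (P * N ^ (2 * q - 2))) := ⟨_, rfl⟩
  rw [← hE1] at h1 ⊢
  set I := Set.Ioc (τ - R) (τ + R) with hI
  have hImeas : MeasurableSet I := measurableSet_Ioc
  set J := ∫ t in I, (VF F c t * (AL P N t ^ (q - 2) * (ES P t * zl t)) *
    (starRingEnd ℂ) (AL P N t ^ q)) * (gw τ H t : ℂ) with hJ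
  have hDm := Dd_le_Dm q P hq N X hNX
  have hJ1 : (c 0).re * Dm q P N X - E1 ≤ ‖J‖ := by
    have a1 := norm_sub_norm_le (c 0 * ((Dm q P N X : ℝ) : ℂ)) J
    rw [norm_sub_rev] at a1
    have a2 : (c 0).re * Dm q P N X ≤ ‖c 0 * ((Dm q P N X : ℝ) : ℂ)‖ := by
      have := Complex.re_le_norm (c 0 * ((Dm q P N X : ℝ) : ℂ))
      rwa [Complex.re_mul_ofReal] at this
    linarith
  have c1 := (AL_cont P N).norm
  have c2 := ES_cont P
  have c4 := zl_cont.norm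
  have c6 : Continuous fun t => (VF F c t).re := Complex.continuous_re.comp (VF_cont F c)
  have c7 : Continuous fun t : ℝ => gw τ H t := gw_continuous τ H
  have hcI : ∀ G : ℝ → ℝ, Continuous G → IntegrableOn G I := fun G hG =>
    (hG.integrableOn_Icc (a := τ - R) (b := τ + R)).mono_set Set.Ioc_subset_Icc_self
  set G1 : ℝ → ℝ := fun t => (VF F c t).re * ‖AL P N t‖ ^ (2 * q) * gw τ H t with hG1
  set G2 : ℝ → ℝ := fun t => ‖AL P N t‖ ^ (2 * q) * gw τ H t with hG2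
  set G3 : ℝ → ℝ := fun t => w t * ‖zl t‖ ^ q * gw τ H t with hG3
  set G4 : ℝ → ℝ := fun t => ‖zl t‖ * ‖AL P N t‖ ^ (2 * q - 2) * gw τ H t with hG4
  have cG1 : Continuous G1 := by rw [hG1]; fun_prop
  have cG2 : Continuous G2 := by rw [hG2]; fun_prop
  have cG3 : Continuous G3 := by rw [hG3]; fun_prop
  have cG4 : Continuous G4 := by rw [hG4]; fun_prop
  have i1 := hcI G1 cG1
  have i2 := hcI G2 cG2
  have i3 := hcI G3 cG3
  have i4 := hcI G4 cG4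
  have i12 : IntegrableOn (fun t => 1 / 2 * (G1 t + ε * G2 t)) I := (i1.add (i2.const_mul ε)).const_mul _
  have i34 : IntegrableOn (fun t => 2 ^ (q - 1) * G3 t + ε * P * G4 t) I :=
    (i3.const_mul _).add (i4.const_mul _)
  have hJ2 : ‖J‖ ≤ ∫ t in I, (1 / 2 * (G1 t + ε * G2 t) + (2 ^ (q - 1) * G3 t + ε * P * G4 t)) := by
    rw [hJ]
    refine (norm_integral_le_integral_norm _).trans ?_
    have cn : Continuous fun t : ℝ => ‖(VF F c t * (AL P N t ^ (q - 2) * (ES P t * zl t)) *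
        (starRingEnd ℂ) (AL P N t ^ q)) * (gw τ H t : ℂ)‖ := by
      have d1 := AL_cont P N
      have d2 := zl_cont
      have d3 : Continuous fun t : ℝ => (starRingEnd ℂ) (AL P N t ^ q) :=
        Complex.continuous_conj.comp (d1.pow q)
      have d4 := VF_cont F c
      have d5 : Continuous fun t : ℝ => (gw τ H t : ℂ) := Complex.continuous_ofReal.comp (gw_continuous τ H)
      fun_prop
    refine setIntegral_mono_on (hcI _ cn) (i12.add i34) hImeas fun t ht => ?_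
    have hg := gw_nonneg τ H t hH
    have hz : 0 ≤ ‖zl t‖ := norm_nonneg _
    have ha : 0 ≤ ‖AL P N t‖ := norm_nonneg _
    have hes := ES_norm P hP t
    have hw := hw0 t
    have hzs := hz0 t
    have hVt := hV t
    have hv1 : ‖VF F c t‖ ≤ w t * zs t ^ q + ε := by
      have b1 := norm_sub_norm_le (VF F c t) ((w t * zs t ^ q : ℝ) : ℂ)
      rw [norm_sub_rev, Complex.norm_real, Real.norm_of_nonneg (by positivity)] at b1
      linarith
    have hv2 : w t * zs t ^ q ≤ (VF F c t).re + ε := by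
      have b1 := (Complex.abs_re_le_norm (((w t * zs t ^ q : ℝ) : ℂ) - VF F c t)).trans hVt
      rw [Complex.sub_re, Complex.ofReal_re] at b1
      have := (abs_le.mp b1).2
      linarith
    have eA : ‖AL P N t‖ ^ (2 * q - 2) = (‖AL P N t‖ ^ 2) ^ (q - 1) := by
      rw [← pow_mul]; congr 1; omega
    have eB : ‖AL P N t‖ ^ (q - 2) * ‖AL P N t‖ ^ q = ‖AL P N t‖ ^ (2 * q - 2) := by
      rw [← pow_add]; congr 1; omega
    rw [norm_mul, norm_mul, norm_mul, norm_mul, norm_mul, RCLike.norm_conj, norm_pow, norm_pow,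
      Complex.norm_real, Real.norm_of_nonneg hg]
    have s1 : ‖VF F c t‖ * (‖AL P N t‖ ^ (q - 2) * (‖ES P t‖ * ‖zl t‖)) * ‖AL P N t‖ ^ q * gw τ H t ≤
        (w t * zs t ^ q + ε) * (‖AL P N t‖ ^ (2 * q - 2) * (‖ES P t‖ * ‖zl t‖)) * gw τ H t := by
      rw [← eB]
      calc _ = ‖VF F c t‖ * (‖AL P N t‖ ^ (q - 2) * ‖AL P N t‖ ^ q * (‖ES P t‖ * ‖zl t‖)) * gw τ H t := by
            ring
        _ ≤ _ := by gcongr
    refine s1.trans ?_
    -- the two parts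
    have s2 : w t * zs t ^ q * (‖AL P N t‖ ^ (2 * q - 2) * (‖ES P t‖ * ‖zl t‖)) ≤
        1 / 2 * (((VF F c t).re + ε) * ‖AL P N t‖ ^ (2 * q)) + 2 ^ (q - 1) * (w t * ‖zl t‖ ^ q) := by
      have b1 : w t * zs t ^ q * (‖AL P N t‖ ^ (2 * q - 2) * (‖ES P t‖ * ‖zl t‖)) =
          w t * (‖zl t‖ * (‖AL P N t‖ ^ 2 * zs t) ^ (q - 1)) := by
        have e5 : zs t ^ q = zs t ^ (q - 1) * zs t := by
          rw [← pow_succ]; congr 1; omega
        rw [e5, eA, mul_pow]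
        calc _ = w t * (‖zl t‖ * ((‖AL P N t‖ ^ 2) ^ (q - 1) * zs t ^ (q - 1))) * (‖ES P t‖ * zs t) := by ring
          _ = _ := by rw [hz1 t, mul_one]
      rw [b1]
      have b2 := point q hq (x := ‖zl t‖) (u := ‖AL P N t‖ ^ 2 * zs t) hz (by positivity)
      have b3 : (‖AL P N t‖ ^ 2 * zs t) ^ q = zs t ^ q * ‖AL P N t‖ ^ (2 * q) := by
        rw [mul_pow, ← pow_mul]; ring
      rw [b3] at b2
      have b4 := mul_le_mul_of_nonneg_left b2 hw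
      have b5 : w t * zs t ^ q * ‖AL P N t‖ ^ (2 * q) ≤ ((VF F c t).re + ε) * ‖AL P N t‖ ^ (2 * q) := by
        gcongr
      calc _ ≤ w t * (1 / 2 * (zs t ^ q * ‖AL P N t‖ ^ (2 * q)) + 2 ^ (q - 1) * ‖zl t‖ ^ q) := b4
        _ = 1 / 2 * (w t * zs t ^ q * ‖AL P N t‖ ^ (2 * q)) + 2 ^ (q - 1) * (w t * ‖zl t‖ ^ q) := by ring
        _ ≤ _ := by linarith
    have s3 : ε * (‖AL P N t‖ ^ (2 * q - 2) * (‖ES P t‖ * ‖zl t‖)) ≤
        ε * P * (‖zl t‖ * ‖AL P N t‖ ^ (2 * q - 2)) := by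
      calc _ ≤ ε * (‖AL P N t‖ ^ (2 * q - 2) * (P * ‖zl t‖)) := by gcongr
        _ = _ := by ring
    have s4 := mul_le_mul_of_nonneg_right (add_le_add s2 s3) hg
    calc _ = (w t * zs t ^ q * (‖AL P N t‖ ^ (2 * q - 2) * (‖ES P t‖ * ‖zl t‖)) +
          ε * (‖AL P N t‖ ^ (2 * q - 2) * (‖ES P t‖ * ‖zl t‖))) * gw τ H t := by ring
      _ ≤ _ := s4
      _ = _ := by
          rw [hG1, hG2, hG3, hG4]
          simp only
          ring
  rw [integral_add i12 i34, integral_const_mul, integral_add (i3.const_mul _) (i4.const_mul _),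
    integral_const_mul, integral_const_mul] at hJ2
  have hfull : ∫ t in I, (G1 t + ε * G2 t) ≤ ∫ t, (G1 t + ε * G2 t) := by
    refine setIntegral_le_integral (h2i.add (h3i.const_mul ε)) (Eventually.of_forall fun t => ?_)
    have hg := gw_nonneg τ H t hH
    have hw := hw0 t
    have hzs := hz0 t
    have hVt := hV t
    have hv2 : w t * zs t ^ q ≤ (VF F c t).re + ε := by
      have b1 := (Complex.abs_re_le_norm (((w t * zs t ^ q : ℝ) : ℂ) - VF F c t)).trans hVt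
      rw [Complex.sub_re, Complex.ofReal_re] at b1
      have := (abs_le.mp b1).2
      linarith
    have hv3 : 0 ≤ (VF F c t).re + ε := le_trans (by positivity) hv2
    simp only [Pi.zero_apply]
    have : G1 t + ε * G2 t = ((VF F c t).re + ε) * (‖AL P N t‖ ^ (2 * q) * gw τ H t) := by
      rw [hG1, hG2]; ring
    rw [this]
    positivity
  have hfull2 : ∫ t, (G1 t + ε * G2 t) = (∫ t, G1 t) + ε * ∫ t, G2 t := by
    rw [integral_add h2i (h3i.const_mul ε), integral_const_mul]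
  have hDd := Dd_le q P N
  have hDd0 := Dd_nonneg q P N
  have h3' : ∫ t, G2 t ≤ Uq q N + L * gq H ρ := by
    refine h3.trans ?_
    linarith
  have h4 : ε * ∫ t, G2 t ≤ ε * (Uq q N + L * gq H ρ) := mul_le_mul_of_nonneg_left h3' hε
  have h5 : (c 0).re * Dd q P N ≤ (c 0).re * Dm q P N X := mul_le_mul_of_nonneg_left hDm hc0
  linarith

end

end Pool.Agent.W5h32.KS
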