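import Pool.Agent.W5h32.KS.C

set_option autoImplicit false

/-! Sums with least common multiples. -/

namespace Pool.Agent.W5h32.KS

open Finset MeasureTheory Filter Topology
open Pool.Agent.H306R2 Pool.Agent.R311.BS

noncomputable section

/-- the sum with least common multiples is controlled by a diagonal sum -/
theorem lcm_sum (b : ArithmeticFunction ℝ) (hb : ∀ n, 0 ≤ b n) (M J : ℕ) (d : ℕ → ℝ)
    (hd : ∀ n : ℕ, (b * cA 1 ((M * J : ℕ) : ℝ) 1) n ≤ d n) :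
    (∑ h ∈ Icc 1 M, ∑ l ∈ Icc 1 M, b h * b l * (1 / (Nat.lcm h l : ℝ))) * (∑ j ∈ Icc 1 J, 1 / (j:ℝ)) ≤
      ∑ n ∈ Icc 1 (M * M * J), d n ^ 2 / n := by
  classical
  set β : ℕ → ℕ → ℝ := fun n h => if h ∣ n ∧ n / h ≤ M * J then b h else 0 with hβ
  have hβ0 : ∀ n h, 0 ≤ β n h := by
    intro n h
    rw [hβ]
    simp only
    split_ifs
    · exact hb h
    · exact le_refl _
  have h1 : ∀ n : ℕ, 1 ≤ n → ∑ h ∈ Icc 1 M, β n h ≤ d n := by
    intro n hn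
    refine le_trans ?_ (hd n)
    rw [ArithmeticFunction.mul_apply,
      Nat.sum_divisorsAntidiagonal (fun x y => b x * cA 1 ((M * J : ℕ) : ℝ) 1 y)]
    have e1 : ∑ h ∈ Icc 1 M, β n h = ∑ h ∈ (Icc 1 M).filter (fun h => h ∣ n ∧ n / h ≤ M * J), b h := by
      rw [hβ, sum_filter]
    rw [e1]
    have e2 : ∑ h ∈ (Icc 1 M).filter (fun h => h ∣ n ∧ n / h ≤ M * J), b h =
        ∑ h ∈ (Icc 1 M).filter (fun h => h ∣ n ∧ n / h ≤ M * J), b h * cA 1 ((M * J : ℕ) : ℝ) 1 (n / h) := by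
      refine sum_congr rfl fun h hh => ?_
      rw [mem_filter, mem_Icc] at hh
      have h3 : 1 ≤ n / h := Nat.div_pos (Nat.le_of_dvd hn hh.2.1) (by omega)
      rw [cA_one_apply h3 (by exact_mod_cast hh.2.2), mul_one]
    rw [e2]
    refine sum_le_sum_of_subset_of_nonneg ?_ fun h _ _ => mul_nonneg (hb h) (cA_nonneg 1 _ zero_le_one _)
    intro h hh
    rw [mem_filter, mem_Icc] at hh
    rw [Nat.mem_divisors]
    exact ⟨hh.2.1, by omega⟩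
  have h2 : ∀ n ∈ Icc 1 (M * M * J), ∑ h ∈ Icc 1 M, ∑ l ∈ Icc 1 M, β n h * β n l / n ≤ d n ^ 2 / n := by
    intro n hn
    rw [mem_Icc] at hn
    have e1 : ∑ h ∈ Icc 1 M, ∑ l ∈ Icc 1 M, β n h * β n l / n = (∑ h ∈ Icc 1 M, β n h) ^ 2 / n := by
      rw [sq, sum_mul_sum, sum_div]
      refine sum_congr rfl fun h _ => ?_
      rw [sum_div]
    rw [e1]
    have h3 := h1 n hn.1
    have h4 : 0 ≤ ∑ h ∈ Icc 1 M, β n h := sum_nonneg fun h _ => hβ0 n h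
    gcongr
  refine le_trans ?_ (sum_le_sum h2)
  have e3 : ∑ n ∈ Icc 1 (M * M * J), ∑ h ∈ Icc 1 M, ∑ l ∈ Icc 1 M, β n h * β n l / (n:ℝ) =
      ∑ h ∈ Icc 1 M, ∑ l ∈ Icc 1 M, ∑ n ∈ Icc 1 (M * M * J), β n h * β n l / (n:ℝ) := by
    rw [sum_comm]
    exact sum_congr rfl fun h _ => sum_comm
  rw [e3, sum_mul]
  refine sum_le_sum fun h hh => ?_
  rw [sum_mul]
  refine sum_le_sum fun l hl => ?_
  rw [mem_Icc] at hh hl
  have hlcm : 0 < Nat.lcm h l := Nat.lcm_pos (by omega) (by omega)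
  have hlr : (0:ℝ) < Nat.lcm h l := by exact_mod_cast hlcm
  have hle : Nat.lcm h l ≤ h * l := Nat.le_of_dvd (Nat.mul_pos (by omega) (by omega)) (Nat.lcm_dvd_mul h l)
  have hinj : Set.InjOn (fun j : ℕ => Nat.lcm h l * j) (Icc 1 J : Set ℕ) := by
    intro a _ b _ hab
    exact Nat.eq_of_mul_eq_mul_left hlcm hab
  have e4 : b h * b l * (1 / (Nat.lcm h l : ℝ)) * (∑ j ∈ Icc 1 J, 1 / (j:ℝ)) =
      ∑ n ∈ (Icc 1 J).image (fun j : ℕ => Nat.lcm h l * j), β n h * β n l / (n:ℝ) := by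
    rw [sum_image hinj, mul_sum]
    refine sum_congr rfl fun j hj => ?_
    rw [mem_Icc] at hj
    have g1 : h ∣ Nat.lcm h l * j := (Nat.dvd_lcm_left h l).mul_right j
    have g2 : l ∣ Nat.lcm h l * j := (Nat.dvd_lcm_right h l).mul_right j
    have g3 : Nat.lcm h l * j / h ≤ M * J := by
      apply Nat.div_le_of_le_mul
      calc Nat.lcm h l * j ≤ h * l * j := Nat.mul_le_mul_right _ hle
        _ = h * (l * j) := by ring
        _ ≤ h * (M * J) := Nat.mul_le_mul_left _ (Nat.mul_le_mul hl.2 hj.2)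
    have g4 : Nat.lcm h l * j / l ≤ M * J := by
      apply Nat.div_le_of_le_mul
      calc Nat.lcm h l * j ≤ h * l * j := Nat.mul_le_mul_right _ hle
        _ = l * (h * j) := by ring
        _ ≤ l * (M * J) := Nat.mul_le_mul_left _ (Nat.mul_le_mul hh.2 hj.2)
    have hj0 : (0:ℝ) < j := by exact_mod_cast hj.1
    rw [hβ]
    simp only
    rw [if_pos ⟨g1, g3⟩, if_pos ⟨g2, g4⟩]
    push_cast
    field_simp
  rw [e4]
  refine sum_le_sum_of_subset_of_nonneg ?_ fun n _ _ => ?_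
  · intro n hn
    rw [mem_image] at hn
    obtain ⟨j, hj, rfl⟩ := hn
    rw [mem_Icc] at hj ⊢
    refine ⟨Nat.mul_pos hlcm (by omega), ?_⟩
    calc Nat.lcm h l * j ≤ h * l * j := Nat.mul_le_mul_right _ hle
      _ ≤ M * M * J := Nat.mul_le_mul (Nat.mul_le_mul hh.2 hl.2) hj.2
  · have := hβ0 n h
    have := hβ0 n l
    positivity

lemma conv_le (q P : ℕ) (hq : 2 ≤ q) (N X : ℝ) (n : ℕ) :
    (cA P N (1 / 2) ^ (q - 2) * cA 1 X 1) n ≤ dv ((q:ℝ) / 2) n := by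
  have h1 := mul_mono_le n (f := cA P N (1 / 2) ^ (q - 2)) (f' := xA 1 (((q - 2 : ℕ) : ℝ) * (1 / 2)))
    (g := cA 1 X 1) (g' := xA 1 1)
    (fun m _ => by
      have h2 := cA_pow_le P N (α := 1 / 2) (by norm_num) (q - 2) m
      refine ⟨h2.1, h2.2.trans ((xA_le P (by positivity) m).trans (le_of_eq ?_))⟩
      rw [xA_apply, if_pos (Nat.coprime_one_right m)])
    (fun m _ => ⟨cA_nonneg 1 X zero_le_one m, cA_le 1 X zero_le_one m⟩) n le_rfl
  rw [xA_mul] at h1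
  have e : ((q - 2 : ℕ) : ℝ) * (1 / 2) + 1 = (q:ℝ) / 2 := by
    rw [Nat.cast_sub hq]; push_cast; ring
  rw [e] at h1
  exact h1.2.trans (xA_le 1 (by positivity) n)

/-- the bound of the sums with least common multiples -/
theorem lcm_bound (q : ℕ) (hq : 2 ≤ q) : ∃ C : ℝ, 0 < C ∧ ∀ᶠ T : ℝ in atTop, ∀ (P : ℕ) (N : ℝ),
    1 ≤ N → N ^ (q - 2) ≤ T →
    (∑ h ∈ Icc 1 ⌊N ^ (q - 2)⌋₊, ∑ l ∈ Icc 1 ⌊N ^ (q - 2)⌋₊,
      (cA P N (1 / 2) ^ (q - 2)) h * (cA P N (1 / 2) ^ (q - 2)) l * (1 / (Nat.lcm h l : ℝ))) *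
      Real.log T ≤ C * Real.log T ^ ((q:ℝ) ^ 2 / 4) := by
  have hqr : (2:ℝ) ≤ q := by exact_mod_cast hq
  obtain ⟨C, hC, h⟩ := U_upper (κ := (q:ℝ) / 2) (by linarith)
  refine ⟨C * 3 ^ ((q:ℝ) ^ 2 / 4), by positivity, ?_⟩
  have h3 : Tendsto (fun T : ℝ => 3 * Real.log T) atTop atTop :=
    Real.tendsto_log_atTop.const_mul_atTop (by norm_num)
  filter_upwards [h3.eventually h, eventually_ge_atTop 1] with T hT hT1 P N hN hNT
  have hT0 : 0 < T := by linarith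
  have hlog : 0 ≤ Real.log T := Real.log_nonneg hT1
  set M := ⌊N ^ (q - 2)⌋₊ with hM
  set J := ⌊T⌋₊ with hJ
  have hMT : (M:ℝ) ≤ T := (Nat.floor_le (by positivity)).trans hNT
  have hJT : (J:ℝ) ≤ T := Nat.floor_le hT0.le
  have hb0 : ∀ n, 0 ≤ (cA P N (1 / 2) ^ (q - 2)) n := fun n =>
    (cA_pow_le P N (α := 1 / 2) (by norm_num) (q - 2) n).1
  have h1 := lcm_sum (cA P N (1 / 2) ^ (q - 2)) hb0 M J (fun n => dv ((q:ℝ) / 2) n)
    (fun n => conv_le q P hq N _ n)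
  have h2 : Real.log T ≤ ∑ j ∈ Icc 1 J, 1 / (j:ℝ) := by
    have h4 := log_add_one_le_harmonic J
    rw [harmonic_eq_sum_Icc] at h4
    push_cast at h4
    simp only [one_div]
    refine le_trans (Real.log_le_log hT0 ?_) h4
    exact (Nat.lt_floor_add_one T).le
  have hS0 : 0 ≤ ∑ h ∈ Icc 1 M, ∑ l ∈ Icc 1 M,
      (cA P N (1 / 2) ^ (q - 2)) h * (cA P N (1 / 2) ^ (q - 2)) l * (1 / (Nat.lcm h l : ℝ)) :=
    sum_nonneg fun h _ => sum_nonneg fun l _ => by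
      have := hb0 h
      have := hb0 l
      positivity
  have h5 : ∑ n ∈ Icc 1 (M * M * J), dv ((q:ℝ) / 2) n ^ 2 / (n:ℝ) ≤
      ∑ v ∈ Icc 1 ⌊Real.exp (3 * Real.log T)⌋₊, dv ((q:ℝ) / 2) v ^ 2 / (v:ℝ) := by
    refine sum_le_sum_of_subset_of_nonneg (Icc_subset_Icc_right ?_) fun n _ _ => by positivity
    apply Nat.le_floor
    push_cast
    have e1 : Real.exp (3 * Real.log T) = T * T * T := by
      rw [show 3 * Real.log T = Real.log T + Real.log T + Real.log T by ring, Real.exp_add, Real.exp_add,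
        Real.exp_log hT0]
    rw [e1]
    gcongr
  calc _ ≤ (∑ h ∈ Icc 1 M, ∑ l ∈ Icc 1 M,
      (cA P N (1 / 2) ^ (q - 2)) h * (cA P N (1 / 2) ^ (q - 2)) l * (1 / (Nat.lcm h l : ℝ))) *
        ∑ j ∈ Icc 1 J, 1 / (j:ℝ) := mul_le_mul_of_nonneg_left h2 hS0
    _ ≤ _ := h1.trans (h5.trans hT)
    _ = C * 3 ^ ((q:ℝ) ^ 2 / 4) * Real.log T ^ ((q:ℝ) ^ 2 / 4) := by
        rw [show ((q:ℝ) / 2) ^ 2 = (q:ℝ) ^ 2 / 4 by ring, Real.mul_rpow (by norm_num) hlog]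
        ring

end

end Pool.Agent.W5h32.KS
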