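import Pool.Agent.W5h32.KS.D
import Pool.Agent.Y412.OM.TW

set_option autoImplicit false

/-! The mean square of zeta times a power of the short polynomial. The twisted second moment of the library
(`Pool.Agent.H262R4.TM`, `Pool.Agent.Y412.OM`, `Pool.Agent.W184.NZ`) is used. -/

namespace Pool.Agent.W5h32.KS

open Finset MeasureTheory Filter Topology
open Pool.Agent.H306R2 Pool.Agent.R311.BS
open Pool.Agent.H306R2.SM (cl)
open Pool.Agent.Y412.OM (DL DL_cont DL_norm smooth)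
open Pool.Agent.W184.NZ (win)

noncomputable section

theorem mean_B (q : ℕ) (hq : 2 ≤ q) : ∃ ν₀ : ℝ, 0 < ν₀ ∧ ∃ C : ℝ, 0 < C ∧ ∀ ν : ℝ, 0 < ν → ν ≤ ν₀ →
    ∀ᶠ T : ℝ in atTop, ∀ P : ℕ,
      ∫ t in T..(2 * T), ‖zl t‖ ^ 2 * ‖AL P (T ^ ν) t‖ ^ (2 * q - 4) ≤
        C * T * Real.log T ^ ((q:ℝ) ^ 2 / 4) := by
  obtain ⟨η, hη, hsm⟩ := smooth
  obtain ⟨X0, hX0⟩ := hsm.exists_forall_of_atTop
  obtain ⟨C, hC, hlcm⟩ := lcm_bound q hq
  have hqr : (2:ℝ) ≤ q := by exact_mod_cast hq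
  have hq0 : (0:ℝ) < q := by linarith
  refine ⟨min (1 / (8 * q)) (η / (8 * q ^ 2)), lt_min (by positivity) (by positivity),
    32 * (4 * C + 4), by positivity, fun ν hν hν1 => ?_⟩
  have hνa : ν ≤ 1 / (8 * q) := hν1.trans (min_le_left _ _)
  have hνb : ν ≤ η / (8 * q ^ 2) := hν1.trans (min_le_right _ _)
  rw [le_div_iff₀ (by positivity)] at hνa hνb
  have ev1 : ∀ᶠ T : ℝ in atTop, 100 ≤ Real.log T :=
    Real.tendsto_log_atTop.eventually (eventually_ge_atTop 100)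
  filter_upwards [hlcm, ev1, eventually_ge_atTop (2 * X0), eventually_ge_atTop 4] with T h1 hL hTX hT4 P
  have hT0 : 0 < T := by linarith
  have hT1 : 1 ≤ T := by linarith
  obtain ⟨N, hN⟩ : ∃ N : ℝ, N = T ^ ν := ⟨_, rfl⟩
  rw [← hN]
  have hN1 : 1 ≤ N := by rw [hN]; exact Real.one_le_rpow hT1 hν.le
  have hq2 : ((q - 2 : ℕ) : ℝ) ≤ q := by
    rw [Nat.cast_sub hq]; push_cast; linarith
  have hNq : N ^ (q - 2) ≤ T ^ (1 / 8 : ℝ) := by
    rw [hN, ← Real.rpow_natCast, ← Real.rpow_mul hT0.le]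
    refine Real.rpow_le_rpow_of_exponent_le hT1 ?_
    nlinarith
  have hT8 : T ^ (1 / 8 : ℝ) ≤ T := by
    calc T ^ (1 / 8 : ℝ) ≤ T ^ (1 : ℝ) := Real.rpow_le_rpow_of_exponent_le hT1 (by norm_num)
      _ = T := Real.rpow_one T
  have hl := h1 P N hN1 (hNq.trans hT8)
  set b := cA P N (1 / 2) ^ (q - 2) with hb
  set H := ⌊N ^ (q - 2)⌋₊ with hH
  have hb0 : ∀ n, 0 ≤ b n := fun n => (cA_pow_le P N (α := 1 / 2) (by norm_num) (q - 2) n).1
  set A : ℕ → ℂ := fun n => ((b n : ℝ) : ℂ) with hA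
  have hAn : ∀ n, ‖A n‖ = b n := fun n => by
    rw [hA]; simp only
    rw [Complex.norm_real, Real.norm_of_nonneg (hb0 n)]
  have hNpos : (1:ℝ) ≤ N ^ (q - 2) := one_le_pow₀ hN1
  obtain ⟨M, hM⟩ : ∃ M : ℝ, M = (N ^ (q - 2)) ^ (q - 2) := ⟨_, rfl⟩
  have hM0 : 0 ≤ M := by rw [hM]; positivity
  have hsupp := (Dp_pow (cA P N (1 / 2)) N hN1 (cA_supp P N (1 / 2)) (1 / 2 + (0:ℝ) * Complex.I) (q - 2)).1
  have hPB := (PB_cA_one P N (α := 1 / 2) (by norm_num) (by norm_num)).pow (q - 2)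
  have hAM : ∀ n, ‖A n‖ ≤ M := by
    intro n
    rw [hAn]
    by_cases hn : (n:ℝ) ≤ N ^ (q - 2)
    · have h2 := hPB n
      rw [zero_add, mul_one, abs_of_nonneg (hb0 n)] at h2
      refine h2.trans ?_
      rw [hM]
      exact pow_le_pow_left₀ (Nat.cast_nonneg n) hn _
    · rw [hb, hsupp n (not_le.mp hn)]
      exact hM0
  have hDL : ∀ t : ℝ, ‖DL A H t‖ = ‖AL P N t‖ ^ (q - 2) := by
    intro t
    have h2 := (Dp_pow (cA P N (1 / 2)) N hN1 (cA_supp P N (1 / 2)) (1 / 2 + t * Complex.I) (q - 2)).2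
    rw [← norm_pow]
    unfold AL
    rw [← h2]
    rfl
  obtain ⟨k, hk⟩ : ∃ k : ℕ, k = ⌈2 * Real.log T ^ 2⌉₊ := ⟨_, rfl⟩
  have hk1 : 2 * Real.log T ^ 2 ≤ k := by rw [hk]; exact Nat.le_ceil _
  have hk2 : (k : ℝ) ≤ 2 * Real.log T ^ 2 + 1 := by
    rw [hk]; exact (Nat.ceil_lt_add_one (by positivity)).le
  have hk8 : 8 ≤ k := by
    have : (8 : ℝ) ≤ k := by nlinarith
    exact_mod_cast this
  obtain ⟨S, hS⟩ : ∃ S : ℝ, S = (4 * C + 4) * Real.log T ^ ((q:ℝ) ^ 2 / 4) := ⟨_, rfl⟩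
  have hLp : Real.log T ≤ Real.log T ^ ((q:ℝ) ^ 2 / 4) := by
    calc Real.log T = Real.log T ^ (1:ℝ) := (Real.rpow_one _).symm
      _ ≤ _ := Real.rpow_le_rpow_of_exponent_le (by linarith) (by nlinarith)
  have hS0 : 0 ≤ S := by
    rw [hS]
    have : 0 ≤ Real.log T ^ ((q:ℝ) ^ 2 / 4) := by positivity
    positivity
  have hw := win (g := fun t => ‖DL A H t‖ ^ 2) ((DL_cont A H).norm.pow 2)
    (fun t => by positivity) (C := (∑ j ∈ Icc 1 H, ‖A j‖) ^ 2) (fun t => by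
      rw [abs_of_nonneg (by positivity)]
      exact pow_le_pow_left₀ (norm_nonneg _) (DL_norm A H t) 2) (k := k) hk8 (A := T)
    (T := 2 * T) (S := S) hT0 (by linarith) hS0 (by
      intro x hx
      have hx1 : T / 2 < x := hx.1
      have hx2 : x ≤ 16 * T := by
        have := hx.2
        linarith
      have hx0 : 0 < x := by linarith
      have hxX : X0 ≤ x := by linarith
      have hl2 := Real.log_two_lt_d9
      have hlx1 : Real.log T - 7 / 10 ≤ Real.log x := by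
        have h1 : Real.log (T / 2) ≤ Real.log x := Real.log_le_log (by positivity) hx1.le
        rw [Real.log_div hT0.ne' (by norm_num)] at h1
        linarith
      have hlx2 : Real.log x ≤ Real.log T + 28 / 10 := by
        have h1 : Real.log x ≤ Real.log (16 * T) := Real.log_le_log hx0 hx2
        rw [Real.log_mul (by norm_num) hT0.ne'] at h1
        have h2 : Real.log 16 = 4 * Real.log 2 := by
          rw [show (16 : ℝ) = 2 ^ 4 by norm_num, Real.log_pow]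
          norm_num
        linarith
      have hRng : Pool.Agent.H262R4.TM.Rng x k := by
        unfold Pool.Agent.H262R4.TM.Rng
        constructor
        · nlinarith
        · nlinarith
      have hsq : T ^ (1 / 2 : ℝ) ≤ x := by
        have h2 : T ^ (1 / 2 : ℝ) * T ^ (1 / 2 : ℝ) = T := by
          rw [← Real.rpow_add hT0]
          norm_num
        have h3 : 2 ≤ T ^ (1 / 2 : ℝ) := by
          rw [← Real.sqrt_eq_rpow]
          exact Real.le_sqrt_of_sq_le (by linarith)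
        nlinarith
      have hHx : (H : ℝ) ≤ x ^ (1 / 4 : ℝ) := by
        refine (Nat.floor_le (by positivity)).trans (hNq.trans ?_)
        have h1 : T ^ (1 / 8 : ℝ) = (T ^ (1 / 2 : ℝ)) ^ (1 / 4 : ℝ) := by
          rw [← Real.rpow_mul hT0.le]
          norm_num
        rw [h1]
        exact Real.rpow_le_rpow (by positivity) hsq (by norm_num)
      have h2 := hX0 x hxX k hRng H hHx A M hM0 hAM
      refine h2.trans ?_
      simp only [hAn]
      set D := ∑ h ∈ Icc 1 H, ∑ l ∈ Icc 1 H, b h * b l * (1 / (Nat.lcm h l : ℝ)) with hD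
      have hD0 : 0 ≤ D := sum_nonneg fun h _ => sum_nonneg fun l _ => by
        have := hb0 h
        have := hb0 l
        positivity
      have h3 : M ^ 2 * x ^ (-η) ≤ 1 := by
        have h4 : x ^ (-η) ≤ T ^ (-(η / 2)) := by
          have h7 : x ^ (-η) ≤ (T ^ (1 / 2 : ℝ)) ^ (-η) :=
            Real.rpow_le_rpow_of_nonpos (by positivity) hsq (by linarith)
          refine h7.trans (le_of_eq ?_)
          rw [← Real.rpow_mul hT0.le]
          congr 1
          ring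
        have h5 : M ^ 2 ≤ T ^ (η / 2) := by
          rw [hM, hN, ← pow_mul, ← pow_mul, ← Real.rpow_natCast, ← Real.rpow_mul hT0.le]
          refine Real.rpow_le_rpow_of_exponent_le hT1 ?_
          push_cast
          have h8 : ((q - 2 : ℕ) : ℝ) * ((q - 2 : ℕ) : ℝ) ≤ (q:ℝ) ^ 2 := by
            have : (0:ℝ) ≤ ((q - 2 : ℕ) : ℝ) := Nat.cast_nonneg _
            nlinarith
          calc ν * (((q - 2 : ℕ) : ℝ) * (((q - 2 : ℕ) : ℝ) * 2)) =
                ν * ((((q - 2 : ℕ) : ℝ) * ((q - 2 : ℕ) : ℝ)) * 2) := by ring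
            _ ≤ ν * ((q:ℝ) ^ 2 * 2) := by gcongr
            _ ≤ η / 2 := by nlinarith
        calc M ^ 2 * x ^ (-η) ≤ T ^ (η / 2) * T ^ (-(η / 2)) := by gcongr
          _ = 1 := by rw [← Real.rpow_add hT0]; simp
      have h6 : 2 * Real.log x ≤ 4 * Real.log T := by linarith
      calc 2 * Real.log x * D + M ^ 2 * x ^ (-η) ≤ 4 * Real.log T * D + 4 * Real.log T := by
            have h7 := mul_le_mul_of_nonneg_right h6 hD0
            linarith
        _ = 4 * (D * Real.log T) + 4 * Real.log T := by ring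
        _ ≤ 4 * (C * Real.log T ^ ((q:ℝ) ^ 2 / 4)) + 4 * Real.log T ^ ((q:ℝ) ^ 2 / 4) := by gcongr
        _ = S := by rw [hS]; ring)
  have e1 : ∀ t : ℝ, ‖zl t‖ ^ 2 * ‖AL P N t‖ ^ (2 * q - 4) = ‖riemannZeta (cl t)‖ ^ 2 * ‖DL A H t‖ ^ 2 := by
    intro t
    rw [hDL, ← pow_mul, show (q - 2) * 2 = 2 * q - 4 by omega]
    rfl
  simp only [e1]
  refine hw.trans (le_of_eq ?_)
  rw [hS]
  ring

end

end Pool.Agent.W5h32.KS
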