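import Pool.Agent.W5h32.KS.C
import Pool.Agent.R311.SE.G

set_option autoImplicit false

/-! Choice of the parameters in the windows. -/

namespace Pool.Agent.W5h32.KS

open Finset MeasureTheory Filter Topology
open Pool.Agent.H306R2 Pool.Agent.R311.BS

noncomputable section

/-- the product of the primes of `S` -/
def PS (S : Finset ℕ) : ℕ := ∏ p ∈ S, p

lemma PS_pos {S : Finset ℕ} (hS : ∀ p ∈ S, p.Prime) : 1 ≤ PS S :=
  Nat.succ_le_of_lt (prod_pos fun p hp => (hS p hp).pos)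

theorem window_ev (q : ℕ) (hq : 2 ≤ q) (ν : ℝ) (hν : 0 < ν) (hνq : ν * q ≤ 1 / 32) (S : Finset ℕ)
    (hS : ∀ p ∈ S, p.Prime) (F : Finset ℝ) (h0 : (0:ℝ) ∈ F) (hF : ∀ x ∈ F, Allowed S x)
    (Γ θ : ℝ) (hΓ : 0 < Γ) (hθ : 0 < θ) :
    ∀ᶠ T : ℝ in atTop, ∀ τ : ℝ, T ≤ τ → τ ≤ 3 * T → ∀ (c : ℝ → ℂ) (K : ℝ), ∑ x ∈ F, ‖c x‖ ≤ K →
      0 ≤ (c 0).re → ∀ (w zs : ℝ → ℝ) (ε : ℝ), Continuous w →
      (∀ t, 0 ≤ w t) → Continuous zs → (∀ t, 0 ≤ zs t) → (∀ t, ‖ES (PS S) t‖ * zs t = 1) → 0 ≤ ε →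
      (∀ t, ‖((w t * zs t ^ q : ℝ) : ℂ) - VF F c t‖ ≤ ε) →
      1 / 2 * (c 0).re * Dd q (PS S) (T ^ ν) ≤
        2 ^ (q - 1) * (∫ t in Set.Ioc (τ - T ^ (1 / 2 : ℝ)) (τ + T ^ (1 / 2 : ℝ)),
          w t * ‖zl t‖ ^ q * gw τ (T ^ (1 / 4 : ℝ)) t) +
        ε * PS S * (∫ t in Set.Ioc (τ - T ^ (1 / 2 : ℝ)) (τ + T ^ (1 / 2 : ℝ)),
          ‖zl t‖ * ‖AL (PS S) (T ^ ν) t‖ ^ (2 * q - 2) * gw τ (T ^ (1 / 4 : ℝ)) t) +
        (1 / 2 * (K * (Γ * Uq q (T ^ ν) + θ) + ε * (Uq q (T ^ ν) + θ)) +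
          K * (Γ * Uq q (T ^ ν) + 3 * θ)) := by
  have hqr : (2:ℝ) ≤ q := by exact_mod_cast hq
  have hP := PS_pos hS
  have hPr : (1:ℝ) ≤ PS S := by exact_mod_cast hP
  obtain ⟨B, hB⟩ : ∃ B : ℝ, B = ∑ x ∈ F, |x| := ⟨_, rfl⟩
  have hBx : ∀ x ∈ F, |x| ≤ B := by
    intro x hx
    rw [hB]
    exact single_le_sum (f := fun x : ℝ => |x|) (fun _ _ => abs_nonneg _) hx
  have hB0 : 0 ≤ B := by rw [hB]; exact sum_nonneg fun _ _ => abs_nonneg _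
  obtain ⟨b, hb⟩ : ∃ b : ℝ, b = Real.exp (B + 1) := ⟨_, rfl⟩
  have hb1 : 1 ≤ b := by rw [hb]; exact Real.one_le_exp (by positivity)
  have hnear := near_F (κ := (q:ℝ) / 2) (by positivity) S F hF Γ hΓ
  -- the function `ρ`
  have hρt : Tendsto (fun T : ℝ => 1 / (2 * b * (T ^ ν) ^ (2 * q))) atTop (𝓝[>] 0) := by
    rw [tendsto_nhdsWithin_iff]
    constructor
    · have h1 : Tendsto (fun T : ℝ => 2 * b * (T ^ ν) ^ (2 * q)) atTop atTop := by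
        refine Tendsto.const_mul_atTop (by positivity) ?_
        exact (tendsto_pow_atTop (by omega)).comp (tendsto_rpow_atTop hν)
      simp only [one_div]
      exact h1.inv_tendsto_atTop
    · filter_upwards [eventually_gt_atTop 0] with T hT
      rw [Set.mem_Ioi]
      positivity
  have ev1 := hρt.eventually hnear
  have ev2 := ev_small (4 * q + 10) (1 / (16 * b ^ 2)) (3 / 8) (1 / θ) (by positivity) (by norm_num)
  have ev3 := ev_small (4 * q + 10) (1 / 2) (1 / 2) (2 / θ) (by norm_num) (by norm_num)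
  have ev4 := ev_pow (1 / θ * (1575 * Real.sqrt 2 * PS S)) (7 / 16) (by norm_num)
  have ev5 := ev_rpow_ge (b ^ 1 * 1) (1 / 2) (by norm_num)
  have ev6 := ev_pow 4 (1 / 2) (by norm_num)
  filter_upwards [ev1, ev2, ev3, ev4, ev5, ev6, eventually_ge_atTop 1000, eventually_ge_atTop (10 * (PS S:ℝ))]
    with T g1 g2 g3 g4 g5 g6 hT hTP τ hτ1 hτ2 c K hK hc0 w zs ε hwc hw0 hzc hz0 hz1 hε hV
  have hK0 : 0 ≤ K := (sum_nonneg fun _ _ => norm_nonneg _).trans hK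
  have hT0 : 0 < T := by linarith
  have hT1 : 1 ≤ T := by linarith
  obtain ⟨N, hN⟩ : ∃ N : ℝ, N = T ^ ν := ⟨_, rfl⟩
  rw [← hN] at g1 ⊢
  have hN1 : 1 ≤ N := by rw [hN]; exact Real.one_le_rpow hT1 hν.le
  have hN0 : 0 < N := by linarith
  have hNq : N ^ q ≤ T ^ (1 / 32 : ℝ) := by
    rw [hN, ← Real.rpow_natCast, ← Real.rpow_mul hT0.le]
    exact Real.rpow_le_rpow_of_exponent_le hT1 hνq
  have hNq1 : 1 ≤ N ^ q := one_le_pow₀ hN1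
  have hNT : N ^ q ≤ T := by
    refine hNq.trans ?_
    calc T ^ (1 / 32 : ℝ) ≤ T ^ (1:ℝ) := Real.rpow_le_rpow_of_exponent_le hT1 (by norm_num)
      _ = T := Real.rpow_one T
  have hN2q : N ^ (2 * q) ≤ T ^ (1 / 16 : ℝ) := by
    calc N ^ (2 * q) = (N ^ q) ^ 2 := by rw [← pow_mul, mul_comm]
      _ ≤ (T ^ (1 / 32 : ℝ)) ^ 2 := pow_le_pow_left₀ (by positivity) hNq 2
      _ = T ^ (1 / 16 : ℝ) := by
          rw [← Real.rpow_natCast, ← Real.rpow_mul hT0.le]; norm_num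
  obtain ⟨X₀, hX₀⟩ : ∃ X₀ : ℕ, X₀ = ⌈3 * τ⌉₊ := ⟨_, rfl⟩
  have hτ0 : 0 < τ := by linarith
  have hX3 : 3 * τ ≤ X₀ := by rw [hX₀]; exact Nat.le_ceil _
  have hX4 : (X₀:ℝ) ≤ 3 * τ + 1 := by
    rw [hX₀]
    exact (Nat.ceil_lt_add_one (by linarith)).le
  have hXT : (X₀:ℝ) ≤ 10 * T := by linarith
  have hXTl : 3 * T ≤ (X₀:ℝ) := by linarith
  obtain ⟨Z, hZ⟩ : ∃ Z : ℝ, Z = N ^ q * b := ⟨_, rfl⟩
  have hZ1 : 1 ≤ Z := by rw [hZ]; exact one_le_mul_of_one_le_of_one_le hNq1 hb1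
  have hbT : b ≤ T ^ (1 / 2 : ℝ) := by
    have := g5
    rw [pow_one, mul_one] at this
    exact this
  have hZX : Z ≤ X₀ := by
    rw [hZ]
    calc N ^ q * b ≤ T ^ (1 / 32 : ℝ) * T ^ (1 / 2 : ℝ) := by gcongr
      _ = T ^ (17 / 32 : ℝ) := by rw [← Real.rpow_add hT0]; norm_num
      _ ≤ T ^ (1 : ℝ) := Real.rpow_le_rpow_of_exponent_le hT1 (by norm_num)
      _ = T := Real.rpow_one T
      _ ≤ X₀ := by linarith
  obtain ⟨ρ, hρ⟩ : ∃ ρ : ℝ, ρ = 1 / (2 * b * N ^ (2 * q)) := ⟨_, rfl⟩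
  rw [← hρ] at g1
  have hN2q1 : 1 ≤ N ^ (2 * q) := one_le_pow₀ hN1
  have hρ0 : 0 < ρ := by rw [hρ]; positivity
  have hρ1 : ρ ≤ 1 := by
    rw [hρ, div_le_one (by positivity)]
    have := one_le_mul_of_one_le_of_one_le hb1 hN2q1
    linarith
  have hρ2 : 2 * ρ ≤ 1 / (Z * N ^ q) := by
    rw [hρ, hZ]
    have e1 : N ^ (2 * q) = N ^ q * N ^ q := by rw [← pow_add]; congr 1; omega
    rw [e1]
    apply le_of_eq
    field_simp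
  obtain ⟨L, hL⟩ : ∃ L : ℝ, L = T ^ (4 * q + 10) := ⟨_, rfl⟩
  have hXf : N ^ (q - 2) * (PS S * (X₀:ℝ)) ≤ T ^ 3 := by
    have h1 : N ^ (q - 2) ≤ T := by
      refine le_trans (pow_le_pow_right₀ hN1 (by omega)) hNT
    calc N ^ (q - 2) * (PS S * (X₀:ℝ)) ≤ T * (PS S * (10 * T)) := by gcongr
      _ = (10 * PS S) * T ^ 2 := by ring
      _ ≤ T * T ^ 2 := by gcongr
      _ = T ^ 3 := by ring
  have hX1 : (1:ℝ) ≤ X₀ := by linarith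
  have hXf1 : 1 ≤ N ^ (q - 2) * (PS S * (X₀:ℝ)) :=
    one_le_mul_of_one_le_of_one_le (one_le_pow₀ hN1) (one_le_mul_of_one_le_of_one_le hPr hX1)
  have hl1 : l1 (Bf q (PS S) N X₀) (N ^ (q - 2) * (PS S * (X₀:ℝ))) ≤ T ^ (3 * (q + 3)) := by
    refine (l1_PB (PB_Bf q (PS S) N X₀) hXf1).trans ?_
    rw [pow_mul]
    exact pow_le_pow_left₀ (by linarith) hXf _
  have hl2 : l1 (Gq q (PS S) N) (N ^ q) ≤ T ^ (q + 1) := by
    have h1 := (PB_cA_one (PS S) N (α := 1 / 2) (by norm_num) (by norm_num)).pow q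
    refine (l1_PB h1 hNq1).trans ?_
    rw [zero_add, mul_one]
    exact pow_le_pow_left₀ (by linarith) hNT _
  have hLa : l1 (Bf q (PS S) N X₀) (N ^ (q - 2) * (PS S * (X₀:ℝ))) * l1 (Gq q (PS S) N) (N ^ q) ≤ L := by
    calc _ ≤ T ^ (3 * (q + 3)) * T ^ (q + 1) :=
          mul_le_mul hl1 hl2 (l1_nonneg _ _) (by positivity)
      _ = L := by rw [hL, ← pow_add]; congr 1; ring
  have hLb : l1 (Gq q (PS S) N) (N ^ q) * l1 (Gq q (PS S) N) (N ^ q) ≤ L := by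
    calc _ ≤ T ^ (q + 1) * T ^ (q + 1) :=
          mul_le_mul hl2 hl2 (l1_nonneg _ _) (by positivity)
      _ = T ^ (2 * q + 2) := by rw [← pow_add]; congr 1; ring
      _ ≤ L := by rw [hL]; exact pow_le_pow_right₀ hT1 (by omega)
  obtain ⟨e₁, he₁⟩ : ∃ e₁ : ℝ, e₁ = 1575 * (Real.sqrt 2 * T ^ (-(1 / 2) : ℝ)) := ⟨_, rfl⟩
  have he₁0 : 0 ≤ e₁ := by rw [he₁]; positivity
  have h4R : 4 * T ^ (1 / 2 : ℝ) ≤ T := by
    have e1 : 4 * T ^ (1 / 2 : ℝ) = (4 * T ^ (-(1 / 2) : ℝ)) * T := by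
      have : T ^ (1 / 2 : ℝ) = T ^ (-(1 / 2) : ℝ) * T := by
        conv_rhs => rw [← Real.rpow_one T, ← Real.rpow_mul hT0.le, ← Real.rpow_add hT0]
        norm_num
      rw [this]; ring
    rw [e1]
    calc _ ≤ 1 * T := by gcongr
      _ = T := one_mul T
  have happ : ∀ t ∈ Set.Ioc (τ - T ^ (1 / 2 : ℝ)) (τ + T ^ (1 / 2 : ℝ)), ‖zl t - zX X₀ t‖ ≤ e₁ :=
    Pool.Agent.R311.SE.app_val hT hτ1 h4R hX3 hX4 he₁
  obtain ⟨H, hH⟩ : ∃ H : ℝ, H = T ^ (1 / 4 : ℝ) := ⟨_, rfl⟩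
  have hH0 : 0 < H := by rw [hH]; positivity
  rw [← hH]
  obtain ⟨R, hR⟩ : ∃ R : ℝ, R = T ^ (1 / 2 : ℝ) := ⟨_, rfl⟩
  have hR0 : 0 < R := by rw [hR]; positivity
  rw [← hR] at happ ⊢
  have hcore := core q hq F h0 c K B hK hBx (PS S) hP N X₀ Z ρ τ H R Γ e₁ L ε hN1
    (hNT.trans (by linarith)) hZX hρ0.le hρ1 hH0 hR0.le he₁0 (le_of_eq (by rw [hZ, hb])) hρ2 hΓ.le g1
    hLa hLb happ w zs hwc hw0 hzc hz0 hz1 hε hV hc0
  -- the errors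
  have hE1 : L * gq H ρ ≤ θ := by
    have h1 : gq H ρ ≤ Real.exp (-(1 / (16 * b ^ 2) * T ^ (3 / 8 : ℝ))) := by
      unfold gq
      apply Real.exp_le_exp.mpr
      rw [neg_le_neg_iff]
      have h2 : ρ ^ 2 = 1 / (4 * b ^ 2 * (N ^ (2 * q)) ^ 2) := by
        rw [hρ, div_pow, one_pow]
        congr 1
        ring
      have h3 : (N ^ (2 * q)) ^ 2 ≤ T ^ (1 / 8 : ℝ) := by
        calc (N ^ (2 * q)) ^ 2 ≤ (T ^ (1 / 16 : ℝ)) ^ 2 := pow_le_pow_left₀ (by positivity) hN2q 2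
          _ = T ^ (1 / 8 : ℝ) := by
              rw [← Real.rpow_natCast, ← Real.rpow_mul hT0.le]; norm_num
      have h4 : H ^ 2 = T ^ (3 / 8 : ℝ) * T ^ (1 / 8 : ℝ) := by
        rw [hH, ← Real.rpow_natCast, ← Real.rpow_mul hT0.le, ← Real.rpow_add hT0]; norm_num
      rw [h2, h4]
      have h5 : 0 < (N ^ (2 * q)) ^ 2 := by positivity
      have h6 : T ^ (3 / 8 : ℝ) * (N ^ (2 * q)) ^ 2 ≤ T ^ (3 / 8 : ℝ) * T ^ (1 / 8 : ℝ) := by gcongr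
      have h7 : 1 / (16 * b ^ 2) * T ^ (3 / 8 : ℝ) = (T ^ (3 / 8 : ℝ) * (N ^ (2 * q)) ^ 2) /
          (16 * b ^ 2 * (N ^ (2 * q)) ^ 2) := by
        field_simp
      have h8 : T ^ (3 / 8 : ℝ) * T ^ (1 / 8 : ℝ) * (1 / (4 * b ^ 2 * (N ^ (2 * q)) ^ 2)) / 4 =
          (T ^ (3 / 8 : ℝ) * T ^ (1 / 8 : ℝ)) / (16 * b ^ 2 * (N ^ (2 * q)) ^ 2) := by
        field_simp
        norm_num
      rw [h7, h8]
      gcongr
    have h2 : L * gq H ρ ≤ L * Real.exp (-(1 / (16 * b ^ 2) * T ^ (3 / 8 : ℝ))) := by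
      have : 0 ≤ L := by rw [hL]; positivity
      gcongr
    refine h2.trans ?_
    rw [one_div_mul_eq_div, div_le_one hθ] at g2
    rw [hL]
    exact g2
  have hE2 : L * (2 * Real.exp (-(R ^ 2 / (2 * H ^ 2)))) ≤ θ := by
    have h1 : R ^ 2 / (2 * H ^ 2) = 1 / 2 * T ^ (1 / 2 : ℝ) := by
      have e1 : R ^ 2 = H ^ 2 * T ^ (1 / 2 : ℝ) := by
        rw [hH, hR, ← Real.rpow_natCast, ← Real.rpow_natCast, ← Real.rpow_mul hT0.le,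
          ← Real.rpow_mul hT0.le, ← Real.rpow_add hT0]
        norm_num
      rw [e1]
      field_simp
    rw [h1, hL]
    rw [div_mul_eq_mul_div, div_le_one hθ] at g3
    linarith
  have hE3 : e₁ * (PS S * N ^ (2 * q - 2)) ≤ θ := by
    have h1 : N ^ (2 * q - 2) ≤ T ^ (1 / 16 : ℝ) :=
      (pow_le_pow_right₀ hN1 (by omega)).trans hN2q
    have h2 : T ^ (-(1 / 2) : ℝ) * T ^ (1 / 16 : ℝ) = T ^ (-(7 / 16) : ℝ) := by
      rw [← Real.rpow_add hT0]; norm_num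
    calc e₁ * (PS S * N ^ (2 * q - 2)) ≤ 1575 * (Real.sqrt 2 * T ^ (-(1 / 2) : ℝ)) * (PS S * T ^ (1 / 16 : ℝ)) := by
          rw [he₁]; gcongr
      _ = 1575 * Real.sqrt 2 * PS S * (T ^ (-(1 / 2) : ℝ) * T ^ (1 / 16 : ℝ)) := by ring
      _ ≤ θ := by
          rw [h2]
          rw [one_div_mul_eq_div, div_mul_eq_mul_div, div_le_one hθ] at g4
          exact g4
  have hbr1 : K * (Γ * Uq q N + L * gq H ρ) + ε * (Uq q N + L * gq H ρ) ≤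
      K * (Γ * Uq q N + θ) + ε * (Uq q N + θ) := by gcongr
  have hbr2 : K * (Γ * Uq q N + L * gq H ρ + L * (2 * Real.exp (-(R ^ 2 / (2 * H ^ 2)))) +
      e₁ * (PS S * N ^ (2 * q - 2))) ≤ K * (Γ * Uq q N + 3 * θ) := by
    refine mul_le_mul_of_nonneg_left ?_ hK0
    linarith
  linarith

end

end Pool.Agent.W5h32.KS
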