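import Pool.Agent.W5h32.KS.F

set_option autoImplicit false

/-! Lower bounds of the diagonal sums with the exact local factors, and the mean value of the short
polynomial. -/

namespace Pool.Agent.W5h32.KS

open Finset MeasureTheory Filter Topology
open Pool.Agent.H306R2 Pool.Agent.R311.BS

noncomputable section

/-- the local factor: the sum of `d_κ(p^j)² / p^j` -/
def loc (κ : ℝ) (p : ℕ) : ℝ := ∑' j : ℕ, lc κ j ^ 2 * (1 / (p:ℝ)) ^ j

lemma loc_summable {κ : ℝ} (hκ : 0 < κ) {p : ℕ} (hp : p.Prime) :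
    Summable (fun j : ℕ => lc κ j ^ 2 * (1 / (p:ℝ)) ^ j) := by
  have hp' := inv_prime hp
  refine Summable.of_nonneg_of_le (fun j => by have := hp'.1; positivity) (fun j => ?_)
      (lc_summable (α := κ ^ 2) (by positivity) hp'.1 (by linarith [hp'.2]))
  have := lc_sq_le hκ.le j
  have := hp'.1
  gcongr

lemma loc_pos {κ : ℝ} (hκ : 0 < κ) {p : ℕ} (hp : p.Prime) : 0 < loc κ p := by
  have hp' := inv_prime hp
  refine (loc_summable hκ hp).tsum_pos (fun j => by have := hp'.1; positivity) 0 ?_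
  simp [lc_zero]

lemma SP_step' {κ : ℝ} (hκ : 0 < κ) {p : ℕ} (hp : p.Prime) (Q N : ℕ) :
    SP κ Q N ≤ loc κ p * SP κ (Q * p) N := by
  have hp' := inv_prime hp
  have hsum := loc_summable hκ hp
  have h1 : (∑ j ∈ range (N + 1), lc κ j ^ 2 * (1 / (p:ℝ)) ^ j) * SP κ (Q * p) N ≤
      loc κ p * SP κ (Q * p) N :=
    mul_le_mul_of_nonneg_right (hsum.sum_le_tsum _ fun j _ => by have := hp'.1; positivity)
      (SP_nonneg _ _ _)
  refine le_trans ?_ h1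
  unfold SP
  rw [sum_mul_sum, ← sum_product']
  have hinj : Set.InjOn (fun v : ℕ => (v.factorization p, v / p ^ (v.factorization p)))
      ((Icc 1 N).filter (fun v => v.Coprime Q) : Set ℕ) := by
    intro a _ b _ hab
    simp only [Prod.mk.injEq] at hab
    have e1 := Nat.ordProj_mul_ordCompl_eq_self a p
    have e2 := Nat.ordProj_mul_ordCompl_eq_self b p
    rw [← e1, ← e2, hab.2, hab.1]
  have hterm : ∀ v ∈ (Icc 1 N).filter (fun v => v.Coprime Q), dv κ v ^ 2 / (v:ℝ) =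
      (fun x : ℕ × ℕ => lc κ x.1 ^ 2 * (1 / (p:ℝ)) ^ x.1 * (dv κ x.2 ^ 2 / (x.2:ℝ)))
        (v.factorization p, v / p ^ (v.factorization p)) := by
    intro v hv
    rw [mem_filter, mem_Icc] at hv
    have hv0 : v ≠ 0 := by omega
    have e1 : (v:ℝ) = (p:ℝ) ^ (v.factorization p) * ((v / p ^ (v.factorization p) : ℕ) : ℝ) := by
      exact_mod_cast (Nat.ordProj_mul_ordCompl_eq_self v p).symm
    have e2 := dv_split (κ := κ) hp hv0
    simp only
    generalize v.factorization p = j at e1 e2 ⊢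
    generalize v / p ^ j = m at e1 e2 ⊢
    rw [e2, e1]
    have hpp : (p:ℝ) ≠ 0 := by exact_mod_cast hp.ne_zero
    rw [one_div, inv_pow]
    have hpk : (p:ℝ) ^ j ≠ 0 := pow_ne_zero _ hpp
    rw [mul_pow, div_eq_mul_inv, mul_inv, div_eq_mul_inv]
    ring
  rw [sum_congr rfl hterm, ← sum_image (f := fun x : ℕ × ℕ =>
    lc κ x.1 ^ 2 * (1 / (p:ℝ)) ^ x.1 * (dv κ x.2 ^ 2 / (x.2:ℝ))) hinj]
  refine sum_le_sum_of_subset_of_nonneg ?_ fun x _ _ => by have := hp'.1; positivity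
  intro x hx
  rw [mem_image] at hx
  obtain ⟨v, hv, rfl⟩ := hx
  rw [mem_filter, mem_Icc] at hv
  have hv0 : v ≠ 0 := by omega
  rw [mem_product, mem_range, mem_filter, mem_Icc]
  simp only
  refine ⟨?_, ⟨?_, ?_⟩, ?_⟩
  · have := Nat.factorization_lt p hv0
    omega
  · exact Nat.pos_of_ne_zero (Nat.ordCompl_pos p hv0).ne'
  · exact (Nat.ordCompl_le v p).trans hv.1.2
  · refine Nat.Coprime.mul_right ?_ (Nat.coprime_ordCompl hp hv0).symm
    exact Nat.Coprime.coprime_dvd_left (Nat.ordCompl_dvd v p) hv.2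

theorem SP_exact {κ : ℝ} (hκ : 0 < κ) (S : Finset ℕ) (hS : ∀ p ∈ S, p.Prime) (Q N : ℕ) :
    SP κ Q N ≤ (∏ p ∈ S, loc κ p) * SP κ (Q * ∏ p ∈ S, p) N := by
  classical
  induction S using Finset.induction_on generalizing Q with
  | empty => simp
  | insert p s hp ih =>
    rw [prod_insert hp, prod_insert hp]
    have h1 := SP_step' hκ (hS p (mem_insert_self _ _)) Q N
    have h2 := ih (fun x hx => hS x (mem_insert_of_mem hx)) (Q * p)
    have h3 := loc_pos hκ (hS p (mem_insert_self _ _))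
    calc SP κ Q N ≤ loc κ p * SP κ (Q * p) N := h1
      _ ≤ loc κ p * ((∏ x ∈ s, loc κ x) * SP κ (Q * p * ∏ x ∈ s, x) N) := by gcongr
      _ = _ := by rw [mul_assoc Q p]; ring

/-- the diagonal sum from below -/
theorem Dd_ge (q : ℕ) (hq : 1 ≤ q) (P : ℕ) (N : ℝ) (hN : 1 ≤ N) :
    SP ((q:ℝ) / 2) P ⌊N⌋₊ ≤ Dd q P N := by
  unfold SP Dd
  have hNN : N ≤ N ^ q := by
    calc N = N ^ 1 := (pow_one N).symm
      _ ≤ N ^ q := pow_le_pow_right₀ hN hq
  have hsub : (Icc 1 ⌊N⌋₊).filter (fun v => v.Coprime P) ⊆ Icc 1 ⌊N ^ q⌋₊ :=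
    (filter_subset _ _).trans (Icc_subset_Icc_right (Nat.floor_le_floor hNN))
  refine le_trans (le_of_eq ?_) (sum_le_sum_of_subset_of_nonneg hsub fun n _ _ => ?_)
  · refine sum_congr rfl fun n hn => ?_
    rw [mem_filter, mem_Icc] at hn
    have hnN : (n:ℝ) ≤ N := (Nat.cast_le.mpr hn.1.2).trans (Nat.floor_le (by linarith))
    have h1 := cA_pow_eq P (1 / 2) q n hnN
    have e : (q:ℝ) * (1 / 2) = (q:ℝ) / 2 := by ring
    rw [e, xA_apply, if_pos hn.2] at h1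
    unfold Gq
    rw [h1]
    ring
  · have := Gq_nonneg q P N n
    positivity

theorem Dd_lower (q : ℕ) (hq : 2 ≤ q) (ν : ℝ) (hν : 0 < ν) : ∃ a : ℝ, 0 < a ∧ ∀ᶠ T : ℝ in atTop,
    ∀ S : Finset ℕ, (∀ p ∈ S, p.Prime) →
      a * Real.log T ^ ((q:ℝ) ^ 2 / 4) ≤ (∏ p ∈ S, loc ((q:ℝ) / 2) p) * Dd q (PS S) (T ^ ν) := by
  have hqr : (2:ℝ) ≤ q := by exact_mod_cast hq
  obtain ⟨a, ha, h⟩ := U_lower (κ := (q:ℝ) / 2) (by linarith)
  refine ⟨a * ν ^ ((q:ℝ) ^ 2 / 4), by positivity, ?_⟩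
  have h1 : Tendsto (fun T : ℝ => ν * Real.log T) atTop atTop :=
    Real.tendsto_log_atTop.const_mul_atTop hν
  filter_upwards [h1.eventually h, eventually_ge_atTop 1] with T hT hT1 S hS
  have hT0 : 0 < T := by linarith
  have hN1 : 1 ≤ T ^ ν := Real.one_le_rpow hT1 hν.le
  have e1 : Real.exp (ν * Real.log T) = T ^ ν := by rw [Real.rpow_def_of_pos hT0, mul_comm]
  rw [e1, show ((q:ℝ) / 2) ^ 2 = (q:ℝ) ^ 2 / 4 by ring, Real.mul_rpow hν.le (Real.log_nonneg hT1)] at hT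
  have h2 := SP_exact (κ := (q:ℝ) / 2) (by positivity) S hS 1 ⌊T ^ ν⌋₊
  rw [one_mul] at h2
  have e2 : SP ((q:ℝ) / 2) 1 ⌊T ^ ν⌋₊ = ∑ v ∈ Icc 1 ⌊T ^ ν⌋₊, dv ((q:ℝ) / 2) v ^ 2 / v := by
    unfold SP
    rw [filter_true_of_mem fun v _ => Nat.coprime_one_right v]
  rw [e2] at h2
  have h3 := Dd_ge q (by omega) (PS S) (T ^ ν) hN1
  have h4 : 0 ≤ ∏ p ∈ S, loc ((q:ℝ) / 2) p :=
    prod_nonneg fun p hp => (loc_pos (by positivity) (hS p hp)).le
  calc a * ν ^ ((q:ℝ) ^ 2 / 4) * Real.log T ^ ((q:ℝ) ^ 2 / 4) =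
        a * (ν ^ ((q:ℝ) ^ 2 / 4) * Real.log T ^ ((q:ℝ) ^ 2 / 4)) := by ring
    _ ≤ _ := hT
    _ ≤ _ := h2
    _ ≤ _ := mul_le_mul_of_nonneg_left h3 h4

theorem Uq_upper (q : ℕ) (hq : 1 ≤ q) (ν : ℝ) (hν : 0 < ν) : ∃ C : ℝ, 0 < C ∧ ∀ᶠ T : ℝ in atTop,
    Uq q (T ^ ν) ≤ C * Real.log T ^ ((q:ℝ) ^ 2 / 4) := by
  obtain ⟨C, hC, h⟩ := Pool.Agent.R311.SE.U_up q hq ν hν
  refine ⟨C, hC, ?_⟩
  filter_upwards [h] with T hT
  rw [show (q:ℝ) ^ 2 / 4 = (q:ℝ) / 2 * ((q:ℝ) / 2) by ring]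
  unfold Uq
  simp only [sq]
  exact hT

/-- the mean value of the short polynomial -/
theorem mean_A (q : ℕ) (hq : 2 ≤ q) (ν : ℝ) (hν : 0 < ν) (hνq : ν * q ≤ 1 / 32) : ∃ C : ℝ, 0 < C ∧
    ∀ᶠ T : ℝ in atTop, ∀ P : ℕ,
      ∫ t in T..(2 * T), ‖AL P (T ^ ν) t‖ ^ (2 * q) ≤ C * T * Real.log T ^ ((q:ℝ) ^ 2 / 4) := by
  obtain ⟨C, hC, hU⟩ := Uq_upper q (by omega) ν hν
  have hqr : (2:ℝ) ≤ q := by exact_mod_cast hq
  have hpi := Real.pi_pos
  refine ⟨Real.exp 1 * Real.sqrt Real.pi * (C + 1), by positivity, ?_⟩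
  obtain ⟨b, hb⟩ : ∃ b : ℝ, b = Real.exp 1 := ⟨_, rfl⟩
  have hb1 : 1 ≤ b := by rw [hb]; exact Real.one_le_exp (by norm_num)
  have ev2 := ev_small (2 * q + 2) (1 / (16 * b ^ 2)) 1 1 (by positivity) (by norm_num)
  have ev3 := ev_log_rpow_ge 1 1 ((q:ℝ) ^ 2 / 4) (by norm_num) (by positivity)
  filter_upwards [hU, ev2, ev3, eventually_ge_atTop 1] with T hUT g2 g3 hT1 P
  have hT0 : 0 < T := by linarith
  obtain ⟨N, hN⟩ : ∃ N : ℝ, N = T ^ ν := ⟨_, rfl⟩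
  rw [← hN] at hUT ⊢
  have hN1 : 1 ≤ N := by rw [hN]; exact Real.one_le_rpow hT1 hν.le
  have hNq : N ^ q ≤ T ^ (1 / 32 : ℝ) := by
    rw [hN, ← Real.rpow_natCast, ← Real.rpow_mul hT0.le]
    exact Real.rpow_le_rpow_of_exponent_le hT1 hνq
  have hNq1 : 1 ≤ N ^ q := one_le_pow₀ hN1
  have hNT : N ^ q ≤ T := by
    refine hNq.trans ?_
    calc T ^ (1 / 32 : ℝ) ≤ T ^ (1:ℝ) := Real.rpow_le_rpow_of_exponent_le hT1 (by norm_num)
      _ = T := Real.rpow_one T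
  have hN2q : N ^ (2 * q) ≤ T ^ (1 / 4 : ℝ) := by
    calc N ^ (2 * q) = (N ^ q) ^ 2 := by rw [← pow_mul, mul_comm]
      _ ≤ (T ^ (1 / 32 : ℝ)) ^ 2 := pow_le_pow_left₀ (by positivity) hNq 2
      _ = T ^ (1 / 16 : ℝ) := by
          rw [← Real.rpow_natCast, ← Real.rpow_mul hT0.le]; norm_num
      _ ≤ T ^ (1 / 4 : ℝ) := Real.rpow_le_rpow_of_exponent_le hT1 (by norm_num)
  obtain ⟨ρ, hρ⟩ : ∃ ρ : ℝ, ρ = 1 / (2 * b * N ^ (2 * q)) := ⟨_, rfl⟩
  have hN2q1 : 1 ≤ N ^ (2 * q) := one_le_pow₀ hN1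
  have hρ0 : 0 < ρ := by rw [hρ]; positivity
  have hρ1 : ρ ≤ 1 := by
    rw [hρ, div_le_one (by positivity)]
    have := one_le_mul_of_one_le_of_one_le hb1 hN2q1
    linarith
  have hρ2 : 2 * ρ ≤ 1 / (N ^ q * b * N ^ q) := by
    rw [hρ]
    have e1 : N ^ (2 * q) = N ^ q * N ^ q := by rw [← pow_add]; congr 1; omega
    rw [e1]
    apply le_of_eq
    field_simp
  have hl2 : l1 (Gq q P N) (N ^ q) ≤ T ^ (q + 1) := by
    have h1 := (PB_cA_one P N (α := 1 / 2) (by norm_num) (by norm_num)).pow q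
    refine (l1_PB h1 hNq1).trans ?_
    rw [zero_add, mul_one]
    exact pow_le_pow_left₀ (by linarith) hNT _
  have hLb : l1 (Gq q P N) (N ^ q) * l1 (Gq q P N) (N ^ q) ≤ T ^ (2 * q + 2) := by
    calc _ ≤ T ^ (q + 1) * T ^ (q + 1) :=
          mul_le_mul hl2 hl2 (l1_nonneg _ _) (by positivity)
      _ = T ^ (2 * q + 2) := by rw [← pow_add]; congr 1; ring
  obtain ⟨h3i, h3⟩ := win2 q hq {0} (mem_singleton_self _) (fun _ => (1:ℂ)) 1 0 (by simp)
    (fun x hx => by rw [mem_singleton] at hx; rw [hx]; simp) P N (N ^ q * b) ρ T T 0 (T ^ (2 * q + 2)) hN1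
    hρ0.le hρ1 hT0 (le_of_eq (by rw [hb, zero_add])) hρ2
    le_rfl (fun x hx hx0 => by rw [mem_singleton] at hx; exact absurd hx hx0) hLb
  have e0 : ∀ t : ℝ, (VF {0} (fun _ => (1:ℂ)) t).re = 1 := by
    intro t
    unfold VF ex
    simp
  simp only [e0, one_mul] at h3i h3
  rw [Complex.one_re, one_mul, zero_mul, zero_add] at h3
  have hE1 : T ^ (2 * q + 2) * gq T ρ ≤ 1 := by
    have h1 : gq T ρ ≤ Real.exp (-(1 / (16 * b ^ 2) * T ^ (1 : ℝ))) := by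
      unfold gq
      apply Real.exp_le_exp.mpr
      rw [neg_le_neg_iff]
      have h2 : ρ ^ 2 = 1 / (4 * b ^ 2 * (N ^ (2 * q)) ^ 2) := by
        rw [hρ, div_pow, one_pow]
        congr 1
        ring
      have h3 : (N ^ (2 * q)) ^ 2 ≤ T := by
        calc (N ^ (2 * q)) ^ 2 ≤ (T ^ (1 / 4 : ℝ)) ^ 2 := pow_le_pow_left₀ (by positivity) hN2q 2
          _ = T ^ (1 / 2 : ℝ) := by
              rw [← Real.rpow_natCast, ← Real.rpow_mul hT0.le]; norm_num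
          _ ≤ T ^ (1 : ℝ) := Real.rpow_le_rpow_of_exponent_le hT1 (by norm_num)
          _ = T := Real.rpow_one T
      rw [h2, Real.rpow_one]
      have h5 : 0 < (N ^ (2 * q)) ^ 2 := by positivity
      have h6 : T * (N ^ (2 * q)) ^ 2 ≤ T ^ 2 := by
        rw [sq T]; gcongr
      have h7 : 1 / (16 * b ^ 2) * T = (T * (N ^ (2 * q)) ^ 2) / (16 * b ^ 2 * (N ^ (2 * q)) ^ 2) := by
        field_simp
      have h8 : T ^ 2 * (1 / (4 * b ^ 2 * (N ^ (2 * q)) ^ 2)) / 4 =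
          T ^ 2 / (16 * b ^ 2 * (N ^ (2 * q)) ^ 2) := by
        field_simp
        norm_num
      rw [h7, h8]
      gcongr
    calc T ^ (2 * q + 2) * gq T ρ ≤ T ^ (2 * q + 2) * Real.exp (-(1 / (16 * b ^ 2) * T ^ (1 : ℝ))) := by
          gcongr
      _ ≤ 1 := by rw [one_mul] at g2; exact g2
  rw [intervalIntegral.integral_of_le (by linarith)]
  have hb0 : 0 < b := by linarith
  have hs : 0 < Real.sqrt Real.pi := Real.sqrt_pos.mpr hpi
  have cA' := (AL_cont P N).norm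
  have h5 : ∫ t in Set.Ioc T (2 * T), ‖AL P N t‖ ^ (2 * q) ≤
      ∫ t in Set.Ioc T (2 * T), (b * Real.sqrt Real.pi * T) * (‖AL P N t‖ ^ (2 * q) * gw T T t) := by
    refine setIntegral_mono_on ?_ (h3i.const_mul _).integrableOn measurableSet_Ioc fun t ht => ?_
    · have : Continuous fun t => ‖AL P N t‖ ^ (2 * q) := by fun_prop
      exact this.integrableOn_Icc.mono_set Set.Ioc_subset_Icc_self
    · have h6 : 1 ≤ b * Real.sqrt Real.pi * T * gw T T t := by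
        unfold gw
        have h7 : Real.exp (-1) ≤ Real.exp (-((t - T) ^ 2 / T ^ 2)) := by
          apply Real.exp_le_exp.mpr
          rw [neg_le_neg_iff, div_le_one (by positivity)]
          have h8 : 0 ≤ t - T := by linarith [ht.1]
          have h9 : t - T ≤ T := by linarith [ht.2]
          exact pow_le_pow_left₀ h8 h9 2
        have e9 : b * Real.sqrt Real.pi * T * (Real.exp (-((t - T) ^ 2 / T ^ 2)) / (T * Real.sqrt Real.pi)) =
            b * Real.exp (-((t - T) ^ 2 / T ^ 2)) := by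
          field_simp
        rw [e9]
        calc (1:ℝ) = b * Real.exp (-1) := by rw [hb, ← Real.exp_add]; simp
          _ ≤ _ := by gcongr
      have h10 : 0 ≤ ‖AL P N t‖ ^ (2 * q) := by positivity
      calc ‖AL P N t‖ ^ (2 * q) = 1 * ‖AL P N t‖ ^ (2 * q) := (one_mul _).symm
        _ ≤ (b * Real.sqrt Real.pi * T * gw T T t) * ‖AL P N t‖ ^ (2 * q) := by gcongr
        _ = _ := by ring
  refine h5.trans ?_
  have h6 : ∫ t in Set.Ioc T (2 * T), (b * Real.sqrt Real.pi * T) * (‖AL P N t‖ ^ (2 * q) * gw T T t) ≤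
      ∫ t, (b * Real.sqrt Real.pi * T) * (‖AL P N t‖ ^ (2 * q) * gw T T t) := by
    refine setIntegral_le_integral (h3i.const_mul _) (Eventually.of_forall fun t => ?_)
    have := gw_nonneg T T t hT0
    simp only [Pi.zero_apply]
    positivity
  refine h6.trans ?_
  rw [integral_const_mul]
  have hDd := Dd_le q P N
  rw [one_mul] at g3
  have h8 : ∫ t, ‖AL P N t‖ ^ (2 * q) * gw T T t ≤ (C + 1) * Real.log T ^ ((q:ℝ) ^ 2 / 4) := by
    refine h3.trans ?_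
    linarith
  calc (b * Real.sqrt Real.pi * T) * ∫ t, ‖AL P N t‖ ^ (2 * q) * gw T T t ≤
        (b * Real.sqrt Real.pi * T) * ((C + 1) * Real.log T ^ ((q:ℝ) ^ 2 / 4)) := by gcongr
    _ = Real.exp 1 * Real.sqrt Real.pi * (C + 1) * T * Real.log T ^ ((q:ℝ) ^ 2 / 4) := by rw [hb]; ring

end

end Pool.Agent.W5h32.KS
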