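import Pool.Agent.W5h32.KS.G
import Pool.Agent.W5h32.KS.E

set_option autoImplicit false

/-! Averaging over the windows: the theorem for weights which are given by approximations. -/

namespace Pool.Agent.W5h32.KS

open Finset MeasureTheory Filter Topology
open Pool.Agent.H306R2 Pool.Agent.R311.BS

noncomputable section

theorem avg (q : ℕ) (hq : 2 ≤ q) : ∃ κ : ℝ, 0 < κ ∧ ∀ S : Finset ℕ, (∀ p ∈ S, p.Prime) →
    ∀ (ι : Type) (W : ι → ℝ → ℝ) (zs : ℝ → ℝ), (∀ i, Continuous (W i)) → (∀ i t, 0 ≤ W i t) →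
    Continuous zs → (∀ t, 0 ≤ zs t) → (∀ t, ‖ES (PS S) t‖ * zs t = 1) →
    (∀ ε : ℝ, 0 < ε → ∃ (F : Finset ℝ) (K : ℝ), 0 ≤ K ∧ (0:ℝ) ∈ F ∧ (∀ x ∈ F, Allowed S x) ∧
      ∀ i, ∃ c : ℝ → ℂ, ∑ x ∈ F, ‖c x‖ ≤ K ∧ ∀ t, ‖((W i t * zs t ^ q : ℝ) : ℂ) - VF F c t‖ ≤ ε) →
    ∀ (M : ι → ℝ) (M₁ : ℝ), 0 < M₁ → (∀ i, M₁ ≤ M i) → (∀ i (F : Finset ℝ) (c : ℝ → ℂ) (ε : ℝ), (0:ℝ) ∈ F →
      (∀ t, ‖((W i t * zs t ^ q : ℝ) : ℂ) - VF F c t‖ ≤ ε) → M i - ε ≤ (c 0).re) →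
    ∀ δ : ℝ, 0 < δ → ∀ᶠ T : ℝ in atTop, ∀ i, ∀ H : ℝ, δ * T ≤ H → H ≤ T →
      κ * (M i / ∏ p ∈ S, loc ((q:ℝ) / 2) p) * H * Real.log T ^ ((q:ℝ) ^ 2 / 4) ≤
        ∫ t in Set.Icc T (T + H), ‖zl t‖ ^ q * W i t := by
  have hqr : (2:ℝ) ≤ q := by exact_mod_cast hq
  have hq0 : (0:ℝ) < q := by linarith
  obtain ⟨ν₀, hν₀, CB, hCB, hB⟩ := mean_B q hq
  obtain ⟨ν, hνd⟩ : ∃ ν : ℝ, ν = min ν₀ (1 / (32 * q)) := ⟨_, rfl⟩
  have hν : 0 < ν := by rw [hνd]; exact lt_min hν₀ (by positivity)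
  have hν1 : ν ≤ ν₀ := by rw [hνd]; exact min_le_left _ _
  have hνq : ν * q ≤ 1 / 32 := by
    have h1 : ν ≤ 1 / (32 * q) := by rw [hνd]; exact min_le_right _ _
    calc ν * q ≤ 1 / (32 * q) * q := by gcongr
      _ = 1 / 32 := by field_simp
  obtain ⟨CA, hCA, hA⟩ := mean_A q hq ν hν hνq
  obtain ⟨a, ha, hD⟩ := Dd_lower q hq ν hν
  obtain ⟨CU, hCU, hU⟩ := Uq_upper q (by omega) ν hν
  refine ⟨a / (32 * 2 ^ (q - 1)), by positivity, fun S hS ι W zs hwc' hw0' hzc hz0 hz1 hap M' M₁ hM₁ hMM hM' δ hδ => ?_⟩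
  have hP := PS_pos hS
  have hPr : (1:ℝ) ≤ PS S := by exact_mod_cast hP
  obtain ⟨Λ, hΛ⟩ : ∃ Λ : ℝ, Λ = ∏ p ∈ S, loc ((q:ℝ) / 2) p := ⟨_, rfl⟩
  have hΛ0 : 0 < Λ := by rw [hΛ]; exact prod_pos fun p hp => loc_pos (by positivity) (hS p hp)
  rw [← hΛ]
  obtain ⟨m₁, hm₁⟩ : ∃ m₁ : ℝ, m₁ = M₁ * a / Λ := ⟨_, rfl⟩
  have hm₁0 : 0 < m₁ := by rw [hm₁]; positivity
  obtain ⟨C5, hC5⟩ : ∃ C5 : ℝ, C5 = (CB + CA) / 2 := ⟨_, rfl⟩
  have hC50 : 0 < C5 := by rw [hC5]; positivity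
  obtain ⟨ε, hε⟩ : ∃ ε : ℝ, ε = min 1 (min (M₁ / 2) (min (m₁ / (8 * (2 * CU + 2)))
    (m₁ * δ / (32 * (PS S * C5))))) := ⟨_, rfl⟩
  have hP0 : (0:ℝ) < PS S := by linarith
  have hε0 : 0 < ε := by
    rw [hε]
    exact lt_min one_pos (lt_min (by positivity) (lt_min (by positivity) (by positivity)))
  have hε1 : ε ≤ 1 := by rw [hε]; exact min_le_left _ _
  have hε2 : ε ≤ M₁ / 2 := by rw [hε]; exact (min_le_right _ _).trans (min_le_left _ _)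
  have hε3 : ε ≤ m₁ / (8 * (2 * CU + 2)) := by
    rw [hε]; exact (min_le_right _ _).trans ((min_le_right _ _).trans (min_le_left _ _))
  have hε4 : ε ≤ m₁ * δ / (32 * (PS S * C5)) := by
    rw [hε]; exact (min_le_right _ _).trans ((min_le_right _ _).trans (min_le_right _ _))
  rw [le_div_iff₀ (by positivity)] at hε3 hε4
  obtain ⟨F, K, hK0, h0, hF, hapi⟩ := hap ε hε0
  obtain ⟨Γ, hΓ⟩ : ∃ Γ : ℝ, Γ = ε / (K + 1) := ⟨_, rfl⟩
  have hΓ0 : 0 < Γ := by rw [hΓ]; positivity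
  obtain ⟨θ, hθ⟩ : ∃ θ : ℝ, θ = ε / (3 * (K + 1)) := ⟨_, rfl⟩
  have hθ0 : 0 < θ := by rw [hθ]; positivity
  have hKΓ : K * Γ ≤ ε := by
    rw [hΓ, ← mul_div_assoc, div_le_iff₀ (by positivity)]
    nlinarith
  have hKθ : K * (3 * θ) ≤ ε := by
    rw [hθ]
    have : K * (3 * (ε / (3 * (K + 1)))) = K * ε / (K + 1) := by field_simp
    rw [this, div_le_iff₀ (by positivity)]
    nlinarith
  have hθ1 : θ ≤ 1 := by
    rw [hθ, div_le_one (by positivity)]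
    nlinarith
  have hw := window_ev q hq ν hν hνq S hS F h0 hF Γ θ hΓ0 hθ0
  have evl := ev_log_rpow_ge 1 1 ((q:ℝ) ^ 2 / 4) (by norm_num) (by positivity)
  have evR := ev_pow (4 / δ) (1 / 2) (by norm_num)
  filter_upwards [hw, hB ν hν hν1, hA, hD, hU, evl, evR, eventually_ge_atTop 1] with T hwT hBT hAT hDT hUT
    hl1 hR1 hT1 i H hH1 hH2
  obtain ⟨c, hK, hV⟩ := hapi i
  obtain ⟨w, hw⟩ : ∃ w : ℝ → ℝ, w = W i := ⟨_, rfl⟩
  have hwc := hwc' i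
  have hw0 := hw0' i
  have hM := hM' i
  have hMi := hMM i
  obtain ⟨M, hMd⟩ : ∃ M : ℝ, M = M' i := ⟨_, rfl⟩
  rw [← hMd] at hM hMi
  rw [← hw] at hwc hw0 hV hM
  rw [← hMd, ← hw]
  have hc0 := hM F c ε h0 hV
  have hc0' : M / 2 ≤ (c 0).re := by linarith
  have hM0 : 0 < M := by linarith
  obtain ⟨m, hm⟩ : ∃ m : ℝ, m = M * a / Λ := ⟨_, rfl⟩
  have hm0 : 0 < m := by rw [hm]; positivity
  have hmm : m₁ ≤ m := by rw [hm, hm₁]; gcongr
  have hT0 : 0 < T := by linarith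
  have hH0 : 0 < H := lt_of_lt_of_le (by positivity) hH1
  obtain ⟨ℓ, hℓ⟩ : ∃ ℓ : ℝ, ℓ = Real.log T ^ ((q:ℝ) ^ 2 / 4) := ⟨_, rfl⟩
  have hBT' := hBT (PS S)
  have hAT' := hAT (PS S)
  have hDT' := hDT S hS
  rw [← hℓ] at hBT' hAT' hDT' hUT hl1 ⊢
  rw [← hΛ] at hDT'
  rw [one_mul] at hl1
  obtain ⟨N, hN⟩ : ∃ N : ℝ, N = T ^ ν := ⟨_, rfl⟩
  rw [← hN] at hwT hBT' hAT' hDT' hUT
  obtain ⟨R, hR⟩ : ∃ R : ℝ, R = T ^ (1 / 2 : ℝ) := ⟨_, rfl⟩
  have hR0 : 0 < R := by rw [hR]; positivity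
  rw [← hR] at hwT
  have h4R : 4 * R ≤ H := by
    refine le_trans ?_ hH1
    have e1 : 4 * R = (4 / δ * T ^ (-(1 / 2) : ℝ)) * (δ * T) := by
      have : T ^ (1 / 2 : ℝ) = T ^ (-(1 / 2) : ℝ) * T := by
        conv_rhs => rw [← Real.rpow_one T, ← Real.rpow_mul hT0.le, ← Real.rpow_add hT0]
        norm_num
      rw [hR, this]
      field_simp
    rw [e1]
    calc _ ≤ 1 * (δ * T) := by gcongr
      _ = δ * T := one_mul _
  -- the window inequality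
  have c1 := (AL_cont (PS S) N).norm
  have c4 := zl_cont.norm
  set G : ℝ → ℝ := fun t => 2 ^ (q - 1) * (‖zl t‖ ^ q * w t) +
    ε * PS S * (‖zl t‖ * ‖AL (PS S) N t‖ ^ (2 * q - 2)) with hG
  have cG : Continuous G := by rw [hG]; fun_prop
  have hG0 : ∀ t, 0 ≤ G t := by
    intro t
    have := hw0 t
    rw [hG]; simp only
    positivity
  have hwin : ∀ τ ∈ Set.Icc (T + R) (T + H - R), m * ℓ / 8 ≤
      ∫ t in Set.Icc T (T + H), G t * gw τ (T ^ (1 / 4 : ℝ)) t := by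
    intro τ hτ
    have h1 := hwT τ (by linarith [hτ.1]) (by linarith [hτ.2]) c K hK (by linarith) w zs ε hwc hw0 hzc hz0 hz1
      hε0.le hV
    have h2 : m * ℓ / 4 ≤ 1 / 2 * (c 0).re * Dd q (PS S) N := by
      have h3 : a * ℓ / Λ ≤ Dd q (PS S) N := by
        rw [div_le_iff₀ hΛ0, mul_comm _ Λ]
        exact hDT'
      have h4 : 0 ≤ a * ℓ / Λ := by positivity
      have h5 : (c 0).re * Dd q (PS S) N ≥ M / 2 * (a * ℓ / Λ) :=
        mul_le_mul hc0' h3 h4 (by linarith)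
      have h6 : M / 2 * (a * ℓ / Λ) = m * ℓ / 2 := by rw [hm]; ring
      linarith
    have h3 : 1 / 2 * (K * (Γ * Uq q N + θ) + ε * (Uq q N + θ)) + K * (Γ * Uq q N + 3 * θ) ≤
        (2 * CU + 2) * ε * ℓ := by
      have hU0 : 0 ≤ Uq q N := le_trans (Dd_nonneg q 1 N) (Dd_le q 1 N)
      have h4 : K * Γ * Uq q N ≤ ε * Uq q N := by gcongr
      have h5 : K * θ ≤ K * (3 * θ) := by
        have : θ ≤ 3 * θ := by linarith
        gcongr
      have h6 : ε * θ ≤ ε * 1 := by gcongr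
      have h7 : ε * Uq q N ≤ ε * (CU * ℓ) := by gcongr
      have h8 : ε ≤ ε * ℓ := by nlinarith
      have e2 : 1 / 2 * (K * (Γ * Uq q N + θ) + ε * (Uq q N + θ)) + K * (Γ * Uq q N + 3 * θ) =
        1 / 2 * (K * Γ * Uq q N + K * θ + ε * Uq q N + ε * θ) + (K * Γ * Uq q N + K * (3 * θ)) := by ring
      rw [e2]
      linarith
    have h4 : (2 * CU + 2) * ε * ℓ ≤ m * ℓ / 8 := by
      have h9 : (2 * CU + 2) * ε ≤ m / 8 := by linarith
      calc (2 * CU + 2) * ε * ℓ ≤ m / 8 * ℓ := by gcongr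
        _ = m * ℓ / 8 := by ring
    have hgc : Continuous fun t => gw τ (T ^ (1 / 4 : ℝ)) t := gw_continuous _ _
    have hsub : Set.Ioc (τ - R) (τ + R) ⊆ Set.Icc T (T + H) := by
      intro t ht
      constructor
      · linarith [ht.1, hτ.1]
      · linarith [ht.2, hτ.2]
    have hI : ∀ f : ℝ → ℝ, Continuous f → IntegrableOn f (Set.Ioc (τ - R) (τ + R)) := fun f hf =>
      (hf.integrableOn_Icc (a := τ - R) (b := τ + R)).mono_set Set.Ioc_subset_Icc_self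
    have h5 : ∫ t in Set.Ioc (τ - R) (τ + R), G t * gw τ (T ^ (1 / 4 : ℝ)) t =
        2 ^ (q - 1) * (∫ t in Set.Ioc (τ - R) (τ + R), w t * ‖zl t‖ ^ q * gw τ (T ^ (1 / 4 : ℝ)) t) +
        ε * PS S * (∫ t in Set.Ioc (τ - R) (τ + R),
          ‖zl t‖ * ‖AL (PS S) N t‖ ^ (2 * q - 2) * gw τ (T ^ (1 / 4 : ℝ)) t) := by
      rw [← integral_const_mul, ← integral_const_mul, ← integral_add]
      · refine setIntegral_congr_fun measurableSet_Ioc fun t _ => ?_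
        rw [hG]; simp only
        ring
      · exact hI _ (by fun_prop)
      · exact hI _ (by fun_prop)
    have h6 : ∫ t in Set.Ioc (τ - R) (τ + R), G t * gw τ (T ^ (1 / 4 : ℝ)) t ≤
        ∫ t in Set.Icc T (T + H), G t * gw τ (T ^ (1 / 4 : ℝ)) t := by
      refine setIntegral_mono_set ?_ ?_ ?_
      · exact (cG.mul hgc).integrableOn_Icc
      · refine Eventually.of_forall fun t => ?_
        have := gw_nonneg τ (T ^ (1 / 4 : ℝ)) t (by positivity)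
        have := hG0 t
        simp only [Pi.zero_apply]
        positivity
      · exact Eventually.of_forall hsub
    linarith
  have hav := averaging G cG hG0 (Set.Icc T (T + H)) measurableSet_Icc T (T + H) subset_rfl
    (fun τ t => gw τ (T ^ (1 / 4 : ℝ)) t) (gw_uncurry _) (fun τ t => gw_nonneg _ _ _ (by positivity))
    (gw_lint _ (by positivity)) (T + R) (T + H - R) (m * ℓ / 8) (by linarith) (by positivity) hwin
  have hIc : ∀ f : ℝ → ℝ, Continuous f → IntegrableOn f (Set.Icc T (T + H)) := fun f hf =>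
    hf.integrableOn_Icc
  have e3 : ∫ t in Set.Icc T (T + H), G t = 2 ^ (q - 1) * (∫ t in Set.Icc T (T + H), ‖zl t‖ ^ q * w t) +
      ε * PS S * (∫ t in Set.Icc T (T + H), ‖zl t‖ * ‖AL (PS S) N t‖ ^ (2 * q - 2)) := by
    rw [← integral_const_mul, ← integral_const_mul, ← integral_add]
    · exact hIc _ (by fun_prop)
    · exact hIc _ (by fun_prop)
  rw [e3] at hav
  -- the error term
  have hB5 : ∫ t in Set.Icc T (T + H), ‖zl t‖ * ‖AL (PS S) N t‖ ^ (2 * q - 2) ≤ C5 * T * ℓ := by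
    have h1 : ∫ t in Set.Icc T (T + H), ‖zl t‖ * ‖AL (PS S) N t‖ ^ (2 * q - 2) ≤
        ∫ t in Set.Icc T (2 * T), ‖zl t‖ * ‖AL (PS S) N t‖ ^ (2 * q - 2) := by
      refine setIntegral_mono_set ?_ ?_ ?_
      · exact (show Continuous fun t => ‖zl t‖ * ‖AL (PS S) N t‖ ^ (2 * q - 2) by fun_prop).integrableOn_Icc
      · refine Eventually.of_forall fun t => ?_
        simp only [Pi.zero_apply]
        positivity
      · exact Eventually.of_forall (Set.Icc_subset_Icc_right (by linarith))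
    have h2 : ∫ t in Set.Icc T (2 * T), ‖zl t‖ * ‖AL (PS S) N t‖ ^ (2 * q - 2) ≤
        ∫ t in Set.Icc T (2 * T), (1 / 2 * (‖zl t‖ ^ 2 * ‖AL (PS S) N t‖ ^ (2 * q - 4)) +
          1 / 2 * ‖AL (PS S) N t‖ ^ (2 * q)) := by
      refine setIntegral_mono_on ?_ ?_ measurableSet_Icc fun t _ => ?_
      · exact (show Continuous fun t => ‖zl t‖ * ‖AL (PS S) N t‖ ^ (2 * q - 2) by fun_prop).integrableOn_Icc
      · exact (show Continuous fun t => (1 / 2 * (‖zl t‖ ^ 2 * ‖AL (PS S) N t‖ ^ (2 * q - 4)) +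
          1 / 2 * ‖AL (PS S) N t‖ ^ (2 * q)) by fun_prop).integrableOn_Icc
      · have e4 : ‖AL (PS S) N t‖ ^ (2 * q - 2) = ‖AL (PS S) N t‖ ^ (q - 2) * ‖AL (PS S) N t‖ ^ q := by
          rw [← pow_add]; congr 1; omega
        have e5 : ‖AL (PS S) N t‖ ^ (2 * q - 4) = (‖AL (PS S) N t‖ ^ (q - 2)) ^ 2 := by
          rw [← pow_mul]; congr 1; omega
        have e6 : ‖AL (PS S) N t‖ ^ (2 * q) = (‖AL (PS S) N t‖ ^ q) ^ 2 := by
          rw [← pow_mul]; congr 1; omega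
        rw [e4, e5, e6]
        nlinarith [sq_nonneg (‖zl t‖ * ‖AL (PS S) N t‖ ^ (q - 2) - ‖AL (PS S) N t‖ ^ q)]
    have h3 : ∫ t in Set.Icc T (2 * T), (1 / 2 * (‖zl t‖ ^ 2 * ‖AL (PS S) N t‖ ^ (2 * q - 4)) +
          1 / 2 * ‖AL (PS S) N t‖ ^ (2 * q)) =
        1 / 2 * (∫ t in T..(2 * T), ‖zl t‖ ^ 2 * ‖AL (PS S) N t‖ ^ (2 * q - 4)) +
        1 / 2 * (∫ t in T..(2 * T), ‖AL (PS S) N t‖ ^ (2 * q)) := by
      rw [intervalIntegral.integral_of_le (by linarith), intervalIntegral.integral_of_le (by linarith),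
        ← integral_Icc_eq_integral_Ioc, ← integral_Icc_eq_integral_Ioc, integral_add, integral_const_mul,
        integral_const_mul]
      · exact (show Continuous fun t => 1 / 2 * (‖zl t‖ ^ 2 * ‖AL (PS S) N t‖ ^ (2 * q - 4)) by
          fun_prop).integrableOn_Icc
      · exact (show Continuous fun t => 1 / 2 * ‖AL (PS S) N t‖ ^ (2 * q) by fun_prop).integrableOn_Icc
    rw [h3] at h2
    refine h1.trans (h2.trans ?_)
    have h4 : C5 * T * ℓ = 1 / 2 * (CB * T * ℓ) + 1 / 2 * (CA * T * ℓ) := by rw [hC5]; ring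
    linarith
  have h7 : ε * PS S * (∫ t in Set.Icc T (T + H), ‖zl t‖ * ‖AL (PS S) N t‖ ^ (2 * q - 2)) ≤
      m * H * ℓ / 32 := by
    calc _ ≤ ε * PS S * (C5 * T * ℓ) := by gcongr
      _ = (ε * (32 * (PS S * C5))) * (T * ℓ) / 32 := by ring
      _ ≤ (m₁ * δ) * (T * ℓ) / 32 := by gcongr
      _ ≤ (m * δ) * (T * ℓ) / 32 := by gcongr
      _ = m * (δ * T) * ℓ / 32 := by ring
      _ ≤ m * H * ℓ / 32 := by gcongr
  have h8 : m * H * ℓ / 16 ≤ (T + H - R - (T + R)) * (m * ℓ / 8) := by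
    have h9 : H / 2 ≤ T + H - R - (T + R) := by linarith
    calc m * H * ℓ / 16 = (H / 2) * (m * ℓ / 8) := by ring
      _ ≤ _ := by gcongr
  have h10 : m * H * ℓ / 32 ≤ 2 ^ (q - 1) * (∫ t in Set.Icc T (T + H), ‖zl t‖ ^ q * w t) := by linarith
  have h11 : a / (32 * 2 ^ (q - 1)) * (M / Λ) * H * ℓ = (m * H * ℓ / 32) / 2 ^ (q - 1) := by
    rw [hm]; field_simp
  rw [h11, div_le_iff₀ (by positivity)]
  linarith

end

end Pool.Agent.W5h32.KS
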