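import Pool.Agent.W5h32.KS.B

set_option autoImplicit false

/-! Mean values of almost periodic functions. -/

namespace Pool.Agent.W5h32.KS

open Finset MeasureTheory Filter Topology
open Pool.Agent.H306R2 Pool.Agent.R311.BS

noncomputable section

/-- the mean value -/
def HasMeanC (f : ℝ → ℂ) (m : ℂ) : Prop :=
  Tendsto (fun X : ℝ => (X : ℂ)⁻¹ * ∫ t in (0:ℝ)..X, f t) atTop (𝓝 m)

lemma mean_ex (x : ℝ) : HasMeanC (ex x) (if x = 0 then 1 else 0) := by
  unfold HasMeanC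
  by_cases h : x = 0
  · subst h
    rw [if_pos rfl]
    refine Tendsto.congr' ?_ tendsto_const_nhds
    filter_upwards [eventually_gt_atTop 0] with X hX
    have e : ∀ t : ℝ, ex 0 t = 1 := by intro t; unfold ex; simp
    simp only [e]
    rw [intervalIntegral.integral_const, sub_zero]
    have hX' : (X:ℂ) ≠ 0 := by exact_mod_cast hX.ne'
    rw [Complex.real_smul, mul_one, inv_mul_cancel₀ hX']
  · rw [if_neg h]
    have hx : (x:ℂ) * Complex.I ≠ 0 := mul_ne_zero (by exact_mod_cast h) Complex.I_ne_zero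
    have hb : ∀ X : ℝ, ‖∫ t in (0:ℝ)..X, ex x t‖ ≤ 2 / |x| := by
      intro X
      have e : ∀ t : ℝ, ex x t = Complex.exp ((x:ℂ) * Complex.I * t) := by
        intro t; unfold ex; congr 1; push_cast; ring
      simp only [e]
      rw [integral_exp_mul_complex hx, norm_div, norm_mul, Complex.norm_I, mul_one, Complex.norm_real,
        Real.norm_eq_abs]
      have h1 : ‖Complex.exp ((x:ℂ) * Complex.I * X) - Complex.exp ((x:ℂ) * Complex.I * (0:ℝ))‖ ≤ 2 := by
        refine (norm_sub_le _ _).trans ?_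
        have e1 : ‖Complex.exp ((x:ℂ) * Complex.I * X)‖ = 1 := by
          rw [← e]; exact ex_norm x X
        have e2 : ‖Complex.exp ((x:ℂ) * Complex.I * (0:ℝ))‖ = 1 := by
          rw [← e]; exact ex_norm x 0
        rw [e1, e2]; norm_num
      gcongr
    rw [tendsto_zero_iff_norm_tendsto_zero]
    have h2 : Tendsto (fun X : ℝ => X⁻¹ * (2 / |x|)) atTop (𝓝 0) := by
      simpa using tendsto_inv_atTop_zero.mul_const (2 / |x|)
    refine squeeze_zero' (Eventually.of_forall fun X => norm_nonneg _) ?_ h2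
    filter_upwards [eventually_gt_atTop 0] with X hX
    rw [norm_mul, norm_inv, Complex.norm_real, Real.norm_of_nonneg hX.le]
    have := hb X
    gcongr

lemma mean_sum {ι : Type*} (I : Finset ι) (a : ι → ℂ) (l : ι → ℝ) :
    HasMeanC (fun t => ∑ i ∈ I, a i * ex (l i) t) (∑ i ∈ I, if l i = 0 then a i else 0) := by
  unfold HasMeanC
  have h1 : ∀ i ∈ I, Tendsto (fun X : ℝ => a i * ((X : ℂ)⁻¹ * ∫ t in (0:ℝ)..X, ex (l i) t)) atTop
      (𝓝 (a i * (if l i = 0 then 1 else 0))) := fun i _ => (mean_ex (l i)).const_mul (a i)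
  have h2 := tendsto_finsetSum I h1
  have e1 : ∑ i ∈ I, a i * (if l i = 0 then (1:ℂ) else 0) = ∑ i ∈ I, if l i = 0 then a i else 0 := by
    refine sum_congr rfl fun i _ => ?_
    split_ifs <;> simp
  rw [e1] at h2
  refine h2.congr fun X => ?_
  rw [intervalIntegral.integral_finsetSum (fun i _ =>
    ((ex_cont (l i)).const_mul (a i) |>.congr fun _ => rfl).intervalIntegrable _ _), mul_sum]
  refine sum_congr rfl fun i _ => ?_
  rw [intervalIntegral.integral_const_mul]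
  ring

lemma mean_VF (F : Finset ℝ) (h0 : (0:ℝ) ∈ F) (c : ℝ → ℂ) : HasMeanC (VF F c) (c 0) := by
  have h := mean_sum F c (fun x => x)
  rw [sum_ite_eq' F 0 c, if_pos h0] at h
  exact h

lemma mean_diff {f g : ℝ → ℂ} (hf : Continuous f) (hg : Continuous g) {ε : ℝ}
    (h : ∀ t, ‖f t - g t‖ ≤ ε) {X : ℝ} (hX : 0 < X) :
    ‖(X : ℂ)⁻¹ * (∫ t in (0:ℝ)..X, f t) - (X : ℂ)⁻¹ * ∫ t in (0:ℝ)..X, g t‖ ≤ ε := by
  rw [← mul_sub, ← intervalIntegral.integral_sub (hf.intervalIntegrable _ _) (hg.intervalIntegrable _ _),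
    norm_mul, norm_inv, Complex.norm_real, Real.norm_of_nonneg hX.le]
  have h1 : ‖∫ t in (0:ℝ)..X, (f t - g t)‖ ≤ ε * |X - 0| :=
    intervalIntegral.norm_integral_le_of_norm_le_const fun t _ => h t
  rw [sub_zero, abs_of_pos hX] at h1
  calc X⁻¹ * ‖∫ t in (0:ℝ)..X, (f t - g t)‖ ≤ X⁻¹ * (ε * X) := by gcongr
    _ = ε := by field_simp

lemma mean_close {f g : ℝ → ℂ} (hf : Continuous f) (hg : Continuous g) {a b : ℂ} {ε : ℝ}
    (ha : HasMeanC f a) (hb : HasMeanC g b) (h : ∀ t, ‖f t - g t‖ ≤ ε) : ‖a - b‖ ≤ ε := by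
  have h1 := (ha.sub hb).norm
  refine le_of_tendsto h1 ?_
  filter_upwards [eventually_gt_atTop 0] with X hX
  exact mean_diff hf hg h hX

lemma mean_exists {f : ℝ → ℂ} (hf : Continuous f)
    (h : ∀ ε : ℝ, 0 < ε → ∃ (g : ℝ → ℂ) (b : ℂ), Continuous g ∧ HasMeanC g b ∧ ∀ t, ‖f t - g t‖ ≤ ε) :
    ∃ a, HasMeanC f a := by
  apply cauchySeq_tendsto_of_complete
  rw [Metric.cauchySeq_iff']
  intro ε hε
  obtain ⟨g, b, hg, hb, hfg⟩ := h (ε / 8) (by positivity)
  have h1 : ∀ᶠ X : ℝ in atTop, ‖((X : ℂ)⁻¹ * ∫ t in (0:ℝ)..X, g t) - b‖ < ε / 8 := by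
    have := Metric.tendsto_nhds.mp hb (ε / 8) (by positivity)
    simpa [dist_eq_norm] using this
  obtain ⟨N, hN⟩ := (h1.and (eventually_gt_atTop 0)).exists_forall_of_atTop
  refine ⟨N, fun X hX => ?_⟩
  obtain ⟨a1, a2⟩ := hN X hX
  obtain ⟨a3, a4⟩ := hN N le_rfl
  have b1 := mean_diff hf hg hfg a2
  have b2 := mean_diff hf hg hfg a4
  rw [dist_eq_norm]
  set u : ℝ → ℂ := fun X => (X : ℂ)⁻¹ * ∫ t in (0:ℝ)..X, f t with hu
  set v : ℝ → ℂ := fun X => (X : ℂ)⁻¹ * ∫ t in (0:ℝ)..X, g t with hv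
  have e : u X - u N = (u X - v X) + (v X - b) - ((u N - v N) + (v N - b)) := by ring
  have c1 : ‖u X - u N‖ ≤ (‖u X - v X‖ + ‖v X - b‖) + (‖u N - v N‖ + ‖v N - b‖) := by
    rw [e]
    exact (norm_sub_le _ _).trans (add_le_add (norm_add_le _ _) (norm_add_le _ _))
  have b1' : ‖u X - v X‖ ≤ ε / 8 := b1
  have b2' : ‖u N - v N‖ ≤ ε / 8 := b2
  have a1' : ‖v X - b‖ < ε / 8 := a1
  have a3' : ‖v N - b‖ < ε / 8 := a3
  have : ‖u X - u N‖ < ε := by linarith
  exact this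

/-- collecting equal frequencies -/
lemma collect {ι : Type*} (I : Finset ι) (a : ι → ℂ) (l : ι → ℝ) :
    ∃ (F : Finset ℝ) (c : ℝ → ℂ), (0:ℝ) ∈ F ∧ (∀ x ∈ F, x = 0 ∨ ∃ i ∈ I, x = l i) ∧
      ∀ t, ∑ i ∈ I, a i * ex (l i) t = VF F c t := by
  classical
  refine ⟨insert 0 (I.image l), fun x => ∑ i ∈ I.filter (fun i => l i = x), a i, mem_insert_self _ _, ?_, ?_⟩
  · intro x hx
    rw [mem_insert, mem_image] at hx
    rcases hx with h | ⟨i, hi, h⟩
    · exact Or.inl h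
    · exact Or.inr ⟨i, hi, h.symm⟩
  · intro t
    unfold VF
    have h1 : ∀ i ∈ I, l i ∈ insert 0 (I.image l) := fun i hi =>
      mem_insert_of_mem (mem_image_of_mem _ hi)
    rw [← sum_fiberwise_of_maps_to h1]
    refine sum_congr rfl fun x _ => ?_
    rw [sum_mul]
    refine sum_congr rfl fun i hi => ?_
    rw [mem_filter] at hi
    rw [hi.2]

end

end Pool.Agent.W5h32.KS
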