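import Pool.Agent.W5h32.KS.G
import Pool.Agent.W5h32.KS.I

set_option autoImplicit false

/-! The local factor as an absolutely convergent Dirichlet series. -/

namespace Pool.Agent.W5h32.KS

open Finset MeasureTheory Filter Topology
open Pool.Agent.H306R2 Pool.Agent.R311.BS

noncomputable section

/-- `∏_{p ∈ S} (1 - p^{-1/2-it})⁻¹` -/
def eulerS (S : Finset ℕ) (t : ℝ) : ℂ := ∏ p ∈ S, (1 - (p : ℂ) ^ (-(1 / 2 + t * Complex.I)))⁻¹

/-- normalised coefficients -/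
def bm (κ : ℝ) (m : ℕ) : ℝ := dv κ m * (Real.sqrt m)⁻¹

/-- terms of the series -/
def fm (κ t : ℝ) (m : ℕ) : ℂ := (bm κ m : ℂ) * ex (-Real.log m) t

lemma bm_nonneg {κ : ℝ} (hκ : 0 ≤ κ) (m : ℕ) : 0 ≤ bm κ m := mul_nonneg (dv_nonneg hκ m) (by positivity)

lemma bm_zero (κ : ℝ) : bm κ 0 = 0 := by simp [bm, dv]

lemma bm_one (κ : ℝ) : bm κ 1 = 1 := by simp [bm, dv_one]

lemma bm_mul (κ : ℝ) {m n : ℕ} (h : m.Coprime n) : bm κ (m * n) = bm κ m * bm κ n := by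
  have h2 := (dA_mult κ).map_mul_of_coprime h
  rw [dA_apply, dA_apply, dA_apply] at h2
  unfold bm
  rw [h2, Nat.cast_mul, Real.sqrt_mul (Nat.cast_nonneg m), mul_inv]
  ring

lemma fm_norm {κ : ℝ} (hκ : 0 ≤ κ) (t : ℝ) (m : ℕ) : ‖fm κ t m‖ = bm κ m := by
  unfold fm
  rw [norm_mul, ex_norm, mul_one, Complex.norm_real, Real.norm_of_nonneg (bm_nonneg hκ m)]

lemma fm_one (κ t : ℝ) : fm κ t 1 = 1 := by
  unfold fm ex
  rw [bm_one]
  simp

lemma fm_mul (κ t : ℝ) {m n : ℕ} (h : m.Coprime n) : fm κ t (m * n) = fm κ t m * fm κ t n := by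
  by_cases hm : m = 0
  · subst hm; unfold fm; rw [zero_mul, bm_zero]; simp
  by_cases hn : n = 0
  · subst hn; unfold fm; rw [mul_zero, bm_zero]; simp
  unfold fm
  have hm0 : (m:ℝ) ≠ 0 := by exact_mod_cast hm
  have hn0 : (n:ℝ) ≠ 0 := by exact_mod_cast hn
  rw [bm_mul κ h, Nat.cast_mul, Real.log_mul hm0 hn0, neg_add, ex_add]
  push_cast
  ring

lemma cpow_eq {p : ℕ} (hp : 1 ≤ p) (t : ℝ) : (p : ℂ) ^ (-(1 / 2 + t * Complex.I)) =
    ((Real.sqrt p)⁻¹ : ℝ) * ex (-Real.log p) t := ncpow_line p hp t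

lemma cpow_norm {p : ℕ} (hp : 1 ≤ p) (t : ℝ) : ‖(p : ℂ) ^ (-(1 / 2 + t * Complex.I))‖ = (Real.sqrt p)⁻¹ := by
  rw [cpow_eq hp, norm_mul, ex_norm, mul_one, Complex.norm_real, Real.norm_of_nonneg (by positivity)]

lemma sqrt_inv_lt {p : ℕ} (hp : p.Prime) : 0 < (Real.sqrt p)⁻¹ ∧ (Real.sqrt p)⁻¹ < 1 := by
  have h1 : (1:ℝ) < p := by exact_mod_cast hp.one_lt
  have h2 : 1 < Real.sqrt p := by rw [Real.lt_sqrt (by norm_num)]; simpa using h1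
  exact ⟨by positivity, inv_lt_one_of_one_lt₀ h2⟩

lemma ex_pow (x t : ℝ) (j : ℕ) : ex x t ^ j = ex (j * x) t := by
  unfold ex
  rw [← Complex.exp_nat_mul]
  congr 1
  push_cast
  ring

lemma fm_prime_pow (κ t : ℝ) {p : ℕ} (hp : p.Prime) (j : ℕ) :
    fm κ t (p ^ j) = (lc κ j : ℂ) * ((p : ℂ) ^ (-(1 / 2 + t * Complex.I))) ^ j := by
  have hp1 : 1 ≤ p := hp.one_le
  rw [cpow_eq hp1, mul_pow, ex_pow]
  unfold fm bm
  rw [dv_prime_pow κ hp, Nat.cast_pow, Real.log_pow]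
  have h1 : Real.sqrt ((p:ℝ) ^ j) = Real.sqrt p ^ j := by
    rw [Real.sqrt_eq_iff_mul_self_eq (by positivity) (by positivity), ← mul_pow,
      Real.mul_self_sqrt (Nat.cast_nonneg p)]
  rw [h1]
  push_cast
  rw [inv_pow]
  ring_nf

lemma bm_prime_pow (κ : ℝ) {p : ℕ} (hp : p.Prime) (j : ℕ) :
    bm κ (p ^ j) = lc κ j * ((Real.sqrt p)⁻¹) ^ j := by
  unfold bm
  rw [dv_prime_pow κ hp, Nat.cast_pow]
  have h1 : Real.sqrt ((p:ℝ) ^ j) = Real.sqrt p ^ j := by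
    rw [Real.sqrt_eq_iff_mul_self_eq (by positivity) (by positivity), ← mul_pow,
      Real.mul_self_sqrt (Nat.cast_nonneg p)]
  rw [h1, inv_pow]

/-! ### The binomial series -/

lemma lcz_summable {α : ℝ} (hα : 0 < α) {z : ℂ} (hz0 : z ≠ 0) (hz : ‖z‖ < 1) :
    Summable fun j : ℕ => ‖(lc α j : ℂ) * z ^ j‖ := by
  have h := lc_summable hα (norm_pos_iff.mpr hz0) hz
  refine h.congr fun j => ?_
  rw [norm_mul, norm_pow, Complex.norm_real, Real.norm_of_nonneg (lc_nonneg hα.le j)]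

lemma bin_mul {α β : ℝ} (hα : 0 < α) (hβ : 0 < β) {z : ℂ} (hz0 : z ≠ 0) (hz : ‖z‖ < 1) :
    (∑' j : ℕ, (lc α j : ℂ) * z ^ j) * (∑' j : ℕ, (lc β j : ℂ) * z ^ j) =
      ∑' j : ℕ, (lc (α + β) j : ℂ) * z ^ j := by
  rw [tsum_mul_tsum_eq_tsum_sum_antidiagonal_of_summable_norm (lcz_summable hα hz0 hz)
    (lcz_summable hβ hz0 hz)]
  refine tsum_congr fun n => ?_
  rw [← lc_conv α β n]
  push_cast
  rw [sum_mul]
  refine sum_congr rfl fun x hx => ?_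
  rw [HasAntidiagonal.mem_antidiagonal] at hx
  rw [← hx, pow_add]
  ring

lemma bin_nat (n : ℕ) {z : ℂ} (hz0 : z ≠ 0) (hz : ‖z‖ < 1) :
    ∑' j : ℕ, (lc ((n + 1 : ℕ) : ℝ) j : ℂ) * z ^ j = ((1 - z)⁻¹) ^ (n + 1) := by
  induction n with
  | zero =>
    have h1 : ∀ j : ℕ, (lc ((0 + 1 : ℕ) : ℝ) j : ℂ) * z ^ j = z ^ j := by
      intro j
      rw [zero_add, Nat.cast_one, lc_one_left]
      simp
    simp only [h1]
    rw [tsum_geometric_of_norm_lt_one hz, zero_add, pow_one]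
  | succ n ih =>
    have h1 := bin_mul (α := ((n + 1 : ℕ) : ℝ)) (β := 1) (by positivity) one_pos hz0 hz
    rw [ih] at h1
    have h2 : ∑' j : ℕ, (lc (1:ℝ) j : ℂ) * z ^ j = (1 - z)⁻¹ := by
      simp only [lc_one_left, Complex.ofReal_one, one_mul]
      exact tsum_geometric_of_norm_lt_one hz
    rw [h2, ← pow_succ] at h1
    rw [h1]
    push_cast
    rfl

lemma bin_sq (q : ℕ) (hq : 1 ≤ q) {z : ℂ} (hz0 : z ≠ 0) (hz : ‖z‖ < 1) :
    ‖∑' j : ℕ, (lc ((q:ℝ) / 2) j : ℂ) * z ^ j‖ ^ 2 = ‖(1 - z)⁻¹‖ ^ q := by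
  have hq0 : (0:ℝ) < (q:ℝ) / 2 := by
    have : (1:ℝ) ≤ q := by exact_mod_cast hq
    linarith
  have h1 := bin_mul hq0 hq0 hz0 hz
  rw [add_halves] at h1
  obtain ⟨n, rfl⟩ : ∃ n, q = n + 1 := ⟨q - 1, by omega⟩
  rw [bin_nat n hz0 hz] at h1
  rw [← norm_pow, sq, h1, norm_pow]

/-! ### The series over the `S`-smooth numbers -/

lemma filt {S : Finset ℕ} (hS : ∀ p ∈ S, p.Prime) : S.filter Nat.Prime = S :=
  filter_true_of_mem hS

theorem series (q : ℕ) (hq : 1 ≤ q) {S : Finset ℕ} (hS : ∀ p ∈ S, p.Prime) (t : ℝ) :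
    Summable (fun m : Nat.factoredNumbers S => bm ((q:ℝ) / 2) m) ∧
    ∃ G : ℂ, HasSum (fun m : Nat.factoredNumbers S => fm ((q:ℝ) / 2) t m) G ∧ ‖G‖ ^ 2 = ‖eulerS S t‖ ^ q := by
  have hq1 : (1:ℝ) ≤ q := by exact_mod_cast hq
  have hq0 : (0:ℝ) < (q:ℝ) / 2 := by linarith
  have hz : ∀ p : ℕ, p.Prime → (p : ℂ) ^ (-(1 / 2 + t * Complex.I)) ≠ 0 ∧
      ‖(p : ℂ) ^ (-(1 / 2 + t * Complex.I))‖ < 1 := by
    intro p hp
    have h1 := sqrt_inv_lt hp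
    rw [← cpow_norm hp.one_le t] at h1
    exact ⟨norm_pos_iff.mp h1.1, h1.2⟩
  have h := EulerProduct.summable_and_hasSum_factoredNumbers_prod_filter_prime_tsum
    (f := fm ((q:ℝ) / 2) t) (fm_one _ _) (fun {m n} hmn => fm_mul _ _ hmn) (by
      intro p hp
      simp only [fm_prime_pow _ _ hp]
      exact lcz_summable hq0 (hz p hp).1 (hz p hp).2) S
  constructor
  · refine h.1.congr fun m => ?_
    exact fm_norm hq0.le t m
  · refine ⟨_, h.2, ?_⟩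
    rw [filt hS, norm_prod, ← prod_pow]
    unfold eulerS
    rw [norm_prod, ← prod_pow]
    refine prod_congr rfl fun p hp => ?_
    simp only [fm_prime_pow _ _ (hS p hp)]
    exact bin_sq q hq (hz p (hS p hp)).1 (hz p (hS p hp)).2

theorem series_sq (q : ℕ) (hq : 1 ≤ q) {S : Finset ℕ} (hS : ∀ p ∈ S, p.Prime) :
    HasSum (fun m : Nat.factoredNumbers S => bm ((q:ℝ) / 2) m ^ 2) (∏ p ∈ S, loc ((q:ℝ) / 2) p) := by
  have hq1 : (1:ℝ) ≤ q := by exact_mod_cast hq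
  have hq0 : (0:ℝ) < (q:ℝ) / 2 := by linarith
  have e1 : ∀ p : ℕ, p.Prime → ∀ j : ℕ, bm ((q:ℝ) / 2) (p ^ j) ^ 2 =
      lc ((q:ℝ) / 2) j ^ 2 * (1 / (p:ℝ)) ^ j := by
    intro p hp j
    rw [bm_prime_pow _ hp, mul_pow, ← pow_mul, mul_comm j 2, pow_mul, inv_pow,
      Real.sq_sqrt (Nat.cast_nonneg p), one_div]
  have h := EulerProduct.summable_and_hasSum_factoredNumbers_prod_filter_prime_tsum
    (f := fun m => bm ((q:ℝ) / 2) m ^ 2) (by simp only [bm_one]; norm_num)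
    (fun {m n} hmn => by simp only [bm_mul _ hmn]; ring) (by
      intro p hp
      simp only [e1 p hp]
      refine (loc_summable hq0 hp).congr fun j => ?_
      rw [Real.norm_of_nonneg]
      positivity) S
  have h2 := h.2
  rw [filt hS] at h2
  have e2 : ∏ p ∈ S, ∑' n : ℕ, bm ((q:ℝ) / 2) (p ^ n) ^ 2 = ∏ p ∈ S, loc ((q:ℝ) / 2) p := by
    refine prod_congr rfl fun p hp => ?_
    unfold loc
    exact tsum_congr fun j => e1 p (hS p hp) j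
  rw [e2] at h2
  exact h2

end

end Pool.Agent.W5h32.KS
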