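import Pool.Agent.W5h32.KS.H
import Pool.Agent.W5h32.KS.J

set_option autoImplicit false

/-! Almost periodic weights: the final theorem. -/

namespace Pool.Agent.W5h32.KS

open Finset MeasureTheory Filter Topology
open Pool.Agent.H306R2 Pool.Agent.R311.BS

noncomputable section

/-- `m` has no prime factor outside `S` -/
def Smooth (S : Finset ℕ) (m : ℕ) : Prop := 1 ≤ m ∧ ∀ p : ℕ, p.Prime → p ∣ m → p ∈ S

lemma smooth_of_mem {S : Finset ℕ} {m : ℕ} (h : m ∈ Nat.factoredNumbers S) : Smooth S m := by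
  rw [Nat.mem_factoredNumbers] at h
  refine ⟨Nat.one_le_iff_ne_zero.mpr h.1, fun p hp hpm => h.2 p ?_⟩
  rw [Nat.mem_primeFactorsList h.1]
  exact ⟨hp, hpm⟩

/-- approximation of the local factor -/
theorem loc_approx (q : ℕ) (hq : 1 ≤ q) {S : Finset ℕ} (hS : ∀ p ∈ S, p.Prime) : ∃ B : ℝ, 0 ≤ B ∧
    (∀ t, ‖eulerS S t‖ ^ q ≤ B) ∧ ∀ ε : ℝ, 0 < ε → ∃ A : Finset ℕ, (∀ m ∈ A, Smooth S m) ∧
      (∀ t, ‖((‖eulerS S t‖ ^ q : ℝ) : ℂ) - ∑ i ∈ A ×ˢ A, ((bm ((q:ℝ) / 2) i.1 * bm ((q:ℝ) / 2) i.2 : ℝ) : ℂ) *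
        ex (Real.log i.2 - Real.log i.1) t‖ ≤ ε) ∧
      (∏ p ∈ S, loc ((q:ℝ) / 2) p) - ε ≤ ∑ m ∈ A, bm ((q:ℝ) / 2) m ^ 2 := by
  classical
  have hκ : (0:ℝ) ≤ (q:ℝ) / 2 := by positivity
  set κ : ℝ := (q:ℝ) / 2 with hκd
  have hb := (series q hq hS 0).1
  obtain ⟨B, hB⟩ : ∃ B : ℝ, B = ∑' m : Nat.factoredNumbers S, bm κ m := ⟨_, rfl⟩
  have hB0 : 0 ≤ B := by rw [hB]; exact tsum_nonneg fun m => bm_nonneg hκ _
  have hG : ∀ t : ℝ, ∃ G : ℂ, HasSum (fun m : Nat.factoredNumbers S => fm κ t m) G ∧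
      ‖G‖ ^ 2 = ‖eulerS S t‖ ^ q := fun t => (series q hq hS t).2
  choose G hG1 hG2 using hG
  have hGB : ∀ t, ‖G t‖ ≤ B := by
    intro t
    rw [← (hG1 t).tsum_eq, hB]
    have h1 : Summable fun m : Nat.factoredNumbers S => ‖fm κ t m‖ := hb.congr fun m => (fm_norm hκ t m).symm
    refine (norm_tsum_le_tsum_norm h1).trans (le_of_eq (tsum_congr fun m => fm_norm hκ t m))
  refine ⟨B ^ 2, by positivity, fun t => ?_, fun ε hε => ?_⟩
  · rw [← hG2]
    exact pow_le_pow_left₀ (norm_nonneg _) (hGB t) 2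
  obtain ⟨e, he⟩ : ∃ e : ℝ, e = ε / (2 * B + 1) := ⟨_, rfl⟩
  have he0 : 0 < e := by rw [he]; positivity
  have hbs : HasSum (fun m : Nat.factoredNumbers S => bm κ m) B := by rw [hB]; exact hb.hasSum
  have h1 : ∀ᶠ A : Finset (Nat.factoredNumbers S) in atTop, B - e < ∑ m ∈ A, bm κ m :=
    hbs.eventually (lt_mem_nhds (by linarith))
  have h2 : ∀ᶠ A : Finset (Nat.factoredNumbers S) in atTop,
      (∏ p ∈ S, loc κ p) - ε < ∑ m ∈ A, bm κ m ^ 2 :=
    (series_sq q hq hS).eventually (lt_mem_nhds (by linarith))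
  obtain ⟨A, hA1, hA2⟩ := (h1.and h2).exists
  refine ⟨A.map (Function.Embedding.subtype _), ?_, ?_, ?_⟩
  · intro m hm
    rw [Finset.mem_map] at hm
    obtain ⟨x, _, rfl⟩ := hm
    exact smooth_of_mem x.2
  · intro t
    obtain ⟨H, hH⟩ : ∃ H : ℂ, H = ∑ m ∈ A, fm κ t m := ⟨_, rfl⟩
    have hHB : ‖H‖ ≤ B := by
      rw [hH]
      refine (norm_sum_le _ _).trans ?_
      simp only [fm_norm hκ]
      rw [hB]
      exact hb.sum_le_tsum _ fun m _ => bm_nonneg hκ _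
    have hdist : ‖G t - H‖ ≤ e := by
      have h3 := (hG1 t).summable.sum_add_tsum_compl (s := A)
      rw [(hG1 t).tsum_eq] at h3
      have h4 := hb.sum_add_tsum_compl (s := A)
      rw [← hB] at h4
      have h5 : G t - H = ∑' x : ↑((A : Set (Nat.factoredNumbers S))ᶜ), fm κ t x := by
        rw [hH, ← h3]; ring
      rw [h5]
      have h6 : Summable fun x : ↑((A : Set (Nat.factoredNumbers S))ᶜ) => ‖fm κ t x‖ := by
        have := hb.subtype ((A : Set (Nat.factoredNumbers S))ᶜ)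
        exact this.congr fun m => (fm_norm hκ t m).symm
      refine (norm_tsum_le_tsum_norm h6).trans ?_
      simp only [fm_norm hκ]
      linarith
    have hprod : ∑ i ∈ (A.map (Function.Embedding.subtype _)) ×ˢ (A.map (Function.Embedding.subtype _)),
        ((bm κ i.1 * bm κ i.2 : ℝ) : ℂ) * ex (Real.log i.2 - Real.log i.1) t = ((‖H‖ ^ 2 : ℝ) : ℂ) := by
      rw [sum_product, sum_map]
      have e1 : ((‖H‖ ^ 2 : ℝ) : ℂ) = H * (starRingEnd ℂ) H := by
        rw [Complex.mul_conj, Complex.normSq_eq_norm_sq]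
      rw [e1, hH, map_sum, sum_mul_sum]
      refine sum_congr rfl fun m _ => ?_
      rw [sum_map]
      refine sum_congr rfl fun n _ => ?_
      unfold fm
      rw [map_mul, Complex.conj_ofReal]
      have e2 : (starRingEnd ℂ) (ex (-Real.log ((n : ℕ) : ℝ)) t) = ex (Real.log ((n : ℕ) : ℝ)) t := by
        unfold ex
        rw [← Complex.exp_conj, map_mul, Complex.conj_ofReal, Complex.conj_I]
        congr 1
        push_cast
        ring
      rw [e2, sub_eq_add_neg, ex_add]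
      simp only [Function.Embedding.subtype_apply]
      push_cast
      ring
    rw [hprod, ← hG2, ← Complex.ofReal_sub, Complex.norm_real, Real.norm_eq_abs]
    have h7 : |‖G t‖ - ‖H‖| ≤ e := (abs_norm_sub_norm_le _ _).trans hdist
    have h8 : ‖G t‖ ^ 2 - ‖H‖ ^ 2 = (‖G t‖ - ‖H‖) * (‖G t‖ + ‖H‖) := by ring
    rw [h8, abs_mul, abs_of_nonneg (by positivity : (0:ℝ) ≤ ‖G t‖ + ‖H‖)]
    calc |‖G t‖ - ‖H‖| * (‖G t‖ + ‖H‖) ≤ e * (B + B) := by
          have := hGB t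
          gcongr
      _ ≤ ε := by
          rw [he, div_mul_eq_mul_div, div_le_iff₀ (by positivity)]
          nlinarith
  · rw [sum_map]
    exact hA2.le

lemma allowed_add {S : Finset ℕ} {x : ℝ} (hx : Allowed S x) {m n : ℕ} (hm : Smooth S m) (hn : Smooth S n) :
    Allowed S (x + (Real.log n - Real.log m)) := by
  intro a b ha hb hab h p hp hpd
  by_contra hpS
  have hpm : ¬ p ∣ m := fun h' => hpS (hm.2 p hp h')
  have hpn : ¬ p ∣ n := fun h' => hpS (hn.2 p hp h')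
  have ha0 : (a:ℝ) ≠ 0 := by exact_mod_cast (by omega : a ≠ 0)
  have hb0 : (b:ℝ) ≠ 0 := by exact_mod_cast (by omega : b ≠ 0)
  have hm0 : (m:ℝ) ≠ 0 := by have := hm.1; exact_mod_cast (by omega : m ≠ 0)
  have hn0 : (n:ℝ) ≠ 0 := by have := hn.1; exact_mod_cast (by omega : n ≠ 0)
  have ham : 0 < a * m := Nat.mul_pos ha hm.1
  have hbn : 0 < b * n := Nat.mul_pos hb hn.1
  obtain ⟨g, a', b', hg, hcop, e1, e2⟩ := Nat.exists_coprime' (m := a * m) (n := b * n)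
    (Nat.gcd_pos_of_pos_left _ ham)
  have hg0 : (g:ℝ) ≠ 0 := by exact_mod_cast hg.ne'
  have ha' : 1 ≤ a' := Nat.one_le_iff_ne_zero.mpr fun h' => by rw [h', zero_mul] at e1; omega
  have hb' : 1 ≤ b' := Nat.one_le_iff_ne_zero.mpr fun h' => by rw [h', zero_mul] at e2; omega
  have ha'0 : (a':ℝ) ≠ 0 := by exact_mod_cast (by omega : a' ≠ 0)
  have hb'0 : (b':ℝ) ≠ 0 := by exact_mod_cast (by omega : b' ≠ 0)
  have hxx : x = Real.log a' - Real.log b' := by
    have f1 : Real.log a + Real.log m = Real.log a' + Real.log g := by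
      rw [← Real.log_mul ha0 hm0, ← Real.log_mul ha'0 hg0]
      congr 1
      exact_mod_cast e1
    have f2 : Real.log b + Real.log n = Real.log b' + Real.log g := by
      rw [← Real.log_mul hb0 hn0, ← Real.log_mul hb'0 hg0]
      congr 1
      exact_mod_cast e2
    linarith
  have key := hx a' b' ha' hb' hcop hxx
  rcases (Nat.Prime.dvd_mul hp).mp hpd with h1 | h1
  · have h2 : ¬ p ∣ b := fun h' => by
      exact Nat.not_coprime_of_dvd_of_dvd hp.one_lt h1 h' hab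
    have h3 : ¬ p ∣ g := by
      intro h'
      have : p ∣ b * n := by rw [e2]; exact h'.mul_left _
      rcases (Nat.Prime.dvd_mul hp).mp this with h4 | h4
      · exact h2 h4
      · exact hpn h4
    have h4 : p ∣ a' * g := by rw [← e1]; exact h1.mul_right _
    rcases (Nat.Prime.dvd_mul hp).mp h4 with h5 | h5
    · exact hpS (key p hp (h5.mul_right _))
    · exact h3 h5
  · have h2 : ¬ p ∣ a := fun h' => by
      exact Nat.not_coprime_of_dvd_of_dvd hp.one_lt h' h1 hab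
    have h3 : ¬ p ∣ g := by
      intro h'
      have : p ∣ a * m := by rw [e1]; exact h'.mul_left _
      rcases (Nat.Prime.dvd_mul hp).mp this with h4 | h4
      · exact h2 h4
      · exact hpm h4
    have h4 : p ∣ b' * g := by rw [← e2]; exact h1.mul_right _
    rcases (Nat.Prime.dvd_mul hp).mp h4 with h5 | h5
    · exact hpS (key p hp (h5.mul_left _))
    · exact h3 h5

/-- almost periodic functions whose frequencies are allowed -/
def APS (S : Finset ℕ) (w : ℝ → ℝ) : Prop :=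
  ∀ ε : ℝ, 0 < ε → ∃ (F : Finset ℝ) (c : ℝ → ℂ), (∀ x ∈ F, Allowed S x) ∧
    ∀ t : ℝ, ‖(w t : ℂ) - VF F c t‖ ≤ ε

lemma APS.cont {S : Finset ℕ} {w : ℝ → ℝ} (h : APS S w) : Continuous w := by
  have h1 : Continuous fun t : ℝ => (w t : ℂ) := by
    refine continuous_of_uniform_approx_of_continuous fun u hu => ?_
    obtain ⟨ε, hε, hu⟩ := Metric.mem_uniformity_dist.mp hu
    obtain ⟨F, c, _, hF⟩ := h (ε / 2) (by positivity)
    refine ⟨VF F c, VF_cont F c, fun y => hu ?_⟩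
    rw [dist_eq_norm]
    linarith [hF y]
  exact (Complex.continuous_re.comp h1).congr fun t => Complex.ofReal_re _

lemma APS.shift {S : Finset ℕ} {w : ℝ → ℝ} (h : APS S w) (r : ℝ) : APS S fun t => w (t + r) := by
  intro ε hε
  obtain ⟨F, c, hF, hc⟩ := h ε hε
  refine ⟨F, fun x => c x * ex x r, hF, fun t => ?_⟩
  have e1 : VF F (fun x => c x * ex x r) t = VF F c (t + r) := by
    unfold VF
    refine sum_congr rfl fun x _ => ?_
    have : ex x (t + r) = ex x r * ex x t := by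
      unfold ex
      rw [← Complex.exp_add]
      congr 1
      push_cast
      ring
    rw [this]
    ring
  rw [e1]
  exact hc (t + r)

/-- collecting equal frequencies, uniformly in the coefficients -/
lemma collect' {ι : Type*} (I : Finset ι) (l : ι → ℝ) :
    ∃ F : Finset ℝ, (0:ℝ) ∈ F ∧ (∀ x ∈ F, x = 0 ∨ ∃ i ∈ I, x = l i) ∧ ∀ a : ι → ℂ, ∃ c : ℝ → ℂ,
      ∑ x ∈ F, ‖c x‖ ≤ ∑ i ∈ I, ‖a i‖ ∧ ∀ t, ∑ i ∈ I, a i * ex (l i) t = VF F c t := by
  classical
  have h1 : ∀ i ∈ I, l i ∈ insert 0 (I.image l) := fun i hi =>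
    mem_insert_of_mem (mem_image_of_mem _ hi)
  refine ⟨insert 0 (I.image l), mem_insert_self _ _, ?_, fun a =>
    ⟨fun x => ∑ i ∈ I.filter (fun i => l i = x), a i, ?_, ?_⟩⟩
  · intro x hx
    rw [mem_insert, mem_image] at hx
    rcases hx with h | ⟨i, hi, h⟩
    · exact Or.inl h
    · exact Or.inr ⟨i, hi, h.symm⟩
  · rw [← sum_fiberwise_of_maps_to h1 (fun i => ‖a i‖)]
    exact sum_le_sum fun x _ => norm_sum_le _ _
  · intro t
    unfold VF
    rw [← sum_fiberwise_of_maps_to h1]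
    refine sum_congr rfl fun x _ => ?_
    rw [sum_mul]
    refine sum_congr rfl fun i hi => ?_
    rw [mem_filter] at hi
    rw [hi.2]

/-- a bound for almost periodic functions -/
lemma APS.bdd {S : Finset ℕ} {w : ℝ → ℝ} (hw : APS S w) : ∃ W : ℝ, 0 ≤ W ∧ ∀ t, |w t| ≤ W := by
  obtain ⟨F0, c0, _, hF0⟩ := hw 1 one_pos
  have h : ∀ t, |w t| ≤ 1 + ∑ x ∈ F0, ‖c0 x‖ := by
    intro t
    have h1 := norm_sub_norm_le (w t : ℂ) (VF F0 c0 t)
    have h2 := VF_norm F0 c0 _ le_rfl t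
    rw [Complex.norm_real, Real.norm_eq_abs] at h1
    linarith [hF0 t]
  exact ⟨_, (abs_nonneg _).trans (h 0), h⟩

theorem weight_approx (q : ℕ) (hq : 1 ≤ q) {S : Finset ℕ} (hS : ∀ p ∈ S, p.Prime) {w : ℝ → ℝ}
    (hw : APS S w) (ε : ℝ) (hε : 0 < ε) : ∃ (F : Finset ℝ) (K : ℝ), 0 ≤ K ∧ (0:ℝ) ∈ F ∧
      (∀ x ∈ F, Allowed S x) ∧ ∀ r : ℝ, ∃ c : ℝ → ℂ, ∑ x ∈ F, ‖c x‖ ≤ K ∧
        ∀ t, ‖((w (t + r) * ‖eulerS S t‖ ^ q : ℝ) : ℂ) - VF F c t‖ ≤ ε := by
  classical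
  obtain ⟨B, hB0, hB, hloc⟩ := loc_approx q hq hS
  obtain ⟨W, hW0, hWt⟩ := hw.bdd
  obtain ⟨F, c, hFa, hF⟩ := hw (min 1 (ε / (2 * (B + 1)))) (lt_min one_pos (by positivity))
  obtain ⟨A, hA1, hA2, _⟩ := hloc (ε / (2 * (W + 1))) (by positivity)
  obtain ⟨F', h0, hF', hc'⟩ := collect' (F ×ˢ (A ×ˢ A))
    (fun i => i.1 + (Real.log i.2.2 - Real.log i.2.1))
  refine ⟨F', ∑ i ∈ F ×ˢ (A ×ˢ A), ‖c i.1 * ((bm ((q:ℝ) / 2) i.2.1 * bm ((q:ℝ) / 2) i.2.2 : ℝ) : ℂ)‖,
    sum_nonneg fun _ _ => norm_nonneg _, h0, ?_, fun r => ?_⟩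
  · intro x hx
    rcases hF' x hx with h | ⟨i, hi, h⟩
    · rw [h]; exact allowed_zero S
    · rw [mem_product, mem_product] at hi
      rw [h]
      exact allowed_add (hFa _ hi.1) (hA1 _ hi.2.1) (hA1 _ hi.2.2)
  obtain ⟨c', hcn, hct⟩ := hc' (fun i => ex i.1 r *
    (c i.1 * ((bm ((q:ℝ) / 2) i.2.1 * bm ((q:ℝ) / 2) i.2.2 : ℝ) : ℂ)))
  refine ⟨c', hcn.trans (le_of_eq (sum_congr rfl fun i _ => ?_)), fun t => ?_⟩
  · rw [norm_mul, ex_norm, one_mul]
  · rw [← hct t]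
    set U : ℂ := ∑ i ∈ A ×ˢ A, ((bm ((q:ℝ) / 2) i.1 * bm ((q:ℝ) / 2) i.2 : ℝ) : ℂ) *
        ex (Real.log i.2 - Real.log i.1) t with hU
    have e1 : ∑ i ∈ F ×ˢ (A ×ˢ A), ex i.1 r *
        (c i.1 * ((bm ((q:ℝ) / 2) i.2.1 * bm ((q:ℝ) / 2) i.2.2 : ℝ) : ℂ)) *
        ex (i.1 + (Real.log i.2.2 - Real.log i.2.1)) t = VF F c (t + r) * U := by
      unfold VF
      rw [hU, sum_mul_sum, sum_product]
      refine sum_congr rfl fun x _ => sum_congr rfl fun y _ => ?_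
      have : ex x (t + r) = ex x r * ex x t := by
        unfold ex
        rw [← Complex.exp_add]
        congr 1
        push_cast
        ring
      rw [ex_add, this]
      ring
    rw [e1]
    have e2 : ((w (t + r) * ‖eulerS S t‖ ^ q : ℝ) : ℂ) - VF F c (t + r) * U =
        ((w (t + r) : ℂ) - VF F c (t + r)) * ((‖eulerS S t‖ ^ q : ℝ) : ℂ) +
          VF F c (t + r) * (((‖eulerS S t‖ ^ q : ℝ) : ℂ) - U) := by
      push_cast
      ring
    rw [e2]
    refine (norm_add_le _ _).trans ?_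
    rw [norm_mul, norm_mul, Complex.norm_real, Real.norm_of_nonneg (by positivity)]
    have h1 := hF (t + r)
    have h1a := h1.trans (min_le_left _ _)
    have h1b := h1.trans (min_le_right _ _)
    have h2 : ‖VF F c (t + r)‖ ≤ W + 1 := by
      have h3 := norm_sub_norm_le (VF F c (t + r)) (w (t + r) : ℂ)
      rw [norm_sub_rev, Complex.norm_real, Real.norm_eq_abs] at h3
      linarith [hWt (t + r)]
    have h4 := hB t
    have h5 := hA2 t
    have h6 : ‖(w (t + r) : ℂ) - VF F c (t + r)‖ * ‖eulerS S t‖ ^ q ≤ ε / 2 := by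
      calc _ ≤ ε / (2 * (B + 1)) * B := by gcongr
        _ ≤ ε / 2 := by
            rw [div_mul_eq_mul_div, div_le_div_iff₀ (by positivity) (by norm_num)]
            nlinarith
    have h7 : ‖VF F c (t + r)‖ * ‖((‖eulerS S t‖ ^ q : ℝ) : ℂ) - U‖ ≤ ε / 2 := by
      calc _ ≤ (W + 1) * (ε / (2 * (W + 1))) := by gcongr
        _ = ε / 2 := by field_simp
    linarith

end

end Pool.Agent.W5h32.KS
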