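import Pool.Agent.W5h32.KS.K

set_option autoImplicit false

/-! The Euler factor and the mean values. -/

namespace Pool.Agent.W5h32.KS

open Finset MeasureTheory Filter Topology
open Pool.Agent.H306R2 Pool.Agent.R311.BS

noncomputable section

/-- `n ^ (-s)` as an arithmetic function -/
def npow (s : ℂ) : ArithmeticFunction ℂ := ⟨fun n => if n = 0 then 0 else (n : ℂ) ^ (-s), by simp⟩

lemma npow_apply (s : ℂ) (n : ℕ) (hn : n ≠ 0) : npow s n = (n : ℂ) ^ (-s) := by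
  show (if n = 0 then (0:ℂ) else (n : ℂ) ^ (-s)) = _
  rw [if_neg hn]

lemma npow_mult (s : ℂ) : (npow s).IsMultiplicative := by
  rw [ArithmeticFunction.IsMultiplicative.iff_ne_zero]
  constructor
  · rw [npow_apply s 1 one_ne_zero]; simp
  · intro m n hm hn _
    rw [npow_apply s _ (mul_ne_zero hm hn), npow_apply s _ hm, npow_apply s _ hn]
    rw [Nat.cast_mul, Complex.natCast_mul_natCast_cpow]

lemma PS_sqf {S : Finset ℕ} (hS : ∀ p ∈ S, p.Prime) : Squarefree (PS S) := by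
  unfold PS
  refine Finset.squarefree_prod_of_pairwise_isCoprime (fun p hp r hr hpr => ?_) (fun p hp => ?_)
  · rw [Function.onFun, ← Nat.coprime_iff_isRelPrime]
    exact (Nat.coprime_primes (hS p hp) (hS r hr)).mpr hpr
  · exact (hS p hp).prime.squarefree

theorem ES_eq {S : Finset ℕ} (hS : ∀ p ∈ S, p.Prime) (t : ℝ) :
    ES (PS S) t = ∏ p ∈ S, (1 - (p : ℂ) ^ (-(1 / 2 + t * Complex.I))) := by
  have hP := PS_pos hS
  have hP0 : PS S ≠ 0 := by omega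
  have h1 := ArithmeticFunction.IsMultiplicative.prodPrimeFactors_one_sub_of_squarefree
    (npow (1 / 2 + t * Complex.I)) (npow_mult (1 / 2 + t * Complex.I)) (PS_sqf hS)
  have h2 : (PS S).primeFactors = S := Nat.primeFactors_prod hS
  rw [h2] at h1
  have h3 : ∏ p ∈ S, (1 - (p : ℂ) ^ (-(1 / 2 + t * Complex.I))) =
      ∏ p ∈ S, (1 - npow (1 / 2 + t * Complex.I) p) := by
    refine prod_congr rfl fun p hp => ?_
    rw [npow_apply _ _ (hS p hp).ne_zero]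
  rw [h3, h1]
  unfold ES Dp
  rw [Nat.floor_natCast]
  have h4 : (PS S).divisors ⊆ Icc 1 (PS S) := by
    intro d hd
    rw [Nat.mem_divisors] at hd
    rw [mem_Icc]
    exact ⟨Nat.pos_of_dvd_of_pos hd.1 hP, Nat.le_of_dvd hP hd.1⟩
  symm
  refine sum_subset_zero_on_sdiff h4 ?_ ?_
  · intro d hd
    rw [Finset.mem_sdiff, mem_Icc, Nat.mem_divisors] at hd
    rw [muP_apply, if_neg, Complex.ofReal_zero, zero_mul]
    rintro ⟨h5, _⟩
    exact hd.2 ⟨h5, hP0⟩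
  · intro d hd
    rw [Nat.mem_divisors] at hd
    have hd0 : d ≠ 0 := fun h => hd.2 (by rw [h] at hd; exact Nat.eq_zero_of_zero_dvd hd.1)
    rw [muP_apply, if_pos ⟨hd.1, hd0⟩, npow_apply _ _ hd0]
    push_cast
    rfl

lemma fac_ne {p : ℕ} (hp : p.Prime) (t : ℝ) : (1 - (p : ℂ) ^ (-(1 / 2 + t * Complex.I))) ≠ 0 := by
  intro h
  have h1 : (p : ℂ) ^ (-(1 / 2 + t * Complex.I)) = 1 := (sub_eq_zero.mp h).symm
  have h2 := cpow_norm hp.one_le t
  rw [h1, norm_one] at h2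
  have h3 := (sqrt_inv_lt hp).2
  rw [← h2] at h3
  exact lt_irrefl _ h3

lemma ES_euler {S : Finset ℕ} (hS : ∀ p ∈ S, p.Prime) (t : ℝ) : ‖ES (PS S) t‖ * ‖eulerS S t‖ = 1 := by
  rw [ES_eq hS, ← norm_mul]
  unfold eulerS
  rw [← prod_mul_distrib]
  have h : ∏ p ∈ S, ((1 - (p : ℂ) ^ (-(1 / 2 + t * Complex.I))) *
      (1 - (p : ℂ) ^ (-(1 / 2 + t * Complex.I)))⁻¹) = 1 :=
    prod_eq_one fun p hp => mul_inv_cancel₀ (fac_ne (hS p hp) t)
  rw [h, norm_one]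

lemma euler_cont {S : Finset ℕ} (hS : ∀ p ∈ S, p.Prime) : Continuous fun t => ‖eulerS S t‖ := by
  refine Continuous.norm ?_
  unfold eulerS
  refine continuous_finsetProd _ fun p hp => Continuous.inv₀ ?_ fun t => fac_ne (hS p hp) t
  have : ∀ t : ℝ, 1 - (p : ℂ) ^ (-(1 / 2 + t * Complex.I)) = 1 - ((Real.sqrt p)⁻¹ : ℝ) * ex (-Real.log p) t :=
    fun t => by rw [cpow_eq (hS p hp).one_le]
  simp only [this]
  exact continuous_const.sub (continuous_const.mul (ex_cont _))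

/-- the mean value of a real function -/
def HasMean (f : ℝ → ℝ) (m : ℝ) : Prop :=
  Tendsto (fun X : ℝ => (∫ t in (0:ℝ)..X, f t) / X) atTop (𝓝 m)

lemma HasMean_of {f : ℝ → ℝ} {m : ℂ} (h : HasMeanC (fun t => (f t : ℂ)) m) : HasMean f m.re := by
  have h1 := (Complex.continuous_re.tendsto m).comp h
  refine h1.congr fun X => ?_
  show ((X : ℂ)⁻¹ * ∫ t in (0:ℝ)..X, (f t : ℂ)).re = (∫ t in (0:ℝ)..X, f t) / X
  rw [intervalIntegral.integral_ofReal, ← Complex.ofReal_inv, ← Complex.ofReal_mul, Complex.ofReal_re]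
  ring

lemma HasMean_le {f g : ℝ → ℝ} (hf : Continuous f) (hg : Continuous g) {a b : ℝ} (ha : HasMean f a)
    (hb : HasMean g b) (h : ∀ t, f t ≤ g t) : a ≤ b := by
  refine le_of_tendsto_of_tendsto ha hb ?_
  filter_upwards [eventually_gt_atTop 0] with X hX
  have h1 : ∫ t in (0:ℝ)..X, f t ≤ ∫ t in (0:ℝ)..X, g t :=
    intervalIntegral.integral_mono_on hX.le (hf.intervalIntegrable _ _) (hg.intervalIntegrable _ _)
      fun t _ => h t
  gcongr

lemma HasMean_const_mul {f : ℝ → ℝ} {a : ℝ} (c : ℝ) (ha : HasMean f a) : HasMean (fun t => c * f t) (c * a) := by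
  have h1 := ha.const_mul c
  refine h1.congr fun X => ?_
  rw [intervalIntegral.integral_const_mul]
  ring

lemma HasMean_shift {f : ℝ → ℝ} (hf : Continuous f) {B : ℝ} (hB : ∀ t, |f t| ≤ B) {a : ℝ} (ha : HasMean f a)
    (r : ℝ) : HasMean (fun t => f (t + r)) a := by
  have h1 : Tendsto (fun X : ℝ => ((∫ t in X..(X + r), f t) - ∫ t in (0:ℝ)..r, f t) / X) atTop (𝓝 0) := by
    have h2 : Tendsto (fun X : ℝ => X⁻¹ * (2 * (B * |r|))) atTop (𝓝 0) := by
      simpa using tendsto_inv_atTop_zero.mul_const (2 * (B * |r|))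
    rw [tendsto_zero_iff_norm_tendsto_zero]
    refine squeeze_zero' (Eventually.of_forall fun X => norm_nonneg _) ?_ h2
    filter_upwards [eventually_gt_atTop 0] with X hX
    have h3 : ‖∫ t in X..(X + r), f t‖ ≤ B * |X + r - X| :=
      intervalIntegral.norm_integral_le_of_norm_le_const fun t _ => hB t
    have h4 : ‖∫ t in (0:ℝ)..r, f t‖ ≤ B * |r - 0| :=
      intervalIntegral.norm_integral_le_of_norm_le_const fun t _ => hB t
    rw [add_sub_cancel_left] at h3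
    rw [sub_zero] at h4
    rw [norm_div, Real.norm_of_nonneg hX.le, div_eq_mul_inv, mul_comm]
    have h5 := (norm_sub_le (∫ t in X..(X + r), f t) (∫ t in (0:ℝ)..r, f t))
    have h6 : ‖(∫ t in X..(X + r), f t) - ∫ t in (0:ℝ)..r, f t‖ ≤ 2 * (B * |r|) := by linarith
    gcongr
  have h2 := ha.add h1
  rw [add_zero] at h2
  refine h2.congr fun X => ?_
  have hI : ∀ a b : ℝ, IntervalIntegrable f volume a b := fun a b => hf.intervalIntegrable _ _
  rw [intervalIntegral.integral_comp_add_right, zero_add, ← add_div]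
  congr 1
  have e1 := intervalIntegral.integral_add_adjacent_intervals (hI 0 X) (hI X (X + r))
  have e2 := intervalIntegral.integral_add_adjacent_intervals (hI 0 r) (hI r (X + r))
  linarith

theorem means (q : ℕ) (hq : 1 ≤ q) {S : Finset ℕ} (hS : ∀ p ∈ S, p.Prime) {w : ℝ → ℝ}
    (hw0 : ∀ t, 0 ≤ w t) (hw : APS S w) : ∃ M : ℝ, 0 ≤ M ∧ HasMean (fun t => w t * ‖eulerS S t‖ ^ q) M ∧
      ∀ (F : Finset ℝ) (c : ℝ → ℂ) (ε : ℝ), (0:ℝ) ∈ F →
        (∀ t, ‖((w t * ‖eulerS S t‖ ^ q : ℝ) : ℂ) - VF F c t‖ ≤ ε) → M - ε ≤ (c 0).re := by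
  have hc : Continuous fun t : ℝ => ((w t * ‖eulerS S t‖ ^ q : ℝ) : ℂ) :=
    Complex.continuous_ofReal.comp (hw.cont.mul ((euler_cont hS).pow q))
  obtain ⟨m, hm⟩ := mean_exists hc (by
    intro ε hε
    obtain ⟨F, K, _, h0, _, h⟩ := weight_approx q hq hS hw ε hε
    obtain ⟨c, _, h⟩ := h 0
    simp only [add_zero] at h
    exact ⟨VF F c, c 0, VF_cont F c, mean_VF F h0 c, h⟩)
  have hm' := HasMean_of hm
  refine ⟨m.re, ?_, hm', ?_⟩
  · refine ge_of_tendsto hm' ?_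
    filter_upwards [eventually_gt_atTop 0] with X hX
    refine div_nonneg ?_ hX.le
    exact intervalIntegral.integral_nonneg hX.le fun t _ => mul_nonneg (hw0 t) (by positivity)
  · intro F c ε h0 h
    have h1 := mean_close hc (VF_cont F c) hm (mean_VF F h0 c) h
    have h2 := (Complex.abs_re_le_norm (m - c 0)).trans h1
    rw [Complex.sub_re] at h2
    linarith [(abs_le.mp h2).2]

/-- the mean value of the weight -/
theorem mean_w {S : Finset ℕ} {w : ℝ → ℝ} (hw : APS S w) : ∃ μ : ℝ, HasMean w μ := by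
  have hc : Continuous fun t : ℝ => ((w t : ℝ) : ℂ) := Complex.continuous_ofReal.comp hw.cont
  obtain ⟨m, hm⟩ := mean_exists hc (by
    intro ε hε
    obtain ⟨F, c, _, h⟩ := hw ε hε
    exact ⟨VF F c, _, VF_cont F c, mean_sum F c (fun x => x), h⟩)
  exact ⟨m.re, HasMean_of hm⟩

lemma APS_one (S : Finset ℕ) : APS S fun _ => 1 := by
  intro ε hε
  refine ⟨{0}, fun _ => 1, ?_, fun t => ?_⟩
  · intro x hx
    rw [mem_singleton] at hx
    rw [hx]; exact allowed_zero S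
  · unfold VF ex
    simp [hε.le]

theorem mean_one (q : ℕ) (hq : 1 ≤ q) {S : Finset ℕ} (hS : ∀ p ∈ S, p.Prime) :
    ∃ M₀ : ℝ, HasMean (fun t => ‖eulerS S t‖ ^ q) M₀ ∧ ∏ p ∈ S, loc ((q:ℝ) / 2) p ≤ M₀ := by
  have hc : Continuous fun t : ℝ => ((‖eulerS S t‖ ^ q : ℝ) : ℂ) :=
    Complex.continuous_ofReal.comp ((euler_cont hS).pow q)
  obtain ⟨B, hB0, hB, hloc⟩ := loc_approx q hq hS
  have key : ∀ ε : ℝ, 0 < ε → ∃ (g : ℝ → ℂ) (b : ℝ), Continuous g ∧ HasMeanC g b ∧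
      (∀ t, ‖((‖eulerS S t‖ ^ q : ℝ) : ℂ) - g t‖ ≤ ε) ∧ (∏ p ∈ S, loc ((q:ℝ) / 2) p) - ε ≤ b := by
    intro ε hε
    obtain ⟨A, hA1, hA2, hA3⟩ := hloc ε hε
    refine ⟨fun t => ∑ i ∈ A ×ˢ A, ((bm ((q:ℝ) / 2) i.1 * bm ((q:ℝ) / 2) i.2 : ℝ) : ℂ) *
        ex (Real.log i.2 - Real.log i.1) t, ∑ m ∈ A, bm ((q:ℝ) / 2) m ^ 2, ?_, ?_, hA2, hA3⟩
    · exact continuous_finsetSum _ fun i _ => continuous_const.mul (ex_cont _)
    · have h1 := mean_sum (A ×ˢ A) (fun i => ((bm ((q:ℝ) / 2) i.1 * bm ((q:ℝ) / 2) i.2 : ℝ) : ℂ))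
        (fun i => Real.log i.2 - Real.log i.1)
      have h2 : (∑ i ∈ A ×ˢ A, if Real.log i.2 - Real.log i.1 = 0 then
          ((bm ((q:ℝ) / 2) i.1 * bm ((q:ℝ) / 2) i.2 : ℝ) : ℂ) else 0) =
          ((∑ m ∈ A, bm ((q:ℝ) / 2) m ^ 2 : ℝ) : ℂ) := by
        rw [sum_product, Complex.ofReal_sum]
        refine sum_congr rfl fun m hm => ?_
        have h3 : ∀ n ∈ A, (if Real.log (n:ℝ) - Real.log (m:ℝ) = 0 then
            ((bm ((q:ℝ) / 2) m * bm ((q:ℝ) / 2) n : ℝ) : ℂ) else 0) =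
            if n = m then ((bm ((q:ℝ) / 2) m ^ 2 : ℝ) : ℂ) else 0 := by
          intro n hn
          by_cases h : n = m
          · subst h
            rw [sub_self, if_pos rfl, if_pos rfl]
            push_cast; ring
          · rw [if_neg h, if_neg]
            intro h'
            exact h (log_eq (hA1 n hn).1 (hA1 m hm).1 h')
        rw [sum_congr rfl h3, sum_ite_eq' A m, if_pos hm]
      rw [h2] at h1
      exact h1
  obtain ⟨m, hm⟩ := mean_exists hc (by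
    intro ε hε
    obtain ⟨g, b, h1, h2, h3, _⟩ := key ε hε
    exact ⟨g, b, h1, h2, h3⟩)
  refine ⟨m.re, HasMean_of hm, ?_⟩
  refine le_of_forall_pos_le_add fun ε hε => ?_
  obtain ⟨g, b, h1, h2, h3, h4⟩ := key (ε / 2) (by positivity)
  have h5 := mean_close hc h1 hm h2 h3
  have h6 := (Complex.abs_re_le_norm (m - b)).trans h5
  rw [Complex.sub_re, Complex.ofReal_re] at h6
  linarith [(abs_le.mp h6).1]

theorem main (q : ℕ) (hq : 2 ≤ q) : ∃ c : ℝ, 0 < c ∧ ∀ S : Finset ℕ, (∀ p ∈ S, p.Prime) →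
    ∃ M₀ : ℝ, 0 < M₀ ∧ HasMean (fun t => ‖eulerS S t‖ ^ q) M₀ ∧
    ∀ w : ℝ → ℝ, (∀ t, 0 ≤ w t) → APS S w →
    ∃ M : ℝ → ℝ, (∀ r, HasMean (fun t => w (t + r) * ‖eulerS S t‖ ^ q) (M r)) ∧
    ∀ δ : ℝ, 0 < δ → ∀ᶠ T : ℝ in atTop, ∀ r H : ℝ, δ * T ≤ H → H ≤ T →
      c * (M r / M₀) * H * Real.log T ^ ((q:ℝ) ^ 2 / 4) ≤
        ∫ t in Set.Icc T (T + H), ‖zl t‖ ^ q * w (t + r) := by
  obtain ⟨κ, hκ, h⟩ := avg q hq
  refine ⟨κ, hκ, fun S hS => ?_⟩
  obtain ⟨M₀, hM₀, hΛ⟩ := mean_one q (by omega) hS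
  have hqr : (2:ℝ) ≤ q := by exact_mod_cast hq
  have hΛ0 : 0 < ∏ p ∈ S, loc ((q:ℝ) / 2) p := prod_pos fun p hp => loc_pos (by positivity) (hS p hp)
  have hM₀0 : 0 < M₀ := lt_of_lt_of_le hΛ0 hΛ
  refine ⟨M₀, hM₀0, hM₀, fun w hw0 hw => ?_⟩
  have hex := fun r : ℝ => means q (by omega) hS (w := fun t => w (t + r)) (fun t => hw0 _) (hw.shift r)
  choose M hM0 hM hM1 using hex
  refine ⟨M, hM, fun δ hδ => ?_⟩
  obtain ⟨μ, hμ⟩ := mean_w hw
  obtain ⟨W, hW0, hW⟩ := hw.bdd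
  have hμr : ∀ r, HasMean (fun t => w (t + r)) μ := fun r => HasMean_shift hw.cont hW hμ r
  obtain ⟨B, hB0, hB, _⟩ := loc_approx q (by omega) hS
  have hP := PS_pos hS
  have hPr : (0:ℝ) < PS S := by
    have : (1:ℝ) ≤ PS S := by exact_mod_cast hP
    linarith
  have hlow : ∀ t, ((PS S : ℝ)⁻¹) ^ q ≤ ‖eulerS S t‖ ^ q := by
    intro t
    refine pow_le_pow_left₀ (by positivity) ?_ _
    have h1 := ES_euler hS t
    have h2 := ES_norm (PS S) hP t
    rw [inv_le_iff_one_le_mul₀ hPr, ← h1]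
    have h3 : 0 ≤ ‖eulerS S t‖ := norm_nonneg _
    nlinarith
  have hcr : ∀ r, Continuous fun t => w (t + r) := fun r => (hw.shift r).cont
  have hce := (euler_cont hS).pow q
  have hM2 : ∀ r, ((PS S : ℝ)⁻¹) ^ q * μ ≤ M r := fun r =>
    HasMean_le ((hcr r).const_mul _) ((hcr r).mul hce) (HasMean_const_mul _ (hμr r)) (hM r) fun t => by
      have h1 := mul_le_mul_of_nonneg_left (hlow t) (hw0 (t + r))
      rw [mul_comm]
      exact h1
  have hM3 : ∀ r, M r ≤ B * μ := fun r =>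
    HasMean_le ((hcr r).mul hce) ((hcr r).const_mul _) (hM r) (HasMean_const_mul _ (hμr r)) fun t => by
      have h1 := mul_le_mul_of_nonneg_left (hB t) (hw0 (t + r))
      rw [mul_comm B]
      exact h1
  have hmain : ∀ᶠ T : ℝ in atTop, ∀ r H : ℝ, δ * T ≤ H → H ≤ T →
      κ * (M r / ∏ p ∈ S, loc ((q:ℝ) / 2) p) * H * Real.log T ^ ((q:ℝ) ^ 2 / 4) ≤
        ∫ t in Set.Icc T (T + H), ‖zl t‖ ^ q * w (t + r) := by
    rcases le_or_gt μ 0 with hμ0 | hμ0
    · filter_upwards [eventually_ge_atTop 1] with T hT r H hH1 hH2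
      have h1 : M r = 0 := le_antisymm ((hM3 r).trans (mul_nonpos_of_nonneg_of_nonpos hB0 hμ0)) (hM0 r)
      rw [h1, zero_div, mul_zero, zero_mul, zero_mul]
      exact setIntegral_nonneg measurableSet_Icc fun t _ => mul_nonneg (by positivity) (hw0 _)
    · exact h S hS ℝ (fun r t => w (t + r)) (fun t => ‖eulerS S t‖) hcr (fun r t => hw0 _) (euler_cont hS)
        (fun t => norm_nonneg _) (ES_euler hS) (fun ε hε => weight_approx q (by omega) hS hw ε hε) M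
        (((PS S : ℝ)⁻¹) ^ q * μ) (by positivity) hM2 hM1 δ hδ
  filter_upwards [hmain, eventually_ge_atTop 1] with T hT hT1 r H hH1 hH2
  refine le_trans ?_ (hT r H hH1 hH2)
  have hH0 : 0 ≤ H := le_trans (by positivity) hH1
  have hl : 0 ≤ Real.log T ^ ((q:ℝ) ^ 2 / 4) := Real.rpow_nonneg (Real.log_nonneg hT1) _
  have hMr := hM0 r
  gcongr

end

end Pool.Agent.W5h32.KS
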